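import Mathlib.SetTheory.ZFC.Cardinal
import Pool.Agent.Lib.Constructible.Choice

/-!
Finite sets, ranks, choice functions and a compactness argument inside transitive models.
-/

universe u

set_option synthInstance.maxSize 16384

namespace Pool.Agent.P.MP_0d94a4_lc

open ZFSet Pool.Agent.Lib.Forcing

variable {M : Set ZFSet.{u}}

/-- `r` is single valued. -/
def Fn (r : ZFSet.{u}) : Prop := ∀ a b, pair a b ∈ r → ∀ c, pair a c ∈ r → b = c

/-- `s` is finite and has at most as many elements as `t`. -/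
def FinLe (s t : ZFSet.{u}) : Prop :=
  (s : Set ZFSet.{u}).Finite ∧ (s : Set ZFSet.{u}).encard ≤ (t : Set ZFSet.{u}).encard

theorem coe_nat (n : ℕ) : (nat.{u} n : Set ZFSet.{u}) = nat '' Set.Iio n := by
  ext x; simp [mem_nat]

theorem finite_nat (n : ℕ) : (nat.{u} n : Set ZFSet.{u}).Finite := by
  rw [coe_nat]; exact (Set.finite_lt_nat n).image _

theorem encard_nat (n : ℕ) : (nat.{u} n : Set ZFSet.{u}).encard = n := by
  rw [coe_nat, Set.InjOn.encard_image fun _ _ _ _ h => nat_inj.1 h]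
  rw [← Finset.coe_range, Set.encard_coe_eq_coe_finsetCard, Finset.card_range]

theorem infinite_omega : (omega : Set ZFSet.{u}).Infinite :=
  Set.infinite_of_injective_forall_mem (f := nat) (fun _ _ h => nat_inj.1 h) nat_mem_omega

theorem finite_of_mem_omega {n : ZFSet.{u}} (h : n ∈ omega) : (n : Set ZFSet.{u}).Finite := by
  obtain ⟨k, rfl⟩ := mem_omega_iff.1 h
  exact finite_nat k

theorem finLe_omega {s : ZFSet.{u}} : FinLe s omega ↔ (s : Set ZFSet.{u}).Finite :=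
  ⟨fun h => h.1, fun h => ⟨h, by rw [infinite_omega.encard_eq]; exact le_top⟩⟩

theorem coe_img (F : ZFSet.{u} → ZFSet.{u}) (x : ZFSet.{u}) :
    (img F x : Set ZFSet.{u}) = F '' x := by
  ext z; simp [mem_img]

theorem finite_prod {a b : ZFSet.{u}} (ha : (a : Set ZFSet.{u}).Finite)
    (hb : (b : Set ZFSet.{u}).Finite) : (a.prod b : Set ZFSet.{u}).Finite := by
  refine (ha.image2 pair hb).subset fun z hz => ?_
  obtain ⟨x, hx, y, hy, rfl⟩ := mem_prod.1 hz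
  exact ⟨x, hx, y, hy, rfl⟩

theorem exists_nat_bound {s : Set ZFSet.{u}} (hs : s.Finite) (h : ∀ x ∈ s, x ∈ omega) :
    ∃ n : ℕ, ∀ x ∈ s, x ∈ nat n := by
  induction s, hs using Set.Finite.induction_on with
  | empty => exact ⟨0, fun _ h => h.elim⟩
  | @insert a s _ _ ih =>
    obtain ⟨n, hn⟩ := ih fun x hx => h x (Set.mem_insert_of_mem _ hx)
    obtain ⟨k, rfl⟩ := mem_omega_iff.1 (h a (Set.mem_insert _ _))
    refine ⟨n + k + 1, ?_⟩
    rintro x (rfl | hx)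
    · exact nat_mem_nat.2 (by omega)
    · exact nat_subset_nat.2 (by omega : n ≤ n + k + 1) (hn x hx)

theorem mem_omega_of_subset {x : ZFSet.{u}} (ho : x.IsOrdinal) {n : ℕ} (h : x ⊆ nat n) :
    x ∈ omega :=
  ho.mem_of_subset_of_mem isOrdinal_omega' h (nat_mem_omega n)

theorem sUnion_mem_omega {s : ZFSet.{u}} (hs : (s : Set ZFSet.{u}).Finite)
    (h : ∀ x ∈ s, x ∈ omega) : (⋃₀ s : ZFSet.{u}) ∈ omega := by
  obtain ⟨n, hn⟩ := exists_nat_bound hs h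
  refine mem_omega_of_subset (n := n) (isOrdinal_iff_forall_mem_isOrdinal.2
    ⟨IsTransitive.sUnion' fun y hy => (isOrdinal_omega'.mem (h y hy)).isTransitive, fun z hz => ?_⟩)
    fun z hz => ?_
  · obtain ⟨y, hy, hz⟩ := mem_sUnion.1 hz
    exact (isOrdinal_omega'.mem (h y hy)).mem hz
  · obtain ⟨y, hy, hz⟩ := mem_sUnion.1 hz
    exact (isOrdinal_nat n).mem_trans hz (hn y hy)

theorem exists_coe_of_finite {s : Set ZFSet.{u}} (hs : s.Finite) :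
    ∃ z : ZFSet.{u}, (z : Set ZFSet.{u}) = s := by
  induction s, hs using Set.Finite.induction_on with
  | empty => exact ⟨∅, coe_empty⟩
  | @insert a s _ _ ih =>
    obtain ⟨z, rfl⟩ := ih
    exact ⟨insert a z, coe_insert _ _⟩

/-! Ranks. -/

theorem rk_mem_iff {x γ : ZFSet.{u}} (ho : γ.IsOrdinal) : rk x ∈ γ ↔ x.rank < γ.rank := by
  rw [← (isOrdinal_rk x).rank_lt_iff_mem ho, rk, Ordinal.rank_toZFSet]

theorem rk_subset_iff {x γ : ZFSet.{u}} (ho : γ.IsOrdinal) : rk x ⊆ γ ↔ x.rank ≤ γ.rank := by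
  rw [← (isOrdinal_rk x).rank_le_iff_subset ho, rk, Ordinal.rank_toZFSet]

theorem rk_subset_iff' {x γ : ZFSet.{u}} (ho : γ.IsOrdinal) : rk x ⊆ γ ↔ ∀ y ∈ x, rk y ∈ γ := by
  rw [rk_subset_iff ho, rank_le_iff]
  exact forall_congr' fun y => forall_congr' fun _ => (rk_mem_iff ho).symm

theorem rk_mem_of_mem {x y γ : ZFSet.{u}} (ho : γ.IsOrdinal) (h : rk x ∈ γ) (hy : y ∈ x) :
    rk y ∈ γ := (rk_mem_iff ho).2 ((rank_lt_of_mem hy).trans ((rk_mem_iff ho).1 h))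

theorem rk_of_isOrdinal {x : ZFSet.{u}} (h : x.IsOrdinal) : rk x = x := h.toZFSet_rank_eq

/-- Ordinals closed under successor. -/
def SuccCl (γ : ZFSet.{u}) : Prop := ∀ δ ∈ γ, insert δ δ ∈ γ

theorem succCl_omega : SuccCl omega.{u} := fun _ => omega_succ

theorem rk_insert_mem {x y γ : ZFSet.{u}} (ho : γ.IsOrdinal) (hs : SuccCl γ) (hx : rk x ∈ γ)
    (hy : rk y ∈ γ) : rk (insert x y) ∈ γ := by
  have h1 := hs _ hx
  rw [rk, ← Ordinal.toZFSet_add_one, ← (isOrdinal_toZFSet _).rank_lt_iff_mem ho,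
    Ordinal.rank_toZFSet] at h1
  rw [rk_mem_iff ho] at hy ⊢
  rw [rank_insert]
  exact max_lt h1 hy

theorem rk_mem_of_finite {x γ : ZFSet.{u}} (ho : γ.IsOrdinal) (hs : SuccCl γ) (h0 : ∅ ∈ γ)
    (hx : (x : Set ZFSet.{u}).Finite) (h : ∀ y ∈ x, rk y ∈ γ) : rk x ∈ γ := by
  have key : ∀ s : Set ZFSet.{u}, s.Finite → (∀ y ∈ s, rk y ∈ γ) →
      ∃ z : ZFSet.{u}, rk z ∈ γ ∧ (z : Set ZFSet.{u}) = s := by
    intro s hs'
    induction s, hs' using Set.Finite.induction_on with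
    | empty => exact fun _ => ⟨∅, by rwa [rk_of_isOrdinal isOrdinal_empty], coe_empty⟩
    | @insert a s _ _ ih =>
      intro h
      obtain ⟨z, hz, rfl⟩ := ih fun y hy => h y (Set.mem_insert_of_mem _ hy)
      exact ⟨insert a z, rk_insert_mem ho hs (h a (Set.mem_insert _ _)) hz, coe_insert _ _⟩
  obtain ⟨z, hz, h'⟩ := key x hx h
  rwa [← SetLike.coe_injective h']

theorem rk_pair_mem {x y γ : ZFSet.{u}} (ho : γ.IsOrdinal) (hs : SuccCl γ) (hx : rk x ∈ γ)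
    (hy : rk y ∈ γ) : rk (pair x y) ∈ γ := by
  have h0 : ∅ ∈ γ := isOrdinal_empty.mem_of_subset_of_mem ho (empty_subset _) hx
  have h1 : ∀ z, rk z ∈ γ → rk {z} ∈ γ := fun z hz =>
    rk_mem_of_finite ho hs h0 (by simp) fun w hw => mem_singleton.1 hw ▸ hz
  exact rk_insert_mem ho hs (h1 x hx) (h1 _ (rk_insert_mem ho hs hx (h1 y hy)))

theorem rk_fst_mem {x y γ : ZFSet.{u}} (ho : γ.IsOrdinal) (h : rk (pair x y) ∈ γ) : rk x ∈ γ :=
  rk_mem_of_mem ho (rk_mem_of_mem ho h (mem_insert _ _)) (mem_singleton.2 rfl)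

theorem rk_snd_mem {x y γ : ZFSet.{u}} (ho : γ.IsOrdinal) (h : rk (pair x y) ∈ γ) : rk y ∈ γ :=
  rk_mem_of_mem ho (rk_mem_of_mem ho h (mem_pair.2 (Or.inr rfl))) (mem_pair.2 (Or.inr rfl))

theorem finite_rk (n : ℕ) : {x : ZFSet.{u} | rk x ∈ nat n}.Finite := by
  induction n with
  | zero => simp [nat]
  | succ n ih =>
    refine Set.Finite.of_finite_image (f := fun x : ZFSet.{u} => (x : Set ZFSet.{u}))
      (ih.finite_subsets.subset ?_) SetLike.coe_injective.injOn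
    rintro _ ⟨x, hx, rfl⟩ y hy
    refine (rk_subset_iff' (isOrdinal_nat n)).1 ?_ y hy
    have hx' : rk x ∈ insert (nat n) (nat n) := hx
    rcases mem_insert_iff.1 hx' with h | h
    exacts [h.le, (isOrdinal_nat n).subset_of_mem h]

theorem finite_of_hf {x : ZFSet.{u}} (h : rk x ∈ omega) : (x : Set ZFSet.{u}).Finite := by
  obtain ⟨n, hn⟩ := mem_omega_iff.1 h
  exact (finite_rk n).subset fun y hy => (rk_subset_iff' (isOrdinal_nat n)).1 hn.ge y hy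

theorem hf_of_finite {x : ZFSet.{u}} (hx : (x : Set ZFSet.{u}).Finite) (h : ∀ y ∈ x, rk y ∈ omega) :
    rk x ∈ omega := rk_mem_of_finite isOrdinal_omega' succCl_omega omega_zero hx h

theorem hf_pair {x y : ZFSet.{u}} (hx : rk x ∈ omega) (hy : rk y ∈ omega) :
    rk (pair x y) ∈ omega := rk_pair_mem isOrdinal_omega' succCl_omega hx hy

theorem hf_mem {x y : ZFSet.{u}} (hx : rk x ∈ omega) (hy : y ∈ x) : rk y ∈ omega :=
  rk_mem_of_mem isOrdinal_omega' hx hy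

theorem hf_of_mem_omega {x : ZFSet.{u}} (hx : x ∈ omega) : rk x ∈ omega := by
  rwa [rk_of_isOrdinal (isOrdinal_omega'.mem hx)]

theorem hf_of_subset {x y : ZFSet.{u}} (hx : rk x ∈ omega) (hy : y ⊆ x) : rk y ∈ omega :=
  hf_of_finite ((finite_of_hf hx).subset hy) fun _ h => hf_mem hx (hy h)

theorem hf_sUnion {x : ZFSet.{u}} (hx : rk x ∈ omega) : rk (⋃₀ x) ∈ omega :=
  (rk_mem_iff isOrdinal_omega').2 ((rank_sUnion_le x).trans_lt ((rk_mem_iff isOrdinal_omega').1 hx))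

theorem hf_fst {x : ZFSet.{u}} (hx : rk x ∈ omega) : rk (fst x) ∈ omega :=
  hf_of_subset (hf_sUnion (hf_sUnion hx)) sep_subset

theorem hf_snd {x : ZFSet.{u}} (hx : rk x ∈ omega) : rk (snd x) ∈ omega :=
  hf_of_subset (hf_sUnion (hf_sUnion hx)) sep_subset

/-- The value of a function. -/
def app (f x : ZFSet.{u}) : ZFSet.{u} := ⋃₀ (⋃₀ ⋃₀ f).sep fun v => pair x v ∈ f

theorem app_eq {f x y : ZFSet.{u}} (h : ∀ z, pair x z ∈ f ↔ z = y) : app f x = y := by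
  ext w
  simp only [app, mem_sUnion, mem_sep, h]
  constructor
  · rintro ⟨_, ⟨-, rfl⟩, hw⟩; exact hw
  · exact fun hw => ⟨y, ⟨⟨{x, y}, ⟨_, (h y).2 rfl, mem_pair.2 (Or.inr rfl)⟩,
      mem_pair.2 (Or.inr rfl)⟩, rfl⟩, hw⟩

section
variable [hM : ZFm M]

theorem hf_mem_model {x : ZFSet.{u}} (h : rk x ∈ omega) : x ∈ M := by
  induction x using ZFSet.inductionOn with
  | h x ih => exact mem_of_finite (finite_of_hf h) fun y hy => ih y hy (hf_mem h hy)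

instance Df.fn {s : Env.{u} → ZFSet.{u}} [Tm M s] : Df M (fun e => Fn (s e)) :=
  Df.subst1 (R := Fn) (by unfold Fn; infer_instance) s

instance Df.succCl {s : Env.{u} → ZFSet.{u}} [Tm M s] : Df M (fun e => SuccCl (s e)) :=
  Df.subst1 (R := SuccCl) (by unfold SuccCl; infer_instance) s

instance Tm.app {s t : Env.{u} → ZFSet.{u}} [hs : Tm M s] [ht : Tm M t] :
    Tm M (fun e => app (s e) (t e)) := by
  have := hs.shift
  have := ht.shift
  unfold MP_0d94a4_lc.app; infer_instance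

omit hM in
theorem encard_le_of_inj {s t h : ZFSet.{u}} (h1 : ∀ x ∈ s, ∃ y ∈ t, pair x y ∈ h)
    (h2 : ∀ x y, pair x y ∈ h → ∀ x', pair x' y ∈ h → x = x') :
    (s : Set ZFSet.{u}).encard ≤ (t : Set ZFSet.{u}).encard := by
  choose! f hf hf' using h1
  exact Set.encard_le_encard_of_injOn (f := f) (fun x hx => hf x hx)
    fun x hx y hy h => h2 x _ (hf' x hx) y (h ▸ hf' y hy)

theorem exists_inj_of_finLe {s t : ZFSet.{u}} (hs : s ∈ M) (ht : t ∈ M) (h : FinLe s t) :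
    ∃ h ∈ M, (∀ x ∈ s, ∃ y ∈ t, pair x y ∈ h) ∧
      ∀ x y, pair x y ∈ h → ∀ x', pair x' y ∈ h → x = x' := by
  obtain ⟨f, h1, h2⟩ := h.1.exists_injOn_of_encard_le h.2
  refine ⟨img (fun x => pair x (f x)) s, mem_of_finite (coe_img _ _ ▸ h.1.image _) fun y hy => ?_,
    fun x hx => ⟨f x, h1 hx, mem_img.2 ⟨x, hx, rfl⟩⟩, fun x y h3 x' h4 => ?_⟩
  · obtain ⟨x, hx, rfl⟩ := mem_img.1 hy
    exact pair_mem (mem_of_mem hs hx) (mem_of_mem ht (h1 hx))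
  · obtain ⟨a, ha, h3⟩ := mem_img.1 h3
    obtain ⟨b, hb, h4⟩ := mem_img.1 h4
    obtain ⟨rfl, rfl⟩ := pair_inj.1 h3
    obtain ⟨rfl, h5⟩ := pair_inj.1 h4
    exact h2 ha hb h5.symm

instance Df.finLe {s t : Env.{u} → ZFSet.{u}} [Tm M s] [Tm M t] :
    Df M (fun e => FinLe (s e) (t e)) := by
  refine Df.subst2 (R := FinLe) ((inferInstance : Df M (fun e =>
    (∃ n ∈ omega, ∃ h ∈ M, (∀ x ∈ e 0, ∃ y ∈ n, pair x y ∈ h) ∧
      ∀ x y, pair x y ∈ h → ∀ x', pair x' y ∈ h → x = x') ∧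
    ∃ h ∈ M, (∀ x ∈ e 0, ∃ y ∈ e 1, pair x y ∈ h) ∧
      ∀ x y, pair x y ∈ h → ∀ x', pair x' y ∈ h → x = x')).congr fun e he => ?_) s t
  constructor
  · rintro ⟨⟨n, hn, h, -, h1, h2⟩, h', -, h3, h4⟩
    exact ⟨Set.finite_of_encard_le_coe (k := _) ((encard_le_of_inj h1 h2).trans
      (finite_of_mem_omega hn).cast_ncard_eq.ge), encard_le_of_inj h3 h4⟩
  · intro h
    refine ⟨⟨nat (e 0 : Set ZFSet.{u}).ncard, nat_mem_omega _,
      exists_inj_of_finLe (he 0) (nat_mem _) ⟨h.1, ?_⟩⟩, exists_inj_of_finLe (he 0) (he 1) h⟩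
    rw [encard_nat, h.1.cast_ncard_eq]

/-- Choice functions for definable relations. -/
theorem exists_choice (hpow : ∀ x ∈ M, ∃ y ∈ M, ∀ z ∈ M, z ⊆ x → z ∈ y)
    (enum : ∀ x ∈ M, ∃ α ∈ M, α.IsOrdinal ∧ ∃ r ∈ M, Fn r ∧ ∀ y ∈ x, ∃ ξ ∈ α, pair ξ y ∈ r)
    (R : ZFSet.{u} → ZFSet.{u} → Prop) [h : Df M (fun e => R (e 0) (e 1))] {a : ZFSet.{u}}
    (ha : a ∈ M) (H : ∀ x ∈ a, ∃ y ∈ M, R y x) :
    ∃ f ∈ M, Fn f ∧ (∀ x ∈ a, ∃ y, pair x y ∈ f) ∧ ∀ x y, pair x y ∈ f → x ∈ a ∧ R y x := by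
  have hR : ∀ (s t : Env.{u} → ZFSet.{u}) [Tm M s] [Tm M t], Df M (fun e => R (s e) (t e)) :=
    fun s t _ _ => Df.subst2 h s t
  obtain ⟨B, hB, HB⟩ := collection hpow R ha
  obtain ⟨α, hα, ho, r, hr, h1, h2⟩ := enum B hB
  have := InM.mk hr
  have := InM.mk hα
  obtain ⟨f, hf, -, Hf⟩ := exists_pairSep (M := M)
    (fun x y => R y x ∧ ∃ ξ ∈ α, pair ξ y ∈ r ∧ ∀ ξ' ∈ ξ, ∀ y', pair ξ' y' ∈ r → ¬ R y' x) ha
    (sUnion_mem (sUnion_mem hr))
  refine ⟨f, hf, fun x y h3 y' h4 => ?_, fun x hx => ?_,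
    fun x y h3 => ⟨((Hf _ _).1 h3).1, ((Hf _ _).1 h3).2.2.1⟩⟩
  · obtain ⟨-, -, h5, ξ, h6, h7, h8⟩ := (Hf _ _).1 h3
    obtain ⟨-, -, h9, η, h10, h11, h12⟩ := (Hf _ _).1 h4
    rcases (ho.mem h6).mem_trichotomous (ho.mem h10) with h' | rfl | h'
    exacts [(h12 ξ h' y h7 h5).elim, h1 _ _ h7 _ h11, (h8 η h' y' h11 h9).elim]
  · obtain ⟨y0, h3, h4⟩ := HB x hx (H x hx)
    obtain ⟨ξ0, h5, h6⟩ := h2 y0 h3
    obtain ⟨ξ, ⟨h7, y, h8, h9⟩, h10⟩ :=
      mem_wf.has_min {ξ | ξ ∈ α ∧ ∃ y, pair ξ y ∈ r ∧ R y x} ⟨ξ0, h5, y0, h6, h4⟩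
    exact ⟨y, (Hf _ _).2 ⟨hx, mem_sUnion.2 ⟨{ξ, y}, mem_sUnion.2 ⟨_, h8, mem_pair.2 (Or.inr rfl)⟩,
      mem_pair.2 (Or.inr rfl)⟩, h9, ξ, h7, h8,
      fun ξ' h y' h' h'' => h10 ξ' ⟨ho.mem_trans h h7, y', h', h''⟩ h⟩⟩

end

/-- Filter bases. -/
structure Base (ℬ : ZFSet.{u}) : Prop where
  ne : ∃ B, B ∈ ℬ
  ne' : ∀ B ∈ ℬ, ∃ q, q ∈ B
  dir : ∀ B ∈ ℬ, ∀ B' ∈ ℬ, ∃ C ∈ ℬ, C ⊆ B ∧ C ⊆ B'

theorem Base.finite {ℬ : ZFSet.{u}} (h : Base ℬ) {J : Set ZFSet.{u}} (hJ : J.Finite)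
    {Q : ZFSet.{u} → ZFSet.{u} → Prop} (H : ∀ j ∈ J, ∃ B ∈ ℬ, ∀ q ∈ B, Q j q) :
    ∃ B ∈ ℬ, ∀ q ∈ B, ∀ j ∈ J, Q j q := by
  induction J, hJ using Set.Finite.induction_on with
  | empty => exact h.ne.imp fun B hB => ⟨hB, fun _ _ _ h => h.elim⟩
  | @insert a s _ _ ih =>
    obtain ⟨B, hB, h1⟩ := ih fun j hj => H j (Set.mem_insert_of_mem _ hj)
    obtain ⟨B', hB', h2⟩ := H a (Set.mem_insert _ _)
    obtain ⟨C, hC, h3, h4⟩ := h.dir B hB B' hB'
    refine ⟨C, hC, fun q hq => ?_⟩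
    rintro j (rfl | hj)
    exacts [h2 q (h4 hq), h1 q (h3 hq) j hj]

section
variable [hM : ZFm M]

/-- A cluster point, in the model, of a family of reals along a filter base. -/
theorem exists_cluster {ℬ X : ZFSet.{u}} (hℬ : ℬ ∈ M) (h : Base ℬ) (hX : X ∈ M) :
    ∃ x ∈ M, ∀ m ∈ omega, ∀ B ∈ ℬ, ∃ q ∈ B, ∀ n ∈ m, (pair q n ∈ X ↔ n ∈ x) := by
  classical
  have := InM.mk hℬ
  have := InM.mk hX
  let Pos : ZFSet.{u} → ZFSet.{u} → Prop := fun m t =>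
    ∀ B ∈ ℬ, ∃ q ∈ B, ∀ n ∈ m, (pair q n ∈ X ↔ n ∈ t)
  let t : ℕ → ZFSet.{u} := fun k => Nat.rec ∅
    (fun k t => if Pos (nat (k + 1)) t then t else insert (nat k) t) k
  have ts : ∀ k, t (k + 1) = if Pos (nat (k + 1)) (t k) then t k else insert (nat k) (t k) :=
    fun _ => rfl
  have h1 : ∀ k, t k ⊆ nat k ∧ Pos (nat k) (t k) := by
    intro k
    induction k with
    | zero =>
      exact ⟨subset_rfl, fun B hB => (h.ne' B hB).imp fun q hq =>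
        ⟨hq, fun n hn => (notMem_empty _ hn).elim⟩⟩
    | succ k ih =>
      rw [ts]
      split_ifs with h2
      · exact ⟨fun z hz => mem_insert_of_mem _ (ih.1 hz), h2⟩
      · refine ⟨fun z hz => (mem_insert_iff.1 hz).elim (fun h => h ▸ mem_insert _ _)
          fun h => mem_insert_of_mem _ (ih.1 h), fun B hB => ?_⟩
        simp only [Pos] at h2
        push Not at h2
        obtain ⟨B', hB', h2⟩ := h2
        obtain ⟨C, hC, h3, h4⟩ := h.dir B hB B' hB'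
        obtain ⟨q, hq, h5⟩ := ih.2 C hC
        refine ⟨q, h3 hq, fun n hn => ?_⟩
        obtain ⟨n', h6, h7⟩ := h2 q (h4 hq)
        have h8 : nat k ∉ t k := fun h => mem_irrefl _ (ih.1 h)
        rcases mem_insert_iff.1 h6 with rfl | h6
        · rcases mem_insert_iff.1 hn with rfl | hn
          · simp only [mem_insert_iff, true_or, iff_true]
            tauto
          · rw [h5 n hn, mem_insert_iff]
            exact ⟨Or.inr, fun h => h.resolve_left fun h => mem_irrefl _ (h ▸ hn)⟩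
        · have := h5 n' h6
          tauto
  have h2 : ∀ k j, j ≤ k → t k ∩ nat j = t j := by
    intro k j hj
    induction hj with
    | refl => exact inter_eq_left_of_subset (h1 j).1
    | @step k hk ih =>
      rw [ts]
      split_ifs
      · exact ih
      · rw [← ih]
        ext z
        simp only [mem_inter, mem_insert_iff]
        refine ⟨fun h => ⟨h.1.resolve_left fun h' => ?_, h.2⟩, fun h => ⟨Or.inr h.1, h.2⟩⟩
        exact absurd (nat_mem_nat.1 (h' ▸ h.2)) (not_lt.2 hk)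
  have h3 : ∀ k, (nat k ∈ t (k + 1) ↔ ¬ Pos (nat (k + 1)) (t k)) := by
    intro k
    rw [ts]
    split_ifs with h
    · exact ⟨fun h' => (mem_irrefl _ ((h1 k).1 h')).elim, fun h' => (h' h).elim⟩
    · exact ⟨fun _ => h, fun _ => mem_insert _ _⟩
  have h4 : ∀ k s, s ⊆ nat k → (∀ d ∈ nat k, (d ∈ s ↔ ¬ Pos (insert d d) (s ∩ d))) → s = t k := by
    intro k
    induction k with
    | zero => exact fun s hs _ => subset_antisymm hs (empty_subset _)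
    | succ k ih =>
      intro s hs H
      have h5 : s ∩ nat k = t k := ih _ (fun z hz => (mem_inter.1 hz).2) fun d hd => by
        rw [mem_inter, and_iff_left hd, H d (mem_insert_of_mem _ hd)]
        congr! 2
        ext z
        simp only [mem_inter]
        exact ⟨fun h => ⟨⟨h.1, (isOrdinal_nat k).mem_trans h.2 hd⟩, h.2⟩, fun h => ⟨h.1.1, h.2⟩⟩
      have h6 := H (nat k) (mem_insert _ _)
      rw [h5] at h6
      ext z
      by_cases hz : z = nat k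
      · rw [hz, h6, h3]; rfl
      · have h7 : z ∈ t (k + 1) ↔ z ∈ t k := by
          rw [← h2 (k + 1) k (by omega), mem_inter]
          exact ⟨fun h => ⟨h, (mem_insert_iff.1 ((h1 (k + 1)).1 h)).resolve_left hz⟩, fun h => h.1⟩
        rw [h7, ← h5, mem_inter]
        exact ⟨fun h => ⟨h, (mem_insert_iff.1 (hs h)).resolve_left hz⟩, fun h => h.1⟩
  have h5 : ∀ k, ∀ d ∈ nat k, (d ∈ t k ↔ ¬ Pos (insert d d) (t k ∩ d)) := by
    intro k d hd
    obtain ⟨j, hj, rfl⟩ := mem_nat.1 hd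
    rw [h2 k j hj.le, ← nat, ← h3, ← h2 k (j + 1) hj, mem_inter]
    exact (and_iff_left (mem_insert _ _)).symm
  refine ⟨_, sep_mem (fun n => ∃ s ∈ M, s ⊆ insert n n ∧ n ∈ s ∧
    ∀ d ∈ (insert n n : ZFSet.{u}), (d ∈ s ↔ ¬ ∀ B ∈ ℬ, ∃ q ∈ B, ∀ n ∈ (insert d d : ZFSet.{u}),
      (pair q n ∈ X ↔ n ∈ s ∩ d))) omega_mem, fun m hm B hB => ?_⟩
  obtain ⟨k, rfl⟩ := mem_omega_iff.1 hm
  obtain ⟨q, hq, h6⟩ := (h1 k).2 B hB
  refine ⟨q, hq, fun n hn => (h6 n hn).trans ?_⟩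
  obtain ⟨j, hj, rfl⟩ := mem_nat.1 hn
  have h7 : nat j ∈ t k ↔ nat j ∈ t (j + 1) := by
    rw [← h2 k (j + 1) hj, mem_inter]
    exact (and_iff_left (mem_insert _ _)).symm
  rw [h7, mem_sep]
  constructor
  · exact fun h => ⟨nat_mem_omega j, _, mem_of_finite ((finite_nat _).subset (h1 (j + 1)).1)
      fun y hy => mem_of_mem (nat_mem (j + 1)) ((h1 (j + 1)).1 hy), (h1 (j + 1)).1, h, h5 (j + 1)⟩
  · rintro ⟨-, s, -, h8, h9, h10⟩
    rwa [← h4 (j + 1) s h8 h10]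

/-- A joint cluster point for finitely many families. -/
theorem exists_clusters {J : Set ZFSet.{u}} (hJ : J.Finite) (X : ZFSet.{u} → ZFSet.{u})
    (hX : ∀ j ∈ J, X j ∈ M) {ℬ : ZFSet.{u}} (hℬ : ℬ ∈ M) (h : Base ℬ) :
    ∃ x : ZFSet.{u} → ZFSet.{u}, (∀ j ∈ J, x j ∈ M) ∧ ∀ m ∈ omega, ∀ B ∈ ℬ, ∃ q ∈ B,
      ∀ j ∈ J, ∀ n ∈ m, (pair q n ∈ X j ↔ n ∈ x j) := by
  classical
  induction J, hJ using Set.Finite.induction_on generalizing ℬ with
  | empty =>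
    exact ⟨id, fun _ h => h.elim, fun m _ B hB => (h.ne' B hB).imp fun q hq =>
      ⟨hq, fun _ h => h.elim⟩⟩
  | @insert a s _ _ ih =>
    have hXa := hX a (Set.mem_insert _ _)
    obtain ⟨y, hy, H⟩ := exists_cluster hℬ h hXa
    have := InM.mk hℬ
    have := InM.mk hXa
    have := InM.mk hy
    let F : ZFSet.{u} → ZFSet.{u} := fun z =>
      (fst z).sep fun q => ∀ n ∈ snd z, (pair q n ∈ X a ↔ n ∈ y)
    have h1 : img F (ℬ.prod omega) ∈ M :=
      (by unfold F; infer_instance : Tm M (fun _ => img F (ℬ.prod omega))).mem'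
    have h2 : ∀ B ∈ ℬ, ∀ m ∈ omega, F (pair B m) ∈ img F (ℬ.prod omega) :=
      fun B hB m hm => mem_img.2 ⟨_, pair_mem_prod.2 ⟨hB, hm⟩, rfl⟩
    have h3 : ∀ B m q, q ∈ F (pair B m) ↔ q ∈ B ∧ ∀ n ∈ m, (pair q n ∈ X a ↔ n ∈ y) := by
      intro B m q; simp only [F, fst_pair, snd_pair, mem_sep]
    obtain ⟨x, hx, H'⟩ := ih (fun j hj => hX j (Set.mem_insert_of_mem _ hj)) h1 ⟨by
      obtain ⟨B, hB⟩ := h.ne
      exact ⟨_, h2 B hB _ omega_zero⟩, by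
      intro C hC
      obtain ⟨z, hz, rfl⟩ := mem_img.1 hC
      obtain ⟨B, hB, m, hm, rfl⟩ := mem_prod.1 hz
      exact (H m hm B hB).imp fun q hq => (h3 _ _ _).2 hq, by
      intro C hC C' hC'
      obtain ⟨z, hz, rfl⟩ := mem_img.1 hC
      obtain ⟨B, hB, m, hm, rfl⟩ := mem_prod.1 hz
      obtain ⟨z, hz, rfl⟩ := mem_img.1 hC'
      obtain ⟨B', hB', m', hm', rfl⟩ := mem_prod.1 hz
      obtain ⟨D, hD, h4, h5⟩ := h.dir B hB B' hB'
      obtain ⟨k, rfl⟩ := mem_omega_iff.1 hm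
      obtain ⟨k', rfl⟩ := mem_omega_iff.1 hm'
      refine ⟨_, h2 D hD _ (nat_mem_omega (k + k')), fun q hq => ?_, fun q hq => ?_⟩
      · rw [h3] at hq ⊢
        exact ⟨h4 hq.1, fun n hn => hq.2 n (nat_subset_nat.2 (by omega) hn)⟩
      · rw [h3] at hq ⊢
        exact ⟨h5 hq.1, fun n hn => hq.2 n (nat_subset_nat.2 (by omega) hn)⟩⟩
    refine ⟨fun j => if j = a then y else x j, fun j hj => ?_, fun m hm B hB => ?_⟩
    · beta_reduce
      split_ifs with h4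
      exacts [hy, hx j (hj.resolve_left h4)]
    · obtain ⟨q, hq, h4⟩ := H' m hm _ (h2 B hB m hm)
      rw [h3] at hq
      refine ⟨q, hq.1, fun j hj => ?_⟩
      beta_reduce
      split_ifs with h5
      exacts [h5 ▸ hq.2, h4 j (hj.resolve_left h5)]

end

end Pool.Agent.P.MP_0d94a4_lc
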