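import Mathlib.Data.Set.Card
import Pool.Agent.Lib.Constructible.Defs

/-!
The notions of the problem, relativised to a transitive class `N` of sets. Functions are sets
of ordered pairs, `omega` is the set of von Neumann natural numbers, so that for natural numbers
`m ⊆ n` means `m ≤ n`, and elements of `2^ω` are subsets of `omega`.
-/

universe u

namespace Pool.Agent.P.MP_0d94a4_lc

open ZFSet Pool.Agent.Lib.Forcing

/-- `N` satisfies the axiom of choice. -/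
def Choice (N : Set ZFSet.{u}) : Prop :=
  ∀ x ∈ N, ∅ ∉ x → ∃ f ∈ N, IsFunc x (⋃₀ x) f ∧ ∀ y z, pair y z ∈ f → z ∈ y

/-- The transitive closure of `{a}` for a function `a : ω → ω`. -/
def base (a : ZFSet.{u}) : ZFSet.{u} := insert a (a ∪ ⋃₀ a ∪ omega)

/-- `L[a]` as computed in `N`: the union over the ordinals `α` of `N` of the levels `L_α` of the
constructible hierarchy that starts from the transitive closure of `{a}`. -/
def Lrel (N : Set ZFSet.{u}) (a : ZFSet.{u}) : Set ZFSet.{u} := constr N (base a)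

/-- The splitting set `H(Y)`. -/
def split (Y : ZFSet.{u}) : ZFSet.{u} :=
  omega.sep fun n => ∃ x ∈ Y, ∃ y ∈ Y, x ∩ n = y ∩ n ∧ ¬ (n ∈ x ↔ n ∈ y)

/-- `N` satisfies: `A` belongs to the Raisonnier filter of `X`. -/
def InFilter (N X : Set ZFSet.{u}) (A : ZFSet.{u}) : Prop :=
  A ⊆ omega ∧ ∃ Y ∈ N, (∃ B, IsFunc omega B Y) ∧ (∀ x, x ∈ X ↔ ∃ k y, pair k y ∈ Y ∧ x ∈ y) ∧
    ∀ k y, pair k y ∈ Y → split y ⊆ A

/-- `N` satisfies: the Raisonnier filter of `X` is rapid. -/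
def Rapid (N X : Set ZFSet.{u}) : Prop :=
  ∀ f ∈ N, IsFunc omega omega f → (∀ m i n j, pair m i ∈ f → pair n j ∈ f → m ⊆ n → i ⊆ j) →
    ∃ A ∈ N, InFilter N X A ∧ ∀ n j, pair n j ∈ f →
      ((A ∩ j : ZFSet.{u}) : Set ZFSet.{u}).encard ≤ (n : Set ZFSet.{u}).encard

/-- `N` satisfies (R). -/
def PropR (N : Set ZFSet.{u}) : Prop :=
  ∀ a ∈ N, IsFunc omega omega a → Rapid N {x | x ⊆ omega ∧ x ∈ Lrel N a}

/-- `N` satisfies (D). -/
def PropD (N : Set ZFSet.{u}) : Prop :=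
  ∀ a ∈ N, IsFunc omega omega a → ∃ d ∈ N, IsFunc omega omega d ∧
    ∀ f ∈ Lrel N a, IsFunc omega omega f →
      ∃ m ∈ omega, ∀ n i j, m ⊆ n → pair n i ∈ f → pair n j ∈ d → i ⊆ j

end Pool.Agent.P.MP_0d94a4_lc
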