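import Pool.Agent.P.MP_0d94a4_lc.Poset

/-!
Extending the stem at one coordinate, and gluing conditions.
-/

universe u

set_option synthInstance.maxSize 16384

namespace Pool.Agent.P.MP_0d94a4_lc

open ZFSet Pool.Agent.Lib.Forcing

theorem pair_ne_empty (a b : ZFSet.{u}) : pair a b ≠ ∅ :=
  fun h => notMem_empty {a} (by rw [← h]; exact mem_insert _ _)

theorem empty_ne_one : (∅ : ZFSet.{u}) ≠ {∅} :=
  fun h => ((ZFSet.eq_empty _).1 h.symm) ∅ (mem_singleton.2 rfl)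

theorem not_isOrdinal_pair (a b : ZFSet.{u}) : ¬ (pair a b).IsOrdinal := by
  intro h
  rcases (isOrdinal_empty.subset_iff_eq_or_mem h).1 (empty_subset _) with h' | h'
  · exact pair_ne_empty a b h'.symm
  · rcases mem_pair.1 h' with h' | h'
    exacts [notMem_empty a (h' ▸ mem_singleton.2 rfl), notMem_empty a (h' ▸ mem_insert _ _)]

theorem hf_union {x y : ZFSet.{u}} (hx : rk x ∈ omega) (hy : rk y ∈ omega) : rk (x ∪ y) ∈ omega :=
  hf_of_finite (coe_union x y ▸ (finite_of_hf hx).union (finite_of_hf hy))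
    fun _ h => (mem_union.1 h).elim (hf_mem hx) (hf_mem hy)

theorem hf_insert {x y : ZFSet.{u}} (hx : rk x ∈ omega) (hy : rk y ∈ omega) :
    rk (insert x y) ∈ omega := rk_insert_mem isOrdinal_omega' succCl_omega hx hy

theorem hf_empty : rk (∅ : ZFSet.{u}) ∈ omega := hf_of_mem_omega omega_zero

theorem hf_singleton {x : ZFSet.{u}} (hx : rk x ∈ omega) : rk ({x} : ZFSet.{u}) ∈ omega :=
  hf_of_finite (by simp) fun _ h => mem_singleton.1 h ▸ hx

theorem hf_prod {x y : ZFSet.{u}} (hx : rk x ∈ omega) (hy : rk y ∈ omega) :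
    rk (x.prod y) ∈ omega :=
  hf_of_finite (finite_prod (finite_of_hf hx) (finite_of_hf hy)) fun z h => by
    obtain ⟨a, ha, b, hb, rfl⟩ := mem_prod.1 h
    exact hf_pair (hf_mem hx ha) (hf_mem hy hb)

theorem hf_powerset {x : ZFSet.{u}} (hx : rk x ∈ omega) : rk (powerset x) ∈ omega := by
  have := omega_succ hx
  rwa [rk, ← Ordinal.toZFSet_add_one, ← Order.succ_eq_add_one, ← rank_powerset] at this

section
variable {P E : ZFSet.{u}} (hP : IsForcing P E)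
include hP

theorem dense_finite {J : Set ZFSet.{u}} (hJ : J.Finite) {Q : ZFSet.{u} → ZFSet.{u} → Prop}
    (mono : ∀ j ∈ J, ∀ v v', Q j v → pair v' v ∈ E → Q j v')
    (H : ∀ j ∈ J, ∀ v ∈ P, ∃ v', pair v' v ∈ E ∧ Q j v') :
    ∀ v ∈ P, ∃ v', pair v' v ∈ E ∧ ∀ j ∈ J, Q j v' := by
  induction J, hJ using Set.Finite.induction_on with
  | empty => exact fun v hv => ⟨v, hP.refl v hv, fun _ h => h.elim⟩
  | @insert a s _ _ ih =>
    intro v hv
    obtain ⟨v1, h1, h2⟩ := ih (fun j hj => mono j (Set.mem_insert_of_mem _ hj))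
      (fun j hj => H j (Set.mem_insert_of_mem _ hj)) v hv
    obtain ⟨v2, h3, h4⟩ := H a (Set.mem_insert _ _) v1 (hP.left h1)
    refine ⟨v2, hP.trans _ _ _ h3 h1, ?_⟩
    rintro j (rfl | hj)
    exacts [h4, mono j (Set.mem_insert_of_mem _ hj) _ _ (h2 j hj) h3]

theorem dense_dec (τ : ZFSet.{u}) {m : ZFSet.{u}} (hm : m ∈ omega) :
    ∀ v ∈ P, ∃ v', pair v' v ∈ E ∧ Dec E v' τ m := by
  refine dense_finite hP (finite_of_mem_omega hm) (Q := fun n v => DT E v τ n ∨ DF E v τ n)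
    (fun n _ v v' h hv => h.imp (·.mono hP.trans hv) (·.mono hP.trans hv)) fun n _ v hv => ?_
  by_cases h : DF E v τ n
  · exact ⟨v, hP.refl v hv, Or.inr h⟩
  · simp only [DF] at h
    push Not at h
    obtain ⟨v', h1, h2⟩ := h
    exact ⟨v', h1, Or.inl h2⟩

theorem exists_many (ζ : ZFSet.{u}) (K : ℕ) : ∀ v ∈ P, ∃ v', pair v' v ∈ E ∧
    ∃ T : Set ZFSet.{u}, T.Finite ∧ (∀ n ∈ T, n ∈ omega ∧ DT E v' ζ n) ∧
      (Junk E v' ζ ∨ (K : ℕ∞) ≤ T.encard) := by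
  intro v hv
  induction K with
  | zero => exact ⟨v, hP.refl v hv, ∅, Set.finite_empty, fun _ h => h.elim, Or.inr (by simp)⟩
  | succ K ih =>
    obtain ⟨v1, h1, T, h2, h3, h4⟩ := ih
    by_cases hj : Junk E v1 ζ
    · exact ⟨v1, h1, T, h2, h3, Or.inl hj⟩
    obtain ⟨m, hm⟩ := exists_nat_bound h2 fun n hn => (h3 n hn).1
    have h5 := h4.resolve_left hj
    simp only [Junk, DF] at hj
    push Not at hj
    obtain ⟨n, h6, h7, v2, h8, h9⟩ := hj _ (nat_mem_omega m)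
    refine ⟨v2, hP.trans _ _ _ h8 h1, insert n T, h2.insert n, ?_, Or.inr ?_⟩
    · rintro k (rfl | hk)
      exacts [⟨h6, h9⟩, ⟨(h3 k hk).1, (h3 k hk).2.mono hP.trans h8⟩]
    · rw [Set.encard_insert_of_notMem fun h => h7 (hm n h)]
      push_cast
      gcongr

theorem locExt {v ζ s F l ξ m1 : ZFSet.{u}} (hv : v ∈ P) (hs : rk s ∈ omega) (hm : fst s ∈ omega)
    (hF : Fn F) (hF' : (F : Set ZFSet.{u}).Finite) (hF'' : ∀ i τ, pair i τ ∈ F → i ∈ cap s)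
    (hZ : Zreq E v ζ s) (hl : rk l ∈ omega) (hm1 : m1 ∈ omega) :
    ∃ v', pair v' v ∈ E ∧ ∃ s', rk s' ∈ omega ∧ cap s' = l ∧ SExt s' s ∧ Zreq E v' ζ s' ∧
      (∀ i τ, pair i τ ∈ F → Pred E v' τ (fst s) s') ∧
      ∃ k ∈ omega, m1 ⊆ k ∧ fst s' = insert k k ∧ Dec E v' ξ (insert k k) ∧
        ∀ n, pair k (pair {∅} n) ∈ th s' ↔ n ∈ tr E v' ξ (insert k k) := by
  have hE : Tr E := hP.trans
  have hc := hf_fst (hf_snd hs)
  have f1 : ((aset s ∪ (cap s).prod (cap s) : ZFSet.{u}) : Set ZFSet.{u}).Finite :=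
    finite_of_hf (hf_union (hf_of_subset (hf_fst hs) sep_subset) (hf_prod hc hc))
  have f2 : (l.prod l : Set ZFSet.{u}).Finite := finite_of_hf (hf_prod hl hl)
  obtain ⟨v1, h1, T, h2, h3, h4⟩ := exists_many hP ζ
    (((aset s ∪ (cap s).prod (cap s) : ZFSet.{u}) : Set ZFSet.{u}).ncard +
      (l.prod l : Set ZFSet.{u}).ncard) v hv
  obtain ⟨k0, hk0⟩ := exists_nat_bound ((h2.insert m1).insert (fst s)) (by
    rintro x (rfl | rfl | hx)
    exacts [hm, hm1, (h3 x hx).1])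
  set k := nat.{u} k0 with hk
  have hko : k.IsOrdinal := isOrdinal_nat k0
  have hkω : k ∈ omega := nat_mem_omega k0
  have hm' : insert k k ∈ omega := omega_succ hkω
  have hm'o := isOrdinal_succ hko
  have hmk : fst s ∈ k := hk0 _ (Set.mem_insert _ _)
  have hmm : fst s ⊆ insert k k := fun z hz => mem_insert_of_mem _ (hko.mem_trans hz hmk)
  obtain ⟨v2, h5, h6⟩ := dense_finite hP (((hF'.image snd).insert ξ).insert ζ)
    (Q := fun τ v => Dec E v τ (insert k k)) (fun _ _ _ _ h hv => h.mono hE hv)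
    (fun τ _ => dense_dec hP τ hm') v1 (hP.left h1)
  have h7 := hP.trans _ _ _ h5 h1
  have d1 : Dec E v2 ζ (insert k k) := h6 _ (Set.mem_insert _ _)
  have d2 : Dec E v2 ξ (insert k k) := h6 _ (Set.mem_insert_of_mem _ (Set.mem_insert _ _))
  have d3 : ∀ i τ, pair i τ ∈ F → Dec E v2 τ (insert k k) := fun i τ h =>
    h6 _ (Set.mem_insert_of_mem _ (Set.mem_insert_of_mem _ ⟨_, h, snd_pair _ _⟩))
  let Sp : ZFSet.{u} → Prop := fun d => ∃ i τ j τ', pair i τ ∈ F ∧ pair j τ' ∈ F ∧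
    tr E v2 τ d = tr E v2 τ' d ∧ DT E v2 τ d ∧ ¬ DT E v2 τ' d
  let T' : ZFSet.{u} → ZFSet.{u} → Prop := fun d x => (d ∈ fst s ∧ pair d x ∈ th s) ∨
    (d ∉ fst s ∧ d ∈ (insert k k : ZFSet.{u}) ∧ ((x = ∅ ∧ Sp d) ∨
      (∃ i τ, pair i τ ∈ F ∧ DT E v2 τ d ∧ x = pair ∅ (tr E v2 τ d)) ∨
      (d = k ∧ ∃ n ∈ tr E v2 ξ (insert k k), x = pair {∅} n)))
  let Θ := (th s ∪ (insert k k : ZFSet.{u}).prod (insert ∅ ((insert ∅ {{∅}} : ZFSet.{u}).prod
    (powerset (insert k k))))).sep fun z => ∃ d x, z = pair d x ∧ T' d x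
  have hΘ : ∀ d x, pair d x ∈ Θ ↔ T' d x := by
    intro d x
    rw [mem_sep]
    constructor
    · rintro ⟨-, d', x', h, h'⟩
      obtain ⟨rfl, rfl⟩ := pair_inj.1 h
      exact h'
    · refine fun h => ⟨mem_union.2 ?_, d, x, rfl, h⟩
      rcases h with h | ⟨-, h8, h⟩
      · exact Or.inl h.2
      refine Or.inr (pair_mem_prod.2 ⟨h8, ?_⟩)
      rcases h with ⟨rfl, -⟩ | ⟨i, τ, -, -, rfl⟩ | ⟨-, n, hn, rfl⟩
      · exact mem_insert _ _
      · exact mem_insert_of_mem _ (pair_mem_prod.2 ⟨mem_insert _ _,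
          mem_powerset.2 (sep_subset.trans (hm'o.subset_of_mem h8))⟩)
      · exact mem_insert_of_mem _ (pair_mem_prod.2 ⟨mem_insert_of_mem _ (mem_singleton.2 rfl),
          mem_powerset.2 (hm'o.subset_of_mem (sep_subset hn))⟩)
  have hΘf : rk Θ ∈ omega := hf_of_subset (hf_union (hf_snd (hf_snd hs))
    (hf_prod (hf_of_mem_omega hm') (hf_insert hf_empty (hf_prod
      (hf_insert hf_empty (hf_singleton (hf_singleton hf_empty)))
      (hf_powerset (hf_of_mem_omega hm')))))) sep_subset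
  have ha : ∀ d, d ∈ aset (pair (insert k k) (pair l Θ)) ↔
      d ∈ aset s ∨ (d ∉ fst s ∧ d ∈ (insert k k : ZFSet.{u}) ∧ Sp d) := by
    intro d
    simp only [aset, mem_sep, fst_pair, th, snd_pair, hΘ]
    constructor
    · rintro ⟨h8, h | ⟨h9, -, h | ⟨i, τ, -, -, h⟩ | ⟨-, n, -, h⟩⟩⟩
      exacts [Or.inl h, Or.inr ⟨h9, h8, h.2⟩, (pair_ne_empty _ _ h.symm).elim,
        (pair_ne_empty _ _ h.symm).elim]
    · rintro (h | ⟨h8, h9, h10⟩)
      exacts [⟨hmm h.1, Or.inl h⟩, ⟨h9, Or.inr ⟨h8, h9, Or.inl ⟨rfl, h10⟩⟩⟩]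
  have hb : (aset (pair (insert k k) (pair l Θ)) : Set ZFSet.{u}).encard ≤
      ((aset s ∪ (cap s).prod (cap s) : ZFSet.{u}) : Set ZFSet.{u}).encard := by
    have h8 : {d | d ∈ (insert k k : ZFSet.{u}) ∧ Sp d}.encard ≤
        ((cap s).prod (cap s) : Set ZFSet.{u}).encard := by
      have h9 : ∀ d, Sp d → ∃ i τ j τ', pair i τ ∈ F ∧ pair j τ' ∈ F ∧
        tr E v2 τ d = tr E v2 τ' d ∧ DT E v2 τ d ∧ ¬ DT E v2 τ' d := fun _ h => h
      choose! fi ft fj ft' g1 g2 g3 g4 g5 using h9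
      refine Set.encard_le_encard_of_injOn (f := fun d => pair (fi d) (fj d))
        (fun d hd => pair_mem_prod.2 ⟨hF'' _ _ (g1 d hd.2), hF'' _ _ (g2 d hd.2)⟩) ?_
      have h10 : ∀ d d', Sp d → Sp d' → fi d = fi d' → fj d = fj d' → d ∉ d' := by
        intro d d' hd hd' e1 e2 h
        have e3 : ft d = ft d' := hF _ _ (g1 d hd) _ (e1 ▸ g1 d' hd')
        have e4 : ft' d = ft' d' := hF _ _ (g2 d hd) _ (e2 ▸ g2 d' hd')
        have e5 : d ∈ tr E v2 (ft d') d' := mem_sep.2 ⟨h, e3 ▸ g4 d hd⟩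
        rw [g3 d' hd'] at e5
        exact g5 d hd (e4 ▸ (mem_sep.1 e5).2)
      intro d hd d' hd' h
      obtain ⟨e1, e2⟩ := pair_inj.1 h
      rcases (hm'o.mem hd.1).mem_trichotomous (hm'o.mem hd'.1) with h' | h' | h'
      exacts [(h10 d d' hd.2 hd'.2 e1 e2 h').elim, h', (h10 d' d hd'.2 hd.2 e1.symm e2.symm h').elim]
    rw [coe_union, Set.encard_union_eq (Set.disjoint_left.2 fun z h9 h10 => by
      obtain ⟨a, -, b, -, rfl⟩ := mem_prod.1 h10
      exact not_isOrdinal_pair a b ((isOrdinal_omega'.mem hm).mem (sep_subset h9)))]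
    refine le_trans (Set.encard_le_encard (t := aset s ∪ {d | d ∈ (insert k k : ZFSet.{u}) ∧ Sp d})
      fun d hd => ((ha d).1 hd).imp_right fun h => h.2) ((Set.encard_union_le _ _).trans ?_)
    gcongr
  have hf : (aset (pair (insert k k) (pair l Θ)) : Set ZFSet.{u}).Finite :=
    (finite_of_mem_omega hm').subset fun d hd => by
      have := sep_subset hd
      rwa [fst_pair] at this
  refine ⟨v2, h7, pair (insert k k) (pair l Θ), hf_pair (hf_of_mem_omega hm') (hf_pair hl hΘf),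
    by simp [cap], ⟨by simpa using hmm, fun d hd => ?_⟩, ?_, fun i τ hτ d => ?_,
    k, hkω, hko.subset_of_mem (hk0 _ (Set.mem_insert_of_mem _ (Set.mem_insert _ _))),
    fst_pair _ _, d2, fun n => ?_⟩
  · simp only [th, snd_pair, hΘ]
    exact ⟨fun x h => h.elim (·.2) fun h => (h.1 hd).elim, fun x h => Or.inl ⟨hd, h⟩⟩
  · rcases h4 with h4 | h4
    · exact Or.inl (h4.mono hE h5)
    rcases hZ with hZ | ⟨z1, z2, z3⟩
    · exact Or.inl (hZ.mono hE h7)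
    refine Or.inr ?_
    simp only [fst_pair, cap, snd_pair]
    refine ⟨d1, ⟨coe_union _ _ ▸ hf.union f2, ?_⟩, fun j hj => ?_⟩
    · rw [coe_union]
      refine (Set.encard_union_le _ _).trans (le_trans ?_ (h4.trans (Set.encard_le_encard
        fun n hn => mem_sep.2 ⟨mem_insert_of_mem _ (hk0 n (Set.mem_insert_of_mem _
          (Set.mem_insert_of_mem _ hn))), (h3 n hn).2.mono hE h5⟩)))
      rw [Nat.cast_add, f1.cast_ncard_eq, f2.cast_ncard_eq]
      gcongr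
    · refine ⟨coe_inter _ _ ▸ hf.inter_of_left _, ?_⟩
      by_cases hjm : j ∈ fst s
      · have hjs := (isOrdinal_omega'.mem hm).subset_of_mem hjm
        rw [(z1.subset hjs).tr_eq hE h7]
        refine le_trans (Set.encard_le_encard fun d hd => ?_) (z3 j hjm).2
        obtain ⟨h8, h9⟩ := mem_inter.1 hd
        exact mem_inter.2 ⟨((ha d).1 h8).resolve_right fun h => h.1 (hjs h9), h9⟩
      · refine le_trans (Set.encard_le_encard fun d hd => (mem_inter.1 hd).1)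
          (hb.trans (z2.2.trans ?_))
        rw [← z1.tr_eq hE h7]
        exact Set.encard_le_encard fun n hn => mem_sep.2 ⟨((hm'o.mem hj).notMem_iff_subset
          (isOrdinal_omega'.mem hm)).1 hjm (mem_sep.1 hn).1, (mem_sep.1 hn).2⟩
  · simp only [fst_pair, th, snd_pair, hΘ]
    intro h8 h9 h10
    have h11 : ¬ Sp d := fun h => h10 (Or.inr ⟨h9, h8, Or.inl ⟨rfl, h⟩⟩)
    refine ⟨(d3 i τ hτ).subset fun z hz => (mem_insert_iff.1 hz).elim (fun h => h ▸ h8)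
      fun h => hm'o.mem_trans h h8, fun h => Or.inr ⟨h9, h8, Or.inr (Or.inl ⟨i, τ, hτ, h, rfl⟩)⟩, ?_⟩
    rintro (h | ⟨-, -, h | ⟨j, τ', h12, h13, h⟩ | ⟨-, n, -, h⟩⟩)
    · exact (h9 h.1).elim
    · exact (pair_ne_empty _ _ h.1).elim
    · by_contra h14
      exact h11 ⟨j, τ', i, τ, h12, hτ, (pair_inj.1 h).2.symm, h13, h14⟩
    · exact (empty_ne_one (pair_inj.1 h).1).elim
  · simp only [th, snd_pair, hΘ]
    have h8 : k ∉ fst s := mem_asymm hmk
    constructor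
    · rintro (h | ⟨-, -, h | ⟨j, τ', -, -, h⟩ | ⟨-, n', h9, h⟩⟩)
      · exact (h8 h.1).elim
      · exact (pair_ne_empty _ _ h.1).elim
      · exact (empty_ne_one (pair_inj.1 h).1.symm).elim
      · rwa [(pair_inj.1 h).2]
    · exact fun h => Or.inr ⟨h8, mem_insert _ _, Or.inr (Or.inr ⟨rfl, n, h, rfl⟩)⟩

end

section
variable {W : Set ZFSet.{u}} {κ V β γ δ p q r c w v : ZFSet.{u}} [ZFm W] (G : Ground W κ V)
include G

theorem Ground.zreq (ho : β.IsOrdinal) (hβ : β ⊆ κ) (hp : p ∈ PP V β) (h : pair c w ∈ p)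
    (hv : pair v (res p (fst c)) ∈ LE V (fst c)) : Zreq (LE V (fst c)) v (snd c) (fst w) :=
  have h1 := lev_mem (PP.p0 hp) h
  (PP.valid hp c w h).mono (G.tr (ho.mem h1) ((ho.subset_of_mem h1).trans hβ))
    (P0.okw (PP.p0 hp) h).top hv

theorem Ground.eext (ho : β.IsOrdinal) (hβ : β ⊆ κ) (hq : q ∈ PP V β) (h : pair c w ∈ q)
    (hv : pair v (res q (fst c)) ∈ LE V (fst c)) (he : Ext (LE V) q p) {w0 : ZFSet.{u}}
    (h0 : pair c w0 ∈ p) : EExt (LE V (fst c)) v w w0 := by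
  have h1 := lev_mem (PP.p0 hq) h
  obtain ⟨w', h2, h3⟩ := he c w0 h0
  obtain rfl := P0.fn (PP.p0 hq) _ _ h _ h2
  exact h3.mono (G.tr (ho.mem h1) ((ho.subset_of_mem h1).trans hβ)) hv

omit G in
theorem finite_dom (hp : p ∈ P0 V β) : {c | ∃ w, pair c w ∈ p}.Finite :=
  ((P0.finite hp).image fst).subset fun _ ⟨_, h⟩ => ⟨_, h, fst_pair _ _⟩

/-- Gluing: below `γ` a common extension `v` is given. -/
theorem Ground.glue (ho : β.IsOrdinal) (hβ : β ⊆ κ) (hγo : γ.IsOrdinal) (hγ : γ ⊆ β)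
    (hv : v ∈ PP V γ) {S D : Set ZFSet.{u}}
    (hS : ∀ p ∈ S, p ∈ PP V β ∧ pair v (res p γ) ∈ LE V γ) (hD : D.Finite)
    (hDS : ∀ p ∈ S, ∀ c w, pair c w ∈ p → fst c ∉ γ → c ∈ D) (hD' : ∀ c ∈ D, fst c ∉ γ)
    (Q : ZFSet.{u} → ZFSet.{u} → Prop)
    (H : ∀ c ∈ D, ∃ w, Q c w ∧ pair c w ∈ W ∧ OKE β (pair c w) ∧
      ∀ x, pair x v ∈ LE V (fst c) → (∀ p ∈ S, pair x (res p (fst c)) ∈ LE V (fst c)) →
        Zreq (LE V (fst c)) x (snd c) (fst w) ∧
          ∀ p ∈ S, ∀ w0, pair c w0 ∈ p → EExt (LE V (fst c)) x w w0) :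
    ∃ y ∈ PP V β, pair y v ∈ LE V β ∧ (∀ p ∈ S, pair y p ∈ LE V β) ∧
      ∀ c ∈ D, ∃ w, pair c w ∈ y ∧ Q c w := by
  obtain ⟨y, h1, h2, h3⟩ := G.amalg ho hβ (S := insert v S) (D := {c | ∃ w, pair c w ∈ v} ∪ D)
    (by
      rintro p (rfl | hp)
      exacts [PP_mono hγ hv, (hS p hp).1])
    ((finite_dom (PP.p0 hv)).union hD)
    (by
      rintro p (rfl | hp) c w h
      · exact Or.inl ⟨w, h⟩
      · by_cases hc : fst c ∈ γ
        · obtain ⟨w', h', -⟩ := LE.ext (hS p hp).2 c w (mem_res.2 ⟨h, hc⟩)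
          exact Or.inl ⟨w', h'⟩
        · exact Or.inr (hDS p hp c w h hc))
    (fun c w => c ∈ D → Q c w)
    (by
      rintro c (⟨w, h⟩ | hc)
      · have h4 := lev_mem (PP.p0 hv) h
        refine ⟨w, fun hc => (hD' c hc h4).elim, mem_of_mem (G.p0_mem (PP.p0 hv)) h,
          (mem_sep.1 (P0_mono hγ (PP.p0 hv))).2.2.2 _ h, fun x hx => ?_⟩
        have h5 := hx v (Set.mem_insert _ _)
        refine ⟨G.zreq hγo (hγ.trans hβ) hv h h5, ?_⟩
        rintro p (rfl | hp) w0 h0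
        · exact G.eext hγo (hγ.trans hβ) hv h h5 (Ext.of_subset subset_rfl) h0
        · exact G.eext hγo (hγ.trans hβ) hv h h5 (LE.ext (hS p hp).2) (mem_res.2 ⟨h0, h4⟩)
      · obtain ⟨w, h4, h5, h6, h7⟩ := H c hc
        refine ⟨w, fun _ => h4, h5, h6, fun x hx => ?_⟩
        have h8 := hx v (Set.mem_insert _ _)
        rw [res_eq (P0_mono (((ho.mem h6.pair.1.fst_mem).notMem_iff_subset hγo).1 (hD' c hc))
          (PP.p0 hv))] at h8
        obtain ⟨h9, h10⟩ := h7 x h8 fun p hp => hx p (Set.mem_insert_of_mem _ hp)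
        refine ⟨h9, ?_⟩
        rintro p (rfl | hp) w0 h0
        · exact (hD' c hc (lev_mem (PP.p0 hv) h0)).elim
        · exact h10 p hp w0 h0)
  exact ⟨y, h1, h2 v (Set.mem_insert _ _), fun p hp => h2 p (Set.mem_insert_of_mem _ hp),
    fun c hc => (h3 c (Or.inr hc)).imp fun w h => ⟨h.1, h.2 hc⟩⟩

/-- Strengthening the lower part of a condition. -/
theorem Ground.lower (ho : β.IsOrdinal) (hβ : β ⊆ κ) (hγo : γ.IsOrdinal) (hγ : γ ⊆ β)
    (hp : p ∈ PP V β) (hv : pair v (res p γ) ∈ LE V γ) :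
    ∃ y, pair y v ∈ LE V β ∧ pair y p ∈ LE V β := by
  obtain ⟨y, -, h1, h2, -⟩ := G.glue ho hβ hγo hγ (LE.left hv) (S := {p})
    (D := {c | (∃ w, pair c w ∈ p) ∧ fst c ∉ γ}) (by rintro _ rfl; exact ⟨hp, hv⟩)
    ((finite_dom (PP.p0 hp)).subset fun _ h => h.1) (by rintro _ rfl c w h h'; exact ⟨⟨w, h⟩, h'⟩)
    (fun _ h => h.2) (fun _ _ => True) (by
      rintro c ⟨⟨w, h⟩, -⟩
      refine ⟨w, trivial, mem_of_mem (G.p0_mem (PP.p0 hp)) h, (mem_sep.1 (PP.p0 hp)).2.2.2 _ h,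
        fun x _ hx => ⟨G.zreq ho hβ hp h (hx p rfl), ?_⟩⟩
      rintro _ rfl w0 h0
      exact G.eext ho hβ hp h (hx _ rfl) (Ext.of_subset subset_rfl) h0)
  exact ⟨y, h1, h2 p rfl⟩

/-- The restriction of a generic filter is generic. -/
theorem Ground.generic_res {H : ZFSet.{u}} (hγ : γ ∈ κ) (hH : IsGeneric W (PP V κ) (LE V κ) H) :
    IsGeneric W (PP V γ) (LE V γ) (H ∩ PP V γ) := by
  have ho := G.ord.mem hγ
  have hs := G.ord.subset_of_mem hγ
  refine ⟨fun _ h => (mem_inter.1 h).2, fun p q hq h => mem_inter.2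
    ⟨hH.upward p q (mem_inter.1 hq).1 (LE_mono hs h), LE.right h⟩, fun p hp q hq => ?_,
    fun D hD h1 h2 => ?_⟩
  · obtain ⟨r, hr, h1, h2⟩ := hH.directed p (mem_inter.1 hp).1 q (mem_inter.1 hq).1
    have h3 := G.res_le ho hs h1
    have h4 := G.res_le ho hs h2
    rw [res_eq (PP.p0 (mem_inter.1 hp).2)] at h3
    rw [res_eq (PP.p0 (mem_inter.1 hq).2)] at h4
    exact ⟨_, mem_inter.2 ⟨hH.upward _ _ hr (G.le_res ho subset_rfl hs (LE.left h1)), LE.left h3⟩,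
      h3, h4⟩
  · have := InM.mk hD
    have := InM.mk (G.LE_mem G.mem)
    obtain ⟨q, hq, h3⟩ := hH.meets _ (sep_mem (fun q => ∃ d ∈ D, pair q d ∈ LE V κ) (G.PP_mem G.mem))
      sep_subset fun p hp => by
        obtain ⟨d, hd, h3⟩ := h2 _ (G.res_PP ho hs hp)
        obtain ⟨y, h4, h5⟩ := G.lower G.ord subset_rfl ho hs hp h3
        exact ⟨y, mem_sep.2 ⟨LE.left h4, d, hd, h4⟩, h5⟩
    obtain ⟨d, hd, h4⟩ := (mem_sep.1 hq).2
    exact ⟨d, hd, mem_inter.2 ⟨hH.upward _ _ h3 h4, h1 hd⟩⟩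

end

end Pool.Agent.P.MP_0d94a4_lc
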