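import Mathlib.Data.Set.Finite.Lattice
import Pool.Agent.P.MP_0d94a4_lc.Local

/-!
Limits of conditions along a filter base whose members share a finite root.
-/

universe u

set_option synthInstance.maxSize 16384

namespace Pool.Agent.P.MP_0d94a4_lc

open ZFSet Pool.Agent.Lib.Forcing

def Same (E v τ τ' m : ZFSet.{u}) : Prop :=
  ∀ n ∈ m, (DT E v τ n ∧ DT E v τ' n) ∨ (DF E v τ n ∧ DF E v τ' n)

instance {M : Set ZFSet.{u}} [ZFm M] {s t w v x : Env.{u} → ZFSet.{u}} [Tm M s] [Tm M t] [Tm M w]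
    [Tm M v] [Tm M x] : Df M (fun e => Same (s e) (t e) (w e) (v e) (x e)) :=
  Df.subst5 (R := Same) (by unfold Same; infer_instance) s t w v x

theorem Same.mono {E v v' τ τ' m : ZFSet.{u}} (hE : Tr E) (h : Same E v τ τ' m)
    (hv : pair v' v ∈ E) : Same E v' τ τ' m := fun n hn =>
  (h n hn).imp (fun h => ⟨h.1.mono hE hv, h.2.mono hE hv⟩) fun h => ⟨h.1.mono hE hv, h.2.mono hE hv⟩

theorem Pred.same {E v τ τ' m k s : ZFSet.{u}} (hv : pair v v ∈ E) (ho : (fst s).IsOrdinal)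
    (hs : fst s ⊆ m) (h : Same E v τ τ' m) (h' : Pred E v τ' k s) : Pred E v τ k s := by
  have h0 : ∀ n ∈ m, (DT E v τ n ↔ DT E v τ' n) := fun n hn => by
    rcases h n hn with h | h
    exacts [iff_of_true h.1 h.2, iff_of_false (h.1 v hv) (h.2 v hv)]
  intro d h1 h2 h3
  have h4 : ∀ n ∈ (insert d d : ZFSet.{u}), n ∈ m := fun n hn =>
    hs ((mem_insert_iff.1 hn).elim (fun h => h ▸ h1) fun h => ho.mem_trans h h1)
  refine ⟨fun n hn => (h n (h4 n hn)).imp (·.1) (·.1), ?_⟩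
  have h5 : tr E v τ d = tr E v τ' d := by
    ext n
    simp only [tr, mem_sep]
    exact and_congr_right fun hn => h0 n (h4 n (mem_insert_of_mem _ hn))
  rw [h5, h0 d (hs h1)]
  exact (h' d h1 h2 h3).2

section
variable {P E H : ZFSet.{u}} (hP : IsForcing P E)
include hP

theorem dense_below {J : Set ZFSet.{u}} (hJ : J.Finite) {Q : ZFSet.{u} → ZFSet.{u} → Prop}
    {v0 : ZFSet.{u}} (h0 : v0 ∈ P) (mono : ∀ j ∈ J, ∀ v v', Q j v → pair v' v ∈ E → Q j v')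
    (H : ∀ j ∈ J, ∀ v, pair v v0 ∈ E → ∃ v', pair v' v ∈ E ∧ Q j v') :
    ∃ v', pair v' v0 ∈ E ∧ ∀ j ∈ J, Q j v' := by
  induction J, hJ using Set.Finite.induction_on with
  | empty => exact ⟨v0, hP.refl v0 h0, fun _ h => h.elim⟩
  | @insert a s _ _ ih =>
    obtain ⟨v1, h1, h2⟩ := ih (fun j hj => mono j (Set.mem_insert_of_mem _ hj))
      (fun j hj => H j (Set.mem_insert_of_mem _ hj))
    obtain ⟨v2, h3, h4⟩ := H a (Set.mem_insert _ _) v1 h1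
    refine ⟨v2, hP.trans _ _ _ h3 h1, ?_⟩
    rintro j (rfl | hj)
    exacts [h4, mono j (Set.mem_insert_of_mem _ hj) _ _ (h2 j hj) h3]

variable {W : Set ZFSet.{u}} (hH : IsGeneric W P E H)
include hH

omit hP in
theorem directed_finite {J : Set ZFSet.{u}} (hJ : J.Finite) {Q : ZFSet.{u} → ZFSet.{u} → Prop}
    {v0 : ZFSet.{u}} (h0 : v0 ∈ H) (hP : IsForcing P E)
    (mono : ∀ j ∈ J, ∀ v v', Q j v → pair v' v ∈ E → Q j v') (H' : ∀ j ∈ J, ∃ v ∈ H, Q j v) :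
    ∃ v ∈ H, pair v v0 ∈ E ∧ ∀ j ∈ J, Q j v := by
  induction J, hJ using Set.Finite.induction_on with
  | empty => exact ⟨v0, h0, hP.refl v0 (hH.subset h0), fun _ h => h.elim⟩
  | @insert a s _ _ ih =>
    obtain ⟨v1, h1, h2, h3⟩ := ih (fun j hj => mono j (Set.mem_insert_of_mem _ hj))
      (fun j hj => H' j (Set.mem_insert_of_mem _ hj))
    obtain ⟨v2, h4, h5⟩ := H' a (Set.mem_insert _ _)
    obtain ⟨v, h6, h7, h8⟩ := hH.directed v1 h1 v2 h4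
    refine ⟨v, h6, hP.trans _ _ _ h7 h2, ?_⟩
    rintro j (rfl | hj)
    exacts [mono _ (Set.mem_insert _ _) _ _ h5 h8,
      mono j (Set.mem_insert_of_mem _ hj) _ _ (h3 j hj) h7]

omit hP in
theorem DT.val {v τ n : ZFSet.{u}} (hv : v ∈ H) (h : DT E v τ n) : ∃ r ∈ H, pair n r ∈ τ :=
  h.imp fun r h => ⟨hH.upward r v hv h.2, h.1⟩

omit hP in
theorem DF.val {v τ n : ZFSet.{u}} (hv : v ∈ H) (h : DF E v τ n) : ¬ ∃ r ∈ H, pair n r ∈ τ := by
  rintro ⟨r, hr, h1⟩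
  obtain ⟨x, -, h2, h3⟩ := hH.directed v hv r hr
  exact h x h2 ⟨r, h1, h3⟩

omit hP in
theorem Dec.val {v τ m n : ZFSet.{u}} (hv : v ∈ H) (h : Dec E v τ m) (hn : n ∈ m) :
    DT E v τ n ↔ ∃ r ∈ H, pair n r ∈ τ :=
  ⟨DT.val hH hv, fun h' => (h n hn).resolve_right fun h'' => DF.val hH hv h'' h'⟩

theorem exists_DF [ZFm W] (hPW : P ∈ W) (hE : E ∈ W) {τ n : ZFSet.{u}} (hτ : τ ∈ W) (hn : n ∈ W)
    (h : ¬ ∃ r ∈ H, pair n r ∈ τ) : ∃ v ∈ H, DF E v τ n := by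
  have := InM.mk hE
  have := InM.mk hτ
  have := InM.mk hn
  obtain ⟨p0, hp0⟩ := hH.nonempty hP hPW
  obtain ⟨v, hv, h1⟩ := hH.below hP hPW hE (fun v => DT E v τ n ∨ DF E v τ n) hp0 fun q hq => by
    by_cases h : DF E q τ n
    · exact ⟨q, hP.rfl' hq, Or.inr h⟩
    · simp only [DF] at h
      push Not at h
      obtain ⟨v', h1, h2⟩ := h
      exact ⟨v', h1, Or.inl h2⟩
  exact ⟨v, hv, h1.resolve_left fun h' => h (DT.val hH hv h')⟩

end

theorem rk_name {V γ τ : ZFSet.{u}} (ho : γ.IsOrdinal) (hl : Lim γ)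
    (h : τ ⊆ omega.prod (PP V γ)) : rk τ ⊆ γ := by
  refine (rk_subset_iff' ho).2 fun z hz => ?_
  obtain ⟨n, hn, r, hr, rfl⟩ := mem_prod.1 (h hz)
  exact rk_pair_mem ho hl.2 (ho.mem_trans (hf_of_mem_omega hn) hl.1) (rk_mem_of_P0 ho hl (PP.p0 hr))

variable {W : Set ZFSet.{u}} {κ V : ZFSet.{u}} [ZFm W] (G : Ground W κ V) {ℬ R : ZFSet.{u}}
  (hℬ : ℬ ∈ W) (hb : Base ℬ) (hP : ∀ B ∈ ℬ, ∀ x ∈ B, fst x ∈ PP V κ)
  (hR : (R : Set ZFSet.{u}).Finite)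
  (hroot : ∀ B ∈ ℬ, ∀ x ∈ B, ∀ c s, pair c s ∈ R → ∃ F, pair c (pair s F) ∈ fst x)
  (hout : ∀ c, (∀ s, pair c s ∉ R) → ∃ B ∈ ℬ, ∀ x ∈ B, ∀ w, pair c w ∉ fst x)

/-- `q` is a limit of the restrictions to `β`. -/
def IsLimit (V ℬ β q : ZFSet.{u}) : Prop :=
  q ∈ PP V β ∧ ∀ r, pair r q ∈ LE V β → ∀ B ∈ ℬ, ∃ x ∈ B, ∃ y,
    pair y r ∈ LE V β ∧ pair y (res (fst x) β) ∈ LE V β

def Phi (E γ Y m B v : ZFSet.{u}) : Prop :=
  ∃ x ∈ B, pair v (res (fst x) γ) ∈ E ∧ ∀ c w', pair c w' ∈ Y → ∀ w, pair c w ∈ fst x →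
    ∀ i τ, pair i τ ∈ snd w → ∃ τ', pair i τ' ∈ snd w' ∧ Same E v τ τ' m

include G hℬ hb hP hR hroot in
/-- Names for a cluster point of the side conditions at level `γ`. -/
theorem exists_names {γ q0 : ZFSet.{u}} (hγ : γ ∈ κ) (h : IsLimit V ℬ γ q0) :
    ∃ w1 ∈ PP V γ, ∃ Y, (∀ c s, pair c s ∈ R → fst c = γ → ∃ F, pair c (pair s F) ∈ Y) ∧
      (∀ c w, pair c w ∈ Y → fst c = γ ∧ pair c (fst w) ∈ R ∧ pair c w ∈ W ∧ OKc κ c ∧ OKw γ w ∧
        Zreq (LE V γ) w1 (snd c) (fst w)) ∧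
      ∀ r, pair r w1 ∈ LE V γ → ∀ m ∈ omega, ∀ B ∈ ℬ, ∃ v, pair v r ∈ LE V γ ∧
        Phi (LE V γ) γ Y m B v := by
  have ho := G.ord.mem hγ
  have hs := G.ord.subset_of_mem hγ
  have hγW := mem_of_mem G.mem hγ
  have hF := G.isForcing ho hs
  have hE : Tr (LE V γ) := hF.trans
  have hPW := G.PP_mem hγW
  have hEW := G.LE_mem hγW
  obtain ⟨H, hq0, hH⟩ := exists_generic G.ctble hF h.1
  have hN := (G.model.genericExt hF hPW hEW hH).zfm
  have hWN := subset_genericExt hF hPW hH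
  have hHN := generic_mem hF hPW hH
  have nice := fun Z a => exists_nice (Z := Z) (a := a) hF hPW hEW hH
  generalize genericExt W H = N at *
  have i1 := InM.mk hγW
  have i2 := InM.mk hEW
  have i3 := InM.mk hℬ
  have i4 := InM.mk (hWN hγW)
  have i5 := InM.mk (hWN hℬ)
  have i6 := InM.mk hHN
  have hpos : ∀ B ∈ ℬ, ∃ x ∈ B, res (fst x) γ ∈ H := by
    intro B hB
    have := InM.mk (mem_of_mem hℬ hB)
    obtain ⟨v, hv, x, hx, h1⟩ := hH.below hF hPW hEW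
      (fun v => ∃ x ∈ B, pair v (res (fst x) γ) ∈ LE V γ) hq0 fun r hr => by
        obtain ⟨x, hx, y, h1, h2⟩ := h.2 r hr B hB
        exact ⟨y, h1, x, hx, h2⟩
    exact ⟨x, hx, hH.upward _ _ hv h1⟩
  obtain ⟨B0, hB0⟩ := hb.ne
  obtain ⟨x0, hx0, hx0H⟩ := hpos B0 hB0
  have hx0P := hP B0 hB0 x0 hx0
  let Rγ := R.sep fun z => ∃ c s, z = pair c s ∧ fst c = γ
  have hRγ : (Rγ : Set ZFSet.{u}).Finite := hR.subset sep_subset
  have hRγ' : ∀ z ∈ Rγ, ∃ c s F, z = pair c s ∧ fst c = γ ∧ pair c s ∈ R ∧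
      pair c (pair s F) ∈ fst x0 := by
    intro z hz
    obtain ⟨h1, c, s, rfl, h2⟩ := mem_sep.1 hz
    obtain ⟨F, h3⟩ := hroot B0 hB0 x0 hx0 c s h1
    exact ⟨c, s, F, rfl, h2, h1, h3⟩
  let J : Set ZFSet.{u} := ⋃ z ∈ (Rγ : Set ZFSet.{u}), pair (fst z) '' (cap (snd z))
  have hJ : J.Finite := Set.Finite.biUnion hRγ fun z hz => by
    obtain ⟨c, s, F, rfl, -, -, h1⟩ := hRγ' z hz
    have := (P0.okw (PP.p0 hx0P) h1).hf
    rw [fst_pair] at this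
    rw [snd_pair]
    exact (finite_of_hf (hf_fst (hf_snd this))).image _
  have hJ' : ∀ c s i, pair c s ∈ R → fst c = γ → i ∈ cap s → pair c i ∈ J := by
    intro c s i h1 h2 h3
    simp only [J, Set.mem_iUnion]
    exact ⟨pair c s, mem_sep.2 ⟨h1, c, s, rfl, h2⟩, i, by rwa [snd_pair], by rw [fst_pair]⟩
  have hJW : ∀ j ∈ J, j ∈ W := by
    intro j hj
    simp only [J, Set.mem_iUnion] at hj
    obtain ⟨z, hz, i, hi, rfl⟩ := hj
    obtain ⟨c, s, F, rfl, -, -, h1⟩ := hRγ' z hz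
    have h2 := (P0.okw (PP.p0 hx0P) h1).hf
    simp only [fst_pair, snd_pair] at h2 hi ⊢
    exact pair_mem (fst_mem (G.p0_mem (PP.p0 hx0P)) h1)
      (hf_mem_model (hf_mem (hf_fst (hf_snd h2)) hi))
  let X : ZFSet.{u} → ZFSet.{u} := fun j => ((⋃₀ ℬ : ZFSet.{u}).prod omega).sep fun z =>
    ∃ x n, z = pair x n ∧ ∃ w, pair (fst j) w ∈ fst x ∧ ∃ τ, pair (snd j) τ ∈ snd w ∧
      ∃ r ∈ H, pair n r ∈ τ
  let A : ZFSet.{u} → ZFSet.{u} := fun B => B.sep fun x => res (fst x) γ ∈ H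
  obtain ⟨xs, hxs, Hxs⟩ := exists_clusters (M := N) hJ X (fun j hj => by
      have := InM.mk (hWN (hJW j hj))
      exact sep_mem _ (prod_mem (sUnion_mem (hWN hℬ)) omega_mem))
    (ℬ := img A ℬ) (by unfold A; infer_instance : Tm N (fun _ => img A ℬ)).mem'
    ⟨⟨_, mem_img.2 ⟨B0, hB0, rfl⟩⟩, by
      intro C hC
      obtain ⟨B, hB, rfl⟩ := mem_img.1 hC
      exact (hpos B hB).imp fun x hx => mem_sep.2 hx, by
      intro C hC C' hC'
      obtain ⟨B, hB, rfl⟩ := mem_img.1 hC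
      obtain ⟨B', hB', rfl⟩ := mem_img.1 hC'
      obtain ⟨D, hD, h1, h2⟩ := hb.dir B hB B' hB'
      exact ⟨_, mem_img.2 ⟨D, hD, rfl⟩, fun x hx => mem_sep.2 ⟨h1 (mem_sep.1 hx).1, (mem_sep.1 hx).2⟩,
        fun x hx => mem_sep.2 ⟨h2 (mem_sep.1 hx).1, (mem_sep.1 hx).2⟩⟩⟩
  choose! S hS1 hS2 hS3 hS4 using fun j hj => nice (xs j) omega (hxs j hj) omega_mem
  let Fs : ZFSet.{u} → ZFSet.{u} := fun z =>
    img (fun i => pair i (S (pair (fst z) i))) (cap (snd z))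
  let Y := img (fun z => pair (fst z) (pair (snd z) (Fs z))) Rγ
  have hFs : ∀ c s i τ, pair i τ ∈ Fs (pair c s) ↔ i ∈ cap s ∧ τ = S (pair c i) := by
    intro c s i τ
    simp only [Fs, mem_img, fst_pair, snd_pair, pair_inj]
    exact ⟨fun ⟨_, h1, h2, h3⟩ => h2 ▸ ⟨h1, h3.symm⟩, fun h => ⟨i, h.1, rfl, h.2.symm⟩⟩
  have hY : ∀ c w, pair c w ∈ Y → ∃ s F, w = pair s (Fs (pair c s)) ∧ fst c = γ ∧ pair c s ∈ R ∧
      pair c (pair s F) ∈ fst x0 := by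
    intro c w h1
    obtain ⟨z, hz, h2⟩ := mem_img.1 h1
    obtain ⟨c', s, F, rfl, h3, h4, h5⟩ := hRγ' z hz
    simp only [fst_pair, snd_pair, pair_inj] at h2
    obtain ⟨rfl, rfl⟩ := h2
    exact ⟨s, F, rfl, h3, h4, h5⟩
  have hY' : ∀ c w, pair c w ∈ Y → pair c w ∈ W ∧ OKc κ c ∧ OKw γ w := by
    intro c w h1
    obtain ⟨s, F, rfl, h3, h4, h5⟩ := hY c w h1
    have h6 := P0.okc (PP.p0 hx0P) h5
    have h7 := (P0.okw (PP.p0 hx0P) h5).hf
    have h8 := (P0.okw (PP.p0 hx0P) h5).top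
    rw [fst_pair] at h7 h8
    have h9 : Lim γ := by
      obtain ⟨δ, ζ, rfl, -, h9, -⟩ := h6
      rwa [← h3, fst_pair]
    refine ⟨pair_mem (fst_mem (G.p0_mem (PP.p0 hx0P)) h5) (pair_mem (hf_mem_model h7)
      (mem_of_finite ?_ fun y hy => ?_)), h6, s, _, rfl, h7, h8, fun i τ e1 τ' e2 =>
        ((hFs _ _ _ _).1 e1).2.trans ((hFs _ _ _ _).1 e2).2.symm, fun y hy => ?_⟩
    · simp only [Fs, coe_img, snd_pair]
      exact (finite_of_hf (hf_fst (hf_snd h7))).image _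
    · obtain ⟨i, hi, rfl⟩ := mem_img.1 hy
      simp only [fst_pair, snd_pair] at hi ⊢
      exact pair_mem (hf_mem_model (hf_mem (hf_fst (hf_snd h7)) hi)) (hS1 _ (hJ' c s i h4 h3 hi))
    · obtain ⟨i, hi, rfl⟩ := mem_img.1 hy
      simp only [fst_pair, snd_pair] at hi ⊢
      exact ⟨i, _, rfl, hi, rk_name ho h9 (hS2 _ (hJ' c s i h4 h3 hi))⟩
  have hYW : Y ∈ W := mem_of_finite (coe_img _ _ ▸ hRγ.image _) fun y hy => by
    obtain ⟨z, hz, rfl⟩ := mem_img.1 hy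
    exact (hY' _ _ hy).1
  have i7 := InM.mk hYW
  have hΦ : ∀ (s t w : Env.{u} → ZFSet.{u}) [Tm W s] [Tm W t] [Tm W w],
      Df W (fun e => Phi (LE V γ) γ Y (s e) (t e) (w e)) := fun s t w _ _ _ =>
    Df.subst3 (R := Phi (LE V γ) γ Y) (by unfold Phi; infer_instance) s t w
  have f1 : ∀ m ∈ omega, ∀ B ∈ ℬ, ∃ v ∈ H, Phi (LE V γ) γ Y m B v := by
    intro m hm B hB
    obtain ⟨x, hx, h1⟩ := Hxs m hm _ (mem_img.2 ⟨B, hB, rfl⟩)
    obtain ⟨hxB, hxH⟩ := mem_sep.1 hx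
    have hxP := PP.p0 (hP B hB x hxB)
    obtain ⟨v, hv, h2, h3⟩ := directed_finite hH (hJ.image2 pair (finite_of_mem_omega hm))
      (Q := fun k v => ∀ w, pair (fst (fst k)) w ∈ fst x → ∀ τ, pair (snd (fst k)) τ ∈ snd w →
        (DT (LE V γ) v τ (snd k) ∧ DT (LE V γ) v (S (fst k)) (snd k)) ∨
        (DF (LE V γ) v τ (snd k) ∧ DF (LE V γ) v (S (fst k)) (snd k))) hxH hF
      (fun k _ v v' h hv w e1 τ e2 => (h w e1 τ e2).imp
        (fun h => ⟨h.1.mono hE hv, h.2.mono hE hv⟩) fun h => ⟨h.1.mono hE hv, h.2.mono hE hv⟩) (by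
      rintro _ ⟨j, hj, n, hn, rfl⟩
      simp only [fst_pair, snd_pair]
      have hnω : n ∈ omega := isOrdinal_omega'.mem_trans hn hm
      by_cases hex : ∃ w, pair (fst j) w ∈ fst x ∧ ∃ τ, pair (snd j) τ ∈ snd w
      swap
      · exact ⟨_, hxH, fun w e1 τ e2 => (hex ⟨w, e1, τ, e2⟩).elim⟩
      obtain ⟨w, e1, τ, e2⟩ := hex
      have e3 : ∀ w', pair (fst j) w' ∈ fst x → ∀ τ', pair (snd j) τ' ∈ snd w' → τ' = τ := by
        intro w' e3 τ' e4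
        obtain rfl := P0.fn hxP _ _ e1 _ e3
        obtain ⟨s, F, rfl, -, -, e5, -⟩ := P0.okw hxP e1
        rw [snd_pair] at e2 e4
        exact e5 _ _ e4 _ e2
      have e4 : pair x n ∈ X j ↔ ∃ r ∈ H, pair n r ∈ τ := by
        simp only [X, mem_sep, pair_mem_prod]
        constructor
        · rintro ⟨-, x', n', e4, w', e5, τ', e6, e7⟩
          obtain ⟨rfl, rfl⟩ := pair_inj.1 e4
          exact e3 w' e5 τ' e6 ▸ e7
        · exact fun e4 => ⟨⟨mem_sUnion.2 ⟨B, hB, hxB⟩, hnω⟩, x, n, rfl, w, e1, τ, e2, e4⟩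
      have e5 := (e4.symm.trans (h1 j hj n hn)).trans (hS4 j hj n hnω)
      by_cases e6 : ∃ r ∈ H, pair n r ∈ τ
      · obtain ⟨p, hp, e7⟩ := e5.1 e6
        obtain ⟨r, hr, e8⟩ := e6
        obtain ⟨v, hv, e9, e10⟩ := hH.directed p hp r hr
        exact ⟨v, hv, fun w' e11 τ' e12 => e3 w' e11 τ' e12 ▸ Or.inl ⟨⟨r, e8, e10⟩, p, e7, e9⟩⟩
      · have hw : snd w ∈ W := by
          have := InM.mk (snd_mem (G.p0_mem hxP) e1)
          exact (inferInstance : Tm W (fun _ => snd w)).mem'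
        obtain ⟨p, hp, e7⟩ := exists_DF hF hH hPW hEW (snd_mem hw e2)
          (mem_of_mem omega_mem hnω) e6
        obtain ⟨r, hr, e8⟩ := exists_DF hF hH hPW hEW (hS1 j hj)
          (mem_of_mem omega_mem hnω) (mt e5.2 e6)
        obtain ⟨v, hv, e9, e10⟩ := hH.directed p hp r hr
        exact ⟨v, hv, fun w' e11 τ' e12 =>
          e3 w' e11 τ' e12 ▸ Or.inr ⟨e7.mono hE e9, e8.mono hE e10⟩⟩)
    refine ⟨v, hv, x, hxB, h2, fun c w' e1 w e2 i τ e3 => ?_⟩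
    obtain ⟨s, F, rfl, e4, e5, -⟩ := hY c w' e1
    obtain ⟨F', e6⟩ := hroot B hB x hxB c s e5
    obtain rfl := P0.fn hxP _ _ e6 _ e2
    have e7 : i ∈ cap s := by
      obtain ⟨s', F'', e7, -, -, -, e8⟩ := P0.okw hxP e2
      obtain ⟨rfl, rfl⟩ := pair_inj.1 e7
      rw [snd_pair] at e3
      obtain ⟨i', τ', e9, e10, -⟩ := e8 _ e3
      rwa [(pair_inj.1 e9).1]
    refine ⟨S (pair c i), by rw [snd_pair]; exact (hFs _ _ _ _).2 ⟨e7, rfl⟩, fun n hn => ?_⟩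
    have := h3 (pair (pair c i) n) ⟨_, hJ' c s i e5 e4 e7, n, hn, rfl⟩
    simp only [fst_pair, snd_pair] at this
    exact this _ e2 τ e3
  have f2 : ∀ m B v v', Phi (LE V γ) γ Y m B v → pair v' v ∈ LE V γ →
      Phi (LE V γ) γ Y m B v' := by
    rintro m B v v' ⟨x, hx, h1, h2⟩ hv
    exact ⟨x, hx, hE _ _ _ hv h1, fun c w' e1 w e2 i τ e3 =>
      (h2 c w' e1 w e2 i τ e3).imp fun τ' h => ⟨h.1, h.2.mono hE hv⟩⟩
  obtain ⟨w0, hw0, h1⟩ := hH.below hF hPW hEW (fun w =>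
    (∀ r, pair r w ∈ LE V γ → ∀ m ∈ omega, ∀ B ∈ ℬ, ∃ v, pair v r ∈ LE V γ ∧
      Phi (LE V γ) γ Y m B v) ∨
    ∃ m ∈ omega, ∃ B ∈ ℬ, ∀ v, pair v w ∈ LE V γ → ¬ Phi (LE V γ) γ Y m B v) hq0 fun q hq => by
      by_cases h1 : ∀ r, pair r q ∈ LE V γ → ∀ m ∈ omega, ∀ B ∈ ℬ, ∃ v, pair v r ∈ LE V γ ∧
        Phi (LE V γ) γ Y m B v
      · exact ⟨q, hF.rfl' hq, Or.inl h1⟩
      · push Not at h1
        obtain ⟨r, h1, h2⟩ := h1
        exact ⟨r, h1, Or.inr h2⟩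
  replace h1 := h1.resolve_right (by
    rintro ⟨m, hm, B, hB, h1⟩
    obtain ⟨v, hv, h2⟩ := f1 m hm B hB
    obtain ⟨v', -, h3, h4⟩ := hH.directed v hv w0 hw0
    exact h1 v' h4 (f2 _ _ _ _ h2 h3))
  obtain ⟨w1, hw1, h2, h3⟩ := hH.directed w0 hw0 _ hx0H
  refine ⟨w1, hH.subset hw1, Y, fun c s e1 e2 => ⟨Fs (pair c s), mem_img.2
    ⟨pair c s, mem_sep.2 ⟨e1, c, s, rfl, e2⟩, by simp⟩⟩, fun c w e1 => ?_,
    fun r hr => h1 r (hE _ _ _ hr h2)⟩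
  obtain ⟨e2, e3, e4⟩ := hY' c w e1
  obtain ⟨s, F, rfl, e5, e6, e7⟩ := hY c w e1
  refine ⟨e5, by rwa [fst_pair], e2, e3, e4, ?_⟩
  have := G.zreq G.ord subset_rfl hx0P e7 (e5 ▸ h3)
  rwa [e5, fst_pair, ← fst_pair s (Fs (pair c s))] at this

include G hℬ hb hP hR hroot hout in
theorem limit_step {β γ q0 : ZFSet.{u}} (hβo : β.IsOrdinal) (hβ : β ⊆ κ) (hγ : γ ∈ β)
    (hmax : ∀ c s, pair c s ∈ R → fst c ∈ β → fst c ⊆ γ) (h : IsLimit V ℬ γ q0) :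
    ∃ q, IsLimit V ℬ β q := by
  have ho := hβo.mem hγ
  have hγβ := hβo.subset_of_mem hγ
  have hF := G.isForcing ho (hγβ.trans hβ)
  have hE : Tr (LE V γ) := hF.trans
  obtain ⟨w1, hw1, Y, hY1, hY2, hY3⟩ := exists_names G hℬ hb hP hR hroot (hβ hγ) h
  let D : Set ZFSet.{u} := {c | (∃ s, pair c s ∈ R) ∧ fst c = γ}
  have hD : D.Finite := (hR.image fst).subset fun c ⟨⟨s, hs⟩, _⟩ => ⟨_, hs, fst_pair _ _⟩
  obtain ⟨q, hq, h1, -, h2⟩ := G.glue hβo hβ ho hγβ hw1 (S := ∅) (fun _ h => h.elim) hD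
    (fun _ h => h.elim) (fun c hc => hc.2 ▸ mem_irrefl _) (fun c w => pair c w ∈ Y) (by
      rintro c ⟨⟨s, hs⟩, hc⟩
      obtain ⟨F, e1⟩ := hY1 c s hs hc
      obtain ⟨-, -, e2, e3, e4, e5⟩ := hY2 _ _ e1
      refine ⟨_, e1, e2, OKE.mono ⟨c, _, rfl, e3, hc ▸ e4⟩ (by rwa [fst_pair, hc]),
        fun x hx _ => ⟨?_, fun _ h => h.elim⟩⟩
      rw [hc] at hx ⊢
      exact e5.mono hE e4.top hx)
  refine ⟨q, hq, fun r hr B hB => ?_⟩
  have hrP := LE.left hr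
  have h3 : pair (res r γ) w1 ∈ LE V γ := by
    have := G.res_le ho (hγβ.trans hβ) (G.tr hβo hβ _ _ _ hr h1)
    rwa [res_eq (PP.p0 hw1)] at this
  have h4 : ∀ c ∈ D, ∃ wr w', pair c wr ∈ r ∧ pair c w' ∈ Y ∧ EExt (LE V γ) (res r γ) wr w' := by
    intro c hc
    obtain ⟨w', e1, e2⟩ := h2 c hc
    obtain ⟨wr, e3, e4⟩ := LE.ext hr c w' e1
    exact ⟨wr, w', e3, e2, hc.2 ▸ e4⟩
  choose! wr w' e1 e2 e3 using h4
  obtain ⟨u', hu', h5⟩ := dense_below hF hD (Q := fun c v => ∃ s', rk s' ∈ omega ∧ fst s' ∈ omega ∧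
      cap s' = cap (fst (wr c)) ∪ (cap (fst (w' c))).prod {cap (fst (wr c))} ∧
      SExt s' (fst (wr c)) ∧ Zreq (LE V γ) v (snd c) s' ∧
      ∀ i τ, pair i τ ∈ snd (wr c) → Pred (LE V γ) v τ (fst (fst (wr c))) s') (LE.left h3)
    (fun c _ v v' ⟨s', a1, a2, a3, a4, a5, a6⟩ hv => ⟨s', a1, a2, a3, a4, a5.mono hE a2 hv,
      fun i τ h => (a6 i τ h).mono hE hv⟩) (by
      intro c hc v hv
      have a1 := P0.okw (PP.p0 hrP) (e1 c hc)
      have a2 := (hY2 _ _ (e2 c hc)).2.2.2.2.1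
      have a3 := G.zreq hβo hβ hrP (e1 c hc) (hc.2 ▸ hv)
      rw [hc.2] at a3
      have a4 := hf_fst (hf_snd a1.hf)
      obtain ⟨s, F, a5, a6, a7, a8, a9⟩ := id a1
      obtain ⟨v', b1, s', b2, b3, b4, b5, b6, k, b7, -, b8, -⟩ := locExt hF (hF.left hv) a1.hf a1.top
        (F := snd (wr c)) (by rwa [a5, snd_pair]) a1.finite (fun i τ h => by
          rw [a5, snd_pair] at h
          obtain ⟨i', τ', b1, b2, -⟩ := a9 _ h
          rwa [a5, fst_pair, (pair_inj.1 b1).1]) a3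
        (hf_union a4 (hf_prod (hf_fst (hf_snd a2.hf)) (hf_singleton a4))) (ξ := ∅) omega_zero
      exact ⟨v', b1, s', b2, b8 ▸ omega_succ b7, b3, b4, b5, b6⟩)
  choose! s' a1 a2 a3 a4 a5 a6 using h5
  obtain ⟨m, hm⟩ := exists_nat_bound (hD.image fun c => fst (s' c)) (by
    rintro _ ⟨c, hc, rfl⟩; exact a2 c hc)
  obtain ⟨B', hB', h6⟩ := hb.finite (J := {c | (∃ w, pair c w ∈ r) ∧ ∀ s, pair c s ∉ R})
    ((finite_dom (PP.p0 hrP)).subset fun _ h => h.1) (Q := fun c x => ∀ w, pair c w ∉ fst x)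
    fun c hc => hout c hc.2
  obtain ⟨C, hC, hC1, hC2⟩ := hb.dir B hB B' hB'
  obtain ⟨v, hv, x, hx, h7, h8⟩ := hY3 u' (hE _ _ _ hu' h3) _ (nat_mem_omega m) C hC
  have hxP := G.res_PP hβo hβ (hP C hC x hx)
  have hv' := hE _ _ _ hv hu'
  obtain ⟨y, -, -, h9, -⟩ := G.glue hβo hβ ho hγβ (LE.left hv) (S := {r, res (fst x) β})
    (D := {c | ((∃ w, pair c w ∈ r) ∨ ∃ w, pair c w ∈ res (fst x) β) ∧ fst c ∉ γ})
    (by
      rintro p (rfl | rfl)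
      exacts [⟨hrP, hv'⟩, ⟨hxP, by rwa [res_res hγβ]⟩])
    (((finite_dom (PP.p0 hrP)).union (finite_dom (PP.p0 hxP))).subset fun _ h => h.1)
    (by
      rintro p (rfl | rfl) c w h h'
      exacts [⟨Or.inl ⟨w, h⟩, h'⟩, ⟨Or.inr ⟨w, h⟩, h'⟩])
    (fun _ h => h.2) (fun _ _ => True) (by
      rintro c ⟨hc, hc'⟩
      have hcβ : fst c ∈ β := hc.elim (fun ⟨_, h⟩ => lev_mem (PP.p0 hrP) h)
        fun ⟨_, h⟩ => lev_mem (PP.p0 hxP) h
      by_cases hcR : ∃ s, pair c s ∈ R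
      · have hcγ : fst c = γ := by
          obtain ⟨s, hs⟩ := hcR
          exact (((hβo.mem hcβ).subset_iff_eq_or_mem ho).1 (hmax c s hs hcβ)).resolve_right hc'
        have hcD : c ∈ D := ⟨hcR, hcγ⟩
        obtain ⟨-, b1, -, -, b2, -⟩ := hY2 _ _ (e2 c hcD)
        obtain ⟨Fq, b3⟩ := hroot C hC x hx c _ b1
        have b4 : pair c (pair (fst (w' c)) Fq) ∈ res (fst x) β := mem_res.2 ⟨b3, hcβ⟩
        have b5 := P0.okw (PP.p0 hxP) b4
        have b6 := P0.okw (PP.p0 hrP) (e1 c hcD)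
        have b7 := b5.finite
        have b8 := b6.finite
        obtain ⟨_, _, b9, -, -, b10, b11⟩ := b5
        obtain ⟨rfl, rfl⟩ := pair_inj.1 b9
        obtain ⟨sr, Fr, b12, -, -, b13, b14⟩ := b6
        have b15 := a3 c hcD
        have b16 := a4 c hcD
        have b17 := a6 c hcD
        have b18 := e3 c hcD
        have b19 := e1 c hcD
        rw [b12] at b8 b15 b16 b17 b18 b19
        simp only [fst_pair, snd_pair] at b7 b8 b15 b16 b17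
        let F2 := Fr ∪ img (fun y => pair (pair (fst y) (cap sr)) (snd y)) Fq
        have hF2 : ∀ j τ, pair j τ ∈ F2 ↔ pair j τ ∈ Fr ∨
            ∃ i, pair i τ ∈ Fq ∧ j = pair i (cap sr) := by
          intro j τ
          rw [mem_union, mem_img]
          refine or_congr_right ⟨?_, ?_⟩
          · rintro ⟨y, hy, h⟩
            obtain ⟨i, τ', rfl, -⟩ := b11 y hy
            simp only [fst_pair, snd_pair, pair_inj] at h
            exact ⟨i, h.2 ▸ hy, h.1.symm⟩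
          · rintro ⟨i, h, rfl⟩
            exact ⟨_, h, by simp⟩
        have hn : ∀ i τ, pair (pair i (cap sr)) τ ∉ Fr := by
          intro i τ h
          obtain ⟨i', τ', h', h'', -⟩ := b14 _ h
          rw [← (pair_inj.1 h').1] at h''
          exact lt_irrefl _ ((rank_lt_of_mem (mem_pair.2 (Or.inr rfl))).trans
            ((rank_lt_of_mem (mem_pair.2 (Or.inr rfl))).trans (rank_lt_of_mem h'')))
        have hFr : Fr ∈ W := snd_mem_of_pair_mem (snd_mem (G.p0_mem (PP.p0 hrP)) b19)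
        have hFq : Fq ∈ W := snd_mem_of_pair_mem (snd_mem (G.p0_mem (PP.p0 hxP)) b4)
        have hsr : sr ∈ W := fst_mem_of_pair_mem (snd_mem (G.p0_mem (PP.p0 hrP)) b19)
        have hF2W : F2 ∈ W := by
          have := InM.mk hFr
          have := InM.mk hFq
          have := InM.mk hsr
          exact (by unfold F2; infer_instance : Tm W (fun _ => F2)).mem'
        refine ⟨pair (s' c) F2, trivial, pair_mem (fst_mem (G.p0_mem (PP.p0 hrP)) b19)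
          (pair_mem (hf_mem_model (a1 c hcD)) hF2W), ⟨c, _, rfl, P0.okc (PP.p0 hrP) b19,
            s' c, F2, rfl, a1 c hcD, a2 c hcD, fun j τ f1 τ' f2 => ?_, fun y hy => ?_⟩,
          fun z hz _ => ?_⟩
        · rcases (hF2 _ _).1 f1 with g1 | ⟨i, g1, g0⟩ <;>
            rcases (hF2 _ _).1 f2 with g2 | ⟨i', g2, g3⟩
          · exact b13 _ _ g1 _ g2
          · exact (hn i' τ (g3 ▸ g1)).elim
          · exact (hn i τ' (g0 ▸ g2)).elim
          · exact b10 _ _ g1 _ ((pair_inj.1 (g0.symm.trans g3)).1 ▸ g2)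
        · rw [b15]
          rcases mem_union.1 hy with hy | hy
          · obtain ⟨i, τ, f1, f2, f3⟩ := b14 y hy
            exact ⟨i, τ, f1, mem_union.2 (Or.inl f2), f3⟩
          · obtain ⟨y', hy', rfl⟩ := mem_img.1 hy
            obtain ⟨i, τ, rfl, f2, f3⟩ := b11 y' hy'
            exact ⟨_, _, rfl, mem_union.2 (Or.inr (pair_mem_prod.2
              ⟨by rwa [fst_pair], mem_singleton.2 rfl⟩)), by rwa [snd_pair]⟩
        · rw [hcγ] at hz ⊢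
          have f1 := hE _ _ _ hz hv
          have f2 : EExt (LE V γ) z (pair (s' c) F2) (pair sr Fr) := by
            simp only [EExt, fst_pair, snd_pair]
            exact ⟨b16, fun i τ h => ⟨⟨i, (hF2 _ _).2 (Or.inl h)⟩, (b17 i τ h).mono hE f1⟩⟩
          refine ⟨by rw [fst_pair]; exact (a5 c hcD).mono hE (a2 c hcD) f1, ?_⟩
          rintro p (rfl | rfl) w0 h0
          · obtain rfl := P0.fn (PP.p0 hrP) _ _ b19 _ h0
            exact f2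
          · obtain rfl := P0.fn (PP.p0 hxP) _ _ b4 _ h0
            have f3 := f2.trans (b18.mono hE (hE _ _ _ hz hv'))
            simp only [EExt, fst_pair, snd_pair] at f3 ⊢
            refine ⟨f3.1, fun i τ h => ⟨⟨_, (hF2 _ _).2 (Or.inr ⟨i, h, rfl⟩)⟩, ?_⟩⟩
            obtain ⟨τ', f4, f5⟩ := h8 c _ (e2 c hcD) _ b3 i τ (by rwa [snd_pair])
            exact Pred.same (hF.rfl' hz) (isOrdinal_omega'.mem (a2 c hcD))
              ((isOrdinal_nat m).subset_of_mem (hm _ ⟨c, hcD, rfl⟩)) (f5.mono hE hz)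
              (f3.2 i τ' f4).2
      · push Not at hcR
        by_cases hcr : ∃ w, pair c w ∈ r
        · obtain ⟨w, hw⟩ := hcr
          refine ⟨w, trivial, mem_of_mem (G.p0_mem (PP.p0 hrP)) hw,
            (mem_sep.1 (PP.p0 hrP)).2.2.2 _ hw, fun z _ hz =>
              ⟨G.zreq hβo hβ hrP hw (hz _ (Or.inl rfl)), ?_⟩⟩
          rintro p (rfl | rfl) w0 h0
          · exact G.eext hβo hβ hrP hw (hz _ (Or.inl rfl)) (Ext.of_subset subset_rfl) h0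
          · exact (h6 x (hC2 hx) c ⟨⟨w, hw⟩, hcR⟩ w0 (mem_res.1 h0).1).elim
        · obtain ⟨w, hw⟩ := hc.resolve_left hcr
          refine ⟨w, trivial, mem_of_mem (G.p0_mem (PP.p0 hxP)) hw,
            (mem_sep.1 (PP.p0 hxP)).2.2.2 _ hw, fun z _ hz =>
              ⟨G.zreq hβo hβ hxP hw (hz _ (Or.inr rfl)), ?_⟩⟩
          rintro p (rfl | rfl) w0 h0
          · exact (hcr ⟨w0, h0⟩).elim
          · exact G.eext hβo hβ hxP hw (hz _ (Or.inr rfl)) (Ext.of_subset subset_rfl) h0)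
  exact ⟨x, hC1 hx, y, h9 _ (Or.inl rfl), h9 _ (Or.inr rfl)⟩

include G hℬ hb hP hR hroot hout in
theorem exists_limit : ∃ q ∈ PP V κ, ∀ r, pair r q ∈ LE V κ → ∀ B ∈ ℬ, ∃ x ∈ B, ∃ y,
    pair y r ∈ LE V κ ∧ pair y (fst x) ∈ LE V κ := by
  have key : ∀ β : ZFSet.{u}, β.IsOrdinal → β ⊆ κ → ∃ q, IsLimit V ℬ β q := by
    intro β
    induction β using ZFSet.inductionOn with
    | h β ih =>
      intro ho hβ
      rcases (isOrdinal_empty.subset_iff_eq_or_mem ho).1 (empty_subset β) with rfl | h0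
      · refine ⟨∅, G.empty_mem hβ, fun r hr B hB => ?_⟩
        obtain ⟨x, hx⟩ := hb.ne' B hB
        refine ⟨x, hx, r, PP.refl (LE.left hr), ?_⟩
        convert hr using 2
        ext z
        simp [res]
      · obtain ⟨γ, hγ, hmax⟩ := Set.Finite.exists_maximalFor rank
          {γ | γ ∈ β ∧ (γ = ∅ ∨ ∃ c s, pair c s ∈ R ∧ fst c = γ)}
          (((hR.image fun z => fst (fst z)).insert ∅).subset (by
            rintro γ ⟨-, rfl | ⟨c, s, h, rfl⟩⟩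
            exacts [Set.mem_insert _ _, Set.mem_insert_of_mem _ ⟨_, h, by simp⟩]))
          ⟨∅, h0, Or.inl rfl⟩
        obtain ⟨q0, h1⟩ := ih γ hγ.1 (ho.mem hγ.1) ((ho.subset_of_mem hγ.1).trans hβ)
        refine limit_step G hℬ hb hP hR hroot hout ho hβ hγ.1 (fun c s h2 h3 => ?_) h1
        rw [← (ho.mem h3).rank_le_iff_subset (ho.mem hγ.1)]
        by_contra h4
        exact h4 (hmax ⟨h3, Or.inr ⟨c, s, h2, rfl⟩⟩ (not_le.1 h4).le)
  obtain ⟨q, h1, h2⟩ := key κ G.ord subset_rfl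
  refine ⟨q, h1, fun r hr B hB => ?_⟩
  obtain ⟨x, hx, y, h3, h4⟩ := h2 r hr B hB
  rw [res_eq (PP.p0 (hP B hB x hx))] at h4
  exact ⟨x, hx, y, h3, h4⟩

end Pool.Agent.P.MP_0d94a4_lc
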