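import Mathlib.Order.Lattice.Nat
import Pool.Agent.P.MP_0d94a4_lc.Limit

/-!
A root lemma for families of conditions that are positive for a sigma ideal.
-/

universe u

set_option synthInstance.maxSize 16384

namespace Pool.Agent.P.MP_0d94a4_lc

open ZFSet Pool.Agent.Lib.Forcing

/-- Ideals closed under the countable unions of the model. -/
structure SIdeal (W : Set ZFSet.{u}) (Small : ZFSet.{u} → Prop) : Prop where
  mono : ∀ A B, A ⊆ B → Small B → Small A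
  empty : Small ∅
  sigma : ∀ A ∈ W, ∀ Z ∈ W, (∀ x ∈ A, ∃ n ∈ omega, pair n x ∈ Z) →
    (∀ n ∈ omega, Small (A.sep fun x => pair n x ∈ Z)) → Small A

def Has (R x : ZFSet.{u}) : Prop := ∀ c s, pair c s ∈ R → ∃ F, pair c (pair s F) ∈ fst x

def Av (R E x : ZFSet.{u}) : Prop := ∀ c w, pair c w ∈ fst x → c ∈ E → ∃ s, pair c s ∈ R

variable {W : Set ZFSet.{u}} [ZFm W] {Small : ZFSet.{u} → Prop}

instance {s t : Env.{u} → ZFSet.{u}} [Tm W s] [Tm W t] : Df W (fun e => Has (s e) (t e)) := by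
  refine Df.subst2 (R := Has) ((inferInstance : Df W (fun e => ∀ c s, pair c s ∈ e 0 →
    ∃ w, pair c w ∈ fst (e 1) ∧ ∃ a b, w = pair a b ∧ a = s)).congr fun e _ => ?_) s t
  refine forall_congr' fun c => forall_congr' fun s => forall_congr' fun _ => ⟨?_, ?_⟩
  · rintro ⟨_, h, a, b, rfl, rfl⟩; exact ⟨b, h⟩
  · rintro ⟨F, h⟩; exact ⟨_, h, s, F, rfl, rfl⟩

instance {s t w : Env.{u} → ZFSet.{u}} [Tm W s] [Tm W t] [Tm W w] :
    Df W (fun e => Av (s e) (t e) (w e)) :=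
  Df.subst3 (R := Av) (by unfold Av; infer_instance) s t w

theorem SIdeal.sigma' (I : SIdeal W Small) (φ : ZFSet.{u} → ZFSet.{u} → Prop)
    [Df W (fun e => φ (e 1) (e 0))] {A : ZFSet.{u}} (hA : A ∈ W)
    (h1 : ∀ x ∈ A, ∃ n ∈ omega, φ n x) (h : ¬ Small A) :
    ∃ n ∈ omega, ¬ Small (A.sep (φ n)) := by
  by_contra hc
  push Not at hc
  obtain ⟨Z, hZ, -, HZ⟩ := exists_pairSep φ omega_mem hA
  exact h (I.sigma A hA Z hZ (fun x hx => (h1 x hx).imp fun n h =>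
    ⟨h.1, (HZ _ _).2 ⟨h.1, hx, h.2⟩⟩) fun n hn => I.mono _ _ (fun x hx =>
      mem_sep.2 ⟨(mem_sep.1 hx).1, ((HZ _ _).1 (mem_sep.1 hx).2).2.2⟩) (hc n hn))

theorem SIdeal.union (I : SIdeal W Small) {A B : ZFSet.{u}} (hA : A ∈ W) (hB : B ∈ W)
    (h1 : Small A) (h2 : Small B) : Small (A ∪ B) := by
  by_contra h
  have := InM.mk hA
  have := InM.mk hB
  obtain ⟨n, -, h3⟩ := I.sigma' (fun n x => (n = ∅ ∧ x ∈ A) ∨ (n ≠ ∅ ∧ x ∈ B)) (union_mem hA hB)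
    (fun x hx => (mem_union.1 hx).elim (fun h => ⟨∅, omega_zero, Or.inl ⟨rfl, h⟩⟩)
      fun h => ⟨_, omega_succ omega_zero, Or.inr ⟨fun h' =>
        (ZFSet.eq_empty _).1 h' ∅ (mem_insert _ _), h⟩⟩) h
  by_cases hn : n = ∅
  · exact h3 (I.mono _ _ (fun x hx => (mem_sep.1 hx).2.elim (·.2) fun h => (h.1 hn).elim) h1)
  · exact h3 (I.mono _ _ (fun x hx => (mem_sep.1 hx).2.elim (fun h => (hn h.1).elim) (·.2)) h2)

theorem SIdeal.finite (I : SIdeal W Small) {J : Set ZFSet.{u}} (hJ : J.Finite)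
    (F : ZFSet.{u} → ZFSet.{u}) (hF : ∀ j ∈ J, F j ∈ W ∧ Small (F j)) :
    ∃ B ∈ W, Small B ∧ ∀ j ∈ J, F j ⊆ B := by
  induction J, hJ using Set.Finite.induction_on with
  | empty => exact ⟨∅, Trans.empty, I.empty, fun _ h => h.elim⟩
  | @insert a s _ _ ih =>
    obtain ⟨B, h1, h2, h3⟩ := ih fun j hj => hF j (Set.mem_insert_of_mem _ hj)
    obtain ⟨h4, h5⟩ := hF a (Set.mem_insert _ _)
    refine ⟨F a ∪ B, union_mem h4 h1, I.union h4 h1 h5 h2, ?_⟩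
    rintro j (rfl | hj)
    exacts [subset_union_left' _ _, (h3 j hj).trans (subset_union_right' _ _)]

omit [ZFm W] in
theorem SIdeal.nonempty (I : SIdeal W Small) {A : ZFSet.{u}} (h : ¬ Small A) : ∃ x, x ∈ A := by
  by_contra h'
  exact h (I.mono _ _ (fun x hx => (h' ⟨x, hx⟩).elim) I.empty)

variable {κ V : ZFSet.{u}}

theorem exists_root (I : SIdeal W Small) {𝒬 : ZFSet.{u}} (h𝒬 : 𝒬 ∈ W)
    (hP : ∀ x ∈ 𝒬, fst x ∈ PP V κ) (h : ¬ Small 𝒬) :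
    ∃ 𝒬' ∈ W, 𝒬' ⊆ 𝒬 ∧ ∃ R ∈ W, (R : Set ZFSet.{u}).Finite ∧ (∀ x ∈ 𝒬', Has R x) ∧
      ∀ E : ZFSet.{u} → ZFSet.{u}, Tm W (fun e => E (e 0)) →
        (∀ n ∈ omega, (E n : Set ZFSet.{u}).Finite) →
        ¬ Small (𝒬'.sep fun x => ∀ n ∈ omega, Av R (E n) x) := by
  obtain ⟨N, hN, h1⟩ := I.sigma' (fun n x => FinLe (fst x) n ∧
      ∀ c w, pair c w ∈ fst x → rk (fst w) ∈ n) h𝒬 (fun x hx => by
    have h1 := PP.p0 (hP x hx)
    obtain ⟨n, hn⟩ := exists_nat_bound (((P0.finite h1).image fun z => rk (fst (snd z))).insert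
      (nat (fst x : Set ZFSet.{u}).ncard)) (by
        rintro _ (rfl | ⟨z, hz, rfl⟩)
        · exact nat_mem_omega _
        · obtain ⟨c, w, rfl, -, h2⟩ := (mem_sep.1 h1).2.2.2 z hz
          simpa using h2.hf)
    refine ⟨_, nat_mem_omega n, ⟨P0.finite h1, ?_⟩, fun c w h2 =>
      hn _ (Set.mem_insert_of_mem _ ⟨_, h2, by simp⟩)⟩
    rw [encard_nat, ← (P0.finite h1).cast_ncard_eq]
    exact_mod_cast (nat_mem_nat.1 (hn _ (Set.mem_insert _ _))).le) h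
  obtain ⟨N, rfl⟩ := mem_omega_iff.1 hN
  have h2 := sep_mem (M := W) (fun x => FinLe (fst x) (nat N) ∧
      ∀ c w, pair c w ∈ fst x → rk (fst w) ∈ nat N) h𝒬
  set A := 𝒬.sep fun x => FinLe (fst x) (nat N) ∧ ∀ c w, pair c w ∈ fst x → rk (fst w) ∈ nat N
  let S : Set ℕ := {k | ∃ R ∈ W, (R : Set ZFSet.{u}).Finite ∧ (∀ z ∈ R, ∃ c s, z = pair c s) ∧
    ¬ Small (A.sep (Has R)) ∧ (R : Set ZFSet.{u}).ncard = k}
  have hS : BddAbove S := by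
    refine ⟨N, ?_⟩
    rintro _ ⟨R, -, h3, h4, h5, rfl⟩
    obtain ⟨x, hx⟩ := I.nonempty h5
    obtain ⟨h6, h7⟩ := mem_sep.1 hx
    have h8 : (R : Set ZFSet.{u}).encard ≤ N := by
      refine le_trans (Set.encard_le_encard (t := (fun z => pair (fst z) (fst (snd z))) '' fst x)
        fun z hz => ?_) ((Set.encard_image_le _ _).trans (encard_nat N ▸ (mem_sep.1 h6).2.1.2))
      obtain ⟨c, s, rfl⟩ := h4 z hz
      obtain ⟨F, h8⟩ := h7 c s hz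
      exact ⟨_, h8, by simp⟩
    rw [← h3.cast_ncard_eq] at h8
    exact_mod_cast h8
  obtain ⟨R, hR, h3, h4, h5, h6⟩ := Nat.sSup_mem (s := S) ⟨_, ∅, Trans.empty, by simp,
    fun _ h => (notMem_empty _ h).elim, fun h' => h1 (I.mono _ _ (fun x hx =>
      mem_sep.2 ⟨hx, fun _ _ h => (notMem_empty _ h).elim⟩) h'), rfl⟩ hS
  have := InM.mk hR
  have h7 := sep_mem (M := W) (Has R) h2
  refine ⟨_, h7, sep_subset.trans sep_subset, R, hR, h3, fun x hx => (mem_sep.1 hx).2,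
    fun E hE h8 h9 => ?_⟩
  have hE' : ∀ (s : Env.{u} → ZFSet.{u}) [Tm W s], Tm W (fun e => E (s e)) :=
    fun s _ => hE.apply1 s
  have h10 := sep_mem (M := W) (fun x => ¬ ∀ n ∈ omega, Av R (E n) x) h7
  obtain ⟨n, hn, h11⟩ := I.sigma' (fun n x => ¬ Av R (E n) x) h10
    (fun x hx => by simpa using (mem_sep.1 hx).2) fun h' => h5 (I.mono _ _ (fun x hx =>
      mem_union.2 ((em _).imp (fun h => mem_sep.2 ⟨hx, h⟩) fun h => mem_sep.2 ⟨hx, h⟩))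
      (I.union (sep_mem _ h7) h10 h9 h'))
  obtain ⟨B, -, h12, h13⟩ := I.finite (J := Set.image2 pair {c | c ∈ E n ∧ ∀ s, pair c s ∉ R}
    {s | rk s ∈ nat N}) (((h8 n hn).subset fun _ h => h.1).image2 _ (finite_rk N))
    (fun j => A.sep (Has (insert j R))) (by
      rintro _ ⟨c, hc, s, hs, rfl⟩
      have h12 : insert (pair c s) R ∈ W := insert_mem (pair_mem (mem_of_mem
        (hE.mem1 (mem_of_mem omega_mem hn)) hc.1) (hf_mem_model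
          (isOrdinal_omega'.mem_trans hs (nat_mem_omega N)))) hR
      have := InM.mk h12
      refine ⟨sep_mem _ h2, by_contra fun h13 => ?_⟩
      have h14 := le_csSup hS ⟨_, h12, coe_insert _ _ ▸ h3.insert _, fun z hz =>
        (mem_insert_iff.1 hz).elim (fun h => ⟨c, s, h⟩) (h4 z), h13, rfl⟩
      rw [coe_insert, Set.ncard_insert_of_notMem (hc.2 s) h3, h6] at h14
      omega)
  refine h11 (I.mono _ _ (fun x hx => ?_) h12)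
  obtain ⟨h14, h15⟩ := mem_sep.1 hx
  obtain ⟨h16, h17⟩ := mem_sep.1 (mem_sep.1 h14).1
  simp only [Av] at h15
  push Not at h15
  obtain ⟨c, w, e1, e2, e3⟩ := h15
  obtain ⟨s, F, rfl, -⟩ := P0.okw (PP.p0 (hP x (mem_sep.1 h16).1)) e1
  refine h13 _ ⟨c, ⟨e2, e3⟩, s, by simpa using (mem_sep.1 h16).2.2 c _ e1, rfl⟩
    (mem_sep.2 ⟨h16, fun c' s' e4 => ?_⟩)
  rcases mem_insert_iff.1 e4 with e4 | e4
  · obtain ⟨rfl, rfl⟩ := pair_inj.1 e4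
    exact ⟨F, e1⟩
  · exact h17 c' s' e4

omit [ZFm W] in
theorem mem_sUnion3 {c w p T : ZFSet.{u}} (h : pair c w ∈ p) (h' : p ∈ T) :
    c ∈ (⋃₀ ⋃₀ ⋃₀ T : ZFSet.{u}) :=
  mem_sUnion.2 ⟨{c}, mem_sUnion.2 ⟨_, mem_sUnion.2 ⟨p, h', h⟩, mem_insert _ _⟩, mem_singleton.2 rfl⟩

variable (G : Ground W κ V)
include G

theorem Ground.limit {𝒬 R K : ZFSet.{u}} (h𝒬 : 𝒬 ∈ W) (hP : ∀ x ∈ 𝒬, fst x ∈ PP V κ) (hRW : R ∈ W)
    (hR : (R : Set ZFSet.{u}).Finite) (hroot : ∀ x ∈ 𝒬, Has R x) (hK : K ∈ W) (hKo : K.IsOrdinal)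
    (h0 : ∅ ∈ K) (t : ZFSet.{u} → ZFSet.{u}) (ht : Tm W (fun e => t (e 0)))
    (ht' : ∀ x ∈ 𝒬, (t x).IsOrdinal)
    (H : ∀ E ∈ W, (E : Set ZFSet.{u}).Finite → ∀ j ∈ K, ∃ x ∈ 𝒬, Av R E x ∧ j ∈ t x) :
    ∃ q ∈ PP V κ, ∀ r, pair r q ∈ LE V κ → ∀ j ∈ K, ∃ x ∈ 𝒬, j ∈ t x ∧ ∃ y,
      pair y r ∈ LE V κ ∧ pair y (fst x) ∈ LE V κ := by
  have := InM.mk h𝒬
  have := InM.mk hRW
  have := InM.mk hK
  have hT : ∀ (s : Env.{u} → ZFSet.{u}) [Tm W s], Tm W (fun e => t (s e)) :=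
    fun s _ => ht.apply1 s
  have hU : (⋃₀ ⋃₀ ⋃₀ img fst 𝒬 : ZFSet.{u}) ∈ W :=
    (inferInstance : Tm W (fun _ => (⋃₀ ⋃₀ ⋃₀ img fst 𝒬 : ZFSet.{u}))).mem'
  set U := (⋃₀ ⋃₀ ⋃₀ img fst 𝒬 : ZFSet.{u}) with hU'
  obtain ⟨Pw, hPw, HPw⟩ := G.model.powerSet U hU
  have := InM.mk hU
  have hF := sep_mem (M := W) (fun E => FinLe E omega ∧ E ⊆ U) hPw
  have hF' : ∀ E, E ∈ Pw.sep (fun E => FinLe E omega ∧ E ⊆ U) ↔
      (E : Set ZFSet.{u}).Finite ∧ E ⊆ U := fun E => by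
    rw [mem_sep, finLe_omega]
    exact ⟨fun h => h.2, fun h => ⟨HPw E (mem_of_finite h.1 fun y hy => mem_of_mem hU (h.2 hy))
      h.2, h⟩⟩
  generalize Pw.sep (fun E => FinLe E omega ∧ E ⊆ U) = Fi at hF hF'
  have := InM.mk hF
  let B : ZFSet.{u} → ZFSet.{u} := fun z => 𝒬.sep fun x => Av R (fst z) x ∧ snd z ∈ t x
  have hB : ∀ E j x, x ∈ B (pair E j) ↔ x ∈ 𝒬 ∧ Av R E x ∧ j ∈ t x := by
    intro E j x; simp only [B, mem_sep, fst_pair, snd_pair]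
  have h1 : ∀ C, C ∈ img B (Fi.prod K) ↔ ∃ E ∈ Fi, ∃ j ∈ K, C = B (pair E j) := by
    intro C
    rw [mem_img]
    constructor
    · rintro ⟨z, hz, rfl⟩
      obtain ⟨E, hE, j, hj, rfl⟩ := mem_prod.1 hz
      exact ⟨E, hE, j, hj, rfl⟩
    · rintro ⟨E, hE, j, hj, rfl⟩
      exact ⟨_, pair_mem_prod.2 ⟨hE, hj⟩, rfl⟩
  have h2 : ∅ ∈ Fi := (hF' _).2 ⟨by simp, empty_subset _⟩
  obtain ⟨q, hq, h3⟩ := exists_limit G (ℬ := img B (Fi.prod K)) (R := R)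
    (by unfold B; infer_instance : Tm W (fun _ => img B (Fi.prod K))).mem'
    ⟨⟨_, (h1 _).2 ⟨_, h2, _, h0, rfl⟩⟩, fun C hC => by
      obtain ⟨E, hE, j, hj, rfl⟩ := (h1 C).1 hC
      exact (H E (mem_of_mem hF hE) ((hF' E).1 hE).1 j hj).imp fun x hx => (hB _ _ _).2 hx, by
      intro C hC C' hC'
      obtain ⟨E, hE, j, hj, rfl⟩ := (h1 C).1 hC
      obtain ⟨E', hE', j', hj', rfl⟩ := (h1 C').1 hC'
      rw [hF'] at hE hE'
      have h3 : E ∪ E' ∈ Fi := (hF' _).2 ⟨coe_union _ _ ▸ hE.1.union hE'.1,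
        fun _ h => (mem_union.1 h).elim (fun h => hE.2 h) fun h => hE'.2 h⟩
      have h4 : ∀ i, B (pair (E ∪ E') i) ⊆ B (pair E i) ∧ B (pair (E ∪ E') i) ⊆ B (pair E' i) :=
        fun i => ⟨fun x hx => by
          rw [hB] at hx ⊢
          exact ⟨hx.1, fun c w e1 e2 => hx.2.1 c w e1 (mem_union.2 (Or.inl e2)), hx.2.2⟩,
        fun x hx => by
          rw [hB] at hx ⊢
          exact ⟨hx.1, fun c w e1 e2 => hx.2.1 c w e1 (mem_union.2 (Or.inr e2)), hx.2.2⟩⟩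
      have h5 : ∀ E, ∀ i ∈ K, ∀ i', i ⊆ i' → B (pair E i') ⊆ B (pair E i) := by
        intro E i hi i' h x hx
        rw [hB] at hx ⊢
        exact ⟨hx.1, hx.2.1, (hKo.mem hi).mem_of_subset_of_mem (ht' x hx.1) h hx.2.2⟩
      rcases (hKo.mem hj).subset_total (hKo.mem hj') with h | h
      · exact ⟨_, (h1 _).2 ⟨_, h3, _, hj', rfl⟩, (h4 _).1.trans (h5 _ _ hj _ h), (h4 _).2⟩
      · exact ⟨_, (h1 _).2 ⟨_, h3, _, hj, rfl⟩, (h4 _).1, (h4 _).2.trans (h5 _ _ hj' _ h)⟩⟩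
    (fun C hC x hx => by
      obtain ⟨E, -, j, -, rfl⟩ := (h1 C).1 hC
      exact hP x ((hB _ _ _).1 hx).1) hR
    (fun C hC x hx => by
      obtain ⟨E, -, j, -, rfl⟩ := (h1 C).1 hC
      exact hroot x ((hB _ _ _).1 hx).1)
    (fun c hc => by
      refine ⟨_, (h1 _).2 ⟨{c} ∩ U, (hF' _).2 ⟨coe_inter _ _ ▸ Set.Finite.inter_of_left (by simp) _,
        fun _ h => (mem_inter.1 h).2⟩, _, h0, rfl⟩, fun x hx w h => ?_⟩
      rw [hB] at hx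
      obtain ⟨s, hs⟩ := hx.2.1 c w h (mem_inter.2 ⟨mem_singleton.2 rfl,
        mem_sUnion3 h (mem_img.2 ⟨x, hx.1, rfl⟩)⟩)
      exact hc s hs)
  refine ⟨q, hq, fun r hr j hj => ?_⟩
  obtain ⟨x, hx, h4⟩ := h3 r hr _ ((h1 _).2 ⟨_, h2, _, hj, rfl⟩)
  rw [hB] at hx
  exact ⟨x, hx.1, hx.2.2, h4⟩

theorem Ground.exists_lev {p : ZFSet.{u}} (hp : p ∈ PP V κ) : ∃ β ∈ κ, p ∈ PP V β := by
  have h1 := rk_mem_of_P0 G.ord G.lim (PP.p0 hp)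
  refine ⟨_, h1, ?_⟩
  convert G.res_PP (isOrdinal_rk p) (G.ord.subset_of_mem h1) hp
  ext z
  simp only [res, mem_sep]
  refine (and_iff_left_of_imp fun hz => ?_).symm
  obtain ⟨c, w, rfl, ⟨γ, ζ, rfl, h2, -⟩, -⟩ := (mem_sep.1 (PP.p0 hp)).2.2.2 z hz
  simp only [fst_pair]
  rw [← rk_of_isOrdinal (G.ord.mem h2)]
  exact rk_fst_mem (isOrdinal_rk p) (rk_fst_mem (isOrdinal_rk p)
    (mem_rk.2 ⟨_, hz, mem_insert _ _⟩))

omit [ZFm W] in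
theorem Ground.zero_mem : ∅ ∈ κ := G.ord.mem_trans omega_zero G.lim.1

/-- Dense sets reflect to an initial part of the iteration. -/
theorem Ground.reflect {D : ZFSet.{u}} (hD : D ∈ W) (h : ∀ p ∈ PP V κ, ∃ d ∈ D, pair d p ∈ LE V κ) :
    ∃ α ∈ κ, ∀ p ∈ PP V κ, ∃ d ∈ D, d ∈ PP V α ∧ ∃ y, pair y d ∈ LE V κ ∧ pair y p ∈ LE V κ := by
  by_contra hc
  push Not at hc
  have := InM.mk hD
  have := InM.mk G.mem
  have := InM.mk G.memV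
  have I : SIdeal W (fun A => ∃ β ∈ κ, ∀ x ∈ A, snd x ∈ κ → snd x ∈ β) := by
    refine ⟨fun A B h ⟨β, h1, h2⟩ => ⟨β, h1, fun x hx => h2 x (h hx)⟩,
      ⟨∅, G.zero_mem, fun _ h => (notMem_empty _ h).elim⟩, fun A hA Z hZ h1 h2 => ?_⟩
    have := InM.mk hA
    have := InM.mk hZ
    obtain ⟨Z', hZ', -, HZ⟩ := exists_pairSep (M := W)
      (fun n β => ∀ x ∈ A, pair n x ∈ Z → snd x ∈ κ → snd x ∈ β) omega_mem G.mem
    obtain ⟨β, hβ, h3⟩ := G.cof1 Z' hZ' fun n hn => (h2 n hn).imp fun β h =>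
      ⟨h.1, (HZ _ _).2 ⟨hn, h.1, fun x e1 e2 => h.2 x (mem_sep.2 ⟨e1, e2⟩)⟩⟩
    refine ⟨β, hβ, fun x hx h4 => ?_⟩
    obtain ⟨n, hn, h5⟩ := h1 x hx
    obtain ⟨α, h6, h7⟩ := h3 n hn
    exact (G.ord.mem hβ).mem_trans (((HZ _ _).1 h7).2.2 x hx h5 h4) h6
  obtain ⟨𝒬, h𝒬, h1, H⟩ := exists_pairSep (M := W) (fun q α => ∀ d ∈ D, d ∈ PP V α →
    ∀ y, pair y d ∈ LE V κ → ¬ pair y q ∈ LE V κ) (G.PP_mem G.mem) G.mem
  have h2 : ∀ x ∈ 𝒬, fst x ∈ PP V κ ∧ snd x ∈ κ ∧ ∀ d ∈ D, d ∈ PP V (snd x) →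
      ∀ y, pair y d ∈ LE V κ → ¬ pair y (fst x) ∈ LE V κ := fun x hx => by
    obtain ⟨q, -, α, -, rfl⟩ := mem_prod.1 (h1 hx)
    simpa only [fst_pair, snd_pair] using (H _ _).1 hx
  obtain ⟨𝒬', h3, h4, R, h5, h6, h7, h8⟩ := exists_root I h𝒬 (fun x hx => (h2 x hx).1) (by
    rintro ⟨β, hβ, h3⟩
    obtain ⟨q, hq, h4⟩ := hc β hβ
    simpa [mem_irrefl, hβ] using h3 _ ((H _ _).2 ⟨hq, hβ, h4⟩))
  obtain ⟨q, hq, h9⟩ := G.limit h3 (fun x hx => (h2 x (h4 hx)).1) h5 h6 h7 G.mem G.ord G.zero_mem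
    snd inferInstance (fun x hx => G.ord.mem (h2 x (h4 hx)).2.1) fun E hE hE' j hj => by
      have := InM.mk hE
      have h9 := h8 (fun _ => E) inferInstance fun _ _ => hE'
      push Not at h9
      obtain ⟨x, hx, e1, e2⟩ := h9 _ (G.lim.2 j hj)
      refine ⟨x, (mem_sep.1 hx).1, (mem_sep.1 hx).2 _ omega_zero, ?_⟩
      exact ((G.ord.mem e1).notMem_iff_subset (G.ord.mem (G.lim.2 j hj))).1 e2 (mem_insert _ _)
  obtain ⟨r, hr, h10⟩ := h q hq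
  obtain ⟨β, hβ, h11⟩ := G.exists_lev (LE.left h10)
  obtain ⟨x, hx, e1, y, e2, e3⟩ := h9 r h10 β hβ
  obtain ⟨-, e4, e5⟩ := h2 x (h4 hx)
  exact e5 r hr (PP_mono ((G.ord.mem e4).subset_of_mem e1) h11) y e2 e3

/-- Subsets of a small ground model set have names for an initial part of the iteration. -/
theorem Ground.name_res {H a x : ZFSet.{u}} (hH : IsGeneric W (PP V κ) (LE V κ) H) (ha : a ∈ W)
    (cof : ∀ Z ∈ W, (∀ k ∈ a, ∃ α ∈ κ, pair k α ∈ Z) → ∃ β ∈ κ, ∀ k ∈ a, ∃ α ∈ β, pair k α ∈ Z)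
    (hx : x ∈ genericExt W H) : ∃ β ∈ κ, ∃ S ∈ W, S ⊆ a.prod (PP V β) ∧
      ∀ k ∈ a, (k ∈ x ↔ ∃ p ∈ H, pair k p ∈ S) := by
  have hF := G.isForcing G.ord subset_rfl
  have hP := G.PP_mem G.mem
  have hE := G.LE_mem G.mem
  obtain ⟨S, hS, -, -, h1⟩ := exists_nice hF hP hE hH hx ha
  have := InM.mk hS
  have := InM.mk G.mem
  have := InM.mk G.memV
  obtain ⟨Z, hZ, -, HZ⟩ := exists_pairSep (M := W) (fun k α => ∀ p ∈ PP V κ, ∃ d ∈ PP V α,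
    (DT (LE V κ) d S k ∨ DF (LE V κ) d S k) ∧ ∃ y, pair y d ∈ LE V κ ∧ pair y p ∈ LE V κ) ha G.mem
  obtain ⟨β, hβ, h2⟩ := cof Z hZ fun k hk => by
    have := InM.mk (mem_of_mem ha hk)
    obtain ⟨α, hα, h2⟩ := G.reflect (sep_mem (fun d => DT (LE V κ) d S k ∨ DF (LE V κ) d S k) hP)
      fun p hp => by
        by_cases h : DF (LE V κ) p S k
        · exact ⟨p, mem_sep.2 ⟨hp, Or.inr h⟩, PP.refl hp⟩
        · simp only [DF] at h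
          push Not at h
          obtain ⟨v, e1, e2⟩ := h
          exact ⟨v, mem_sep.2 ⟨LE.left e1, Or.inl e2⟩, e1⟩
    exact ⟨α, hα, (HZ _ _).2 ⟨hk, hα, fun p hp => (h2 p hp).imp fun d h =>
      ⟨h.2.1, (mem_sep.1 h.1).2, h.2.2⟩⟩⟩
  obtain ⟨S', hS', h3, HS⟩ := exists_pairSep (M := W) (fun k p => DT (LE V κ) p S k) ha
    (G.PP_mem (mem_of_mem G.mem hβ))
  refine ⟨β, hβ, S', hS', h3, fun k hk => (h1 k hk).trans ⟨fun h => ?_, fun ⟨p, hp, h⟩ =>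
    DT.val hH hp ((HS _ _).1 h).2.2⟩⟩
  obtain ⟨α, e1, e2⟩ := h2 k hk
  have := InM.mk (mem_of_mem ha hk)
  have := InM.mk (mem_of_mem (mem_of_mem G.mem hβ) e1)
  obtain ⟨p0, hp0⟩ := hH.nonempty hF hP
  obtain ⟨y, hy, d, e3, e4, e5⟩ := hH.below hF hP hE (fun y => ∃ d ∈ PP V α,
    (DT (LE V κ) d S k ∨ DF (LE V κ) d S k) ∧ pair y d ∈ LE V κ) hp0 fun q hq => by
      obtain ⟨d, e3, e4, y, e5, e6⟩ := ((HZ _ _).1 e2).2.2 q (LE.left hq)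
      exact ⟨y, e6, d, e3, e4, e5⟩
  have e6 := hH.upward _ _ hy e5
  exact ⟨d, e6, (HS _ _).2 ⟨hk, PP_mono ((G.ord.mem hβ).subset_of_mem e1) e3,
    e4.resolve_right fun h' => DF.val hH e6 h' h⟩⟩

end Pool.Agent.P.MP_0d94a4_lc
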