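import Pool.Agent.P.MP_0d94a4_lc.Delta

/-!
The iteration adds no real dominating the ground model.
-/

universe u

set_option synthInstance.maxSize 16384

namespace Pool.Agent.P.MP_0d94a4_lc

open ZFSet Pool.Agent.Lib.Forcing

theorem mem_graph {F : ZFSet.{u} → ZFSet.{u}} {a x y : ZFSet.{u}} :
    pair x y ∈ img (fun n => pair n (F n)) a ↔ x ∈ a ∧ y = F x := by
  simp only [mem_img, pair_inj]
  exact ⟨fun ⟨_, h1, h2, h3⟩ => h2 ▸ ⟨h1, h3.symm⟩, fun h => ⟨x, h.1, rfl, h.2.symm⟩⟩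

theorem app_graph {F : ZFSet.{u} → ZFSet.{u}} {a x : ZFSet.{u}} (hx : x ∈ a) :
    app (img (fun n => pair n (F n)) a) x = F x :=
  app_eq fun _ => mem_graph.trans (and_iff_right hx)

theorem isFunc_graph {F : ZFSet.{u} → ZFSet.{u}} {a b : ZFSet.{u}} (h : ∀ x ∈ a, F x ∈ b) :
    IsFunc a b (img (fun n => pair n (F n)) a) :=
  ⟨fun z hz => by
    obtain ⟨x, hx, rfl⟩ := mem_img.1 hz
    exact pair_mem_prod.2 ⟨hx, h x hx⟩,
  fun x hx => ⟨F x, mem_graph.2 ⟨hx, rfl⟩, fun _ h => (mem_graph.1 h).2⟩⟩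

theorem Fn.app {f x y : ZFSet.{u}} (h : Fn f) (h1 : pair x y ∈ f) : app f x = y :=
  app_eq fun _ => ⟨fun h2 => h _ _ h2 _ h1, fun h2 => h2 ▸ h1⟩

theorem fn_of_isFunc {a b f : ZFSet.{u}} (h : IsFunc a b f) : Fn f := fun x _ h1 _ h2 =>
  (h.2 x (pair_mem_prod.1 (h.1 h1)).1).unique h1 h2

theorem app_mem_of_isFunc {a b f x : ZFSet.{u}} (h : IsFunc a b f) (hx : x ∈ a) :
    pair x (app f x) ∈ f ∧ app f x ∈ b := by
  obtain ⟨y, hy, -⟩ := h.2 x hx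
  rw [(fn_of_isFunc h).app hy]
  exact ⟨hy, (pair_mem_prod.1 (h.1 hy)).2⟩

theorem union_mem_omega {a b : ZFSet.{u}} (ha : a ∈ omega) (hb : b ∈ omega) : a ∪ b ∈ omega :=
  sUnion_mem_omega (s := {a, b}) (by simp) fun x hx => by
    rcases mem_pair.1 hx with rfl | rfl
    exacts [ha, hb]

/-- `q` forces that the real named by `S` is not below `g` from `m` on. -/
def Dom (E S q g m : ZFSet.{u}) : Prop :=
  ∀ n ∈ omega, m ⊆ n → ∀ j ∈ app g n, DF E q S (pair n j)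

/-- The second coordinates are eventually bounded by `h`. -/
def Bdd (A h : ZFSet.{u}) : Prop :=
  (∀ n ∈ omega, app h n ∈ omega) ∧
    ∀ x ∈ A, ∃ m ∈ omega, ∀ n ∈ omega, m ⊆ n → app (snd x) n ⊆ app h n

variable {W : Set ZFSet.{u}} [ZFm W] {κ V : ZFSet.{u}}

instance {s t w v x : Env.{u} → ZFSet.{u}} [Tm W s] [Tm W t] [Tm W w] [Tm W v] [Tm W x] :
    Df W (fun e => Dom (s e) (t e) (w e) (v e) (x e)) :=
  Df.subst5 (R := Dom) (by unfold Dom; infer_instance) s t w v x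

instance {s t : Env.{u} → ZFSet.{u}} [Tm W s] [Tm W t] : Df W (fun e => Bdd (s e) (t e)) :=
  Df.subst2 (R := Bdd) (by unfold Bdd; infer_instance) s t

variable (G : Ground W κ V)
include G

theorem Ground.choice (R : ZFSet.{u} → ZFSet.{u} → Prop) [Df W (fun e => R (e 0) (e 1))]
    {a : ZFSet.{u}} (ha : a ∈ W) (H : ∀ x ∈ a, ∃ y ∈ W, R y x) :
    ∃ f ∈ W, ∀ x ∈ a, R (app f x) x := by
  obtain ⟨f, hf, h1, h2, h3⟩ := exists_choice G.model.powerSet G.enum R ha H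
  refine ⟨f, hf, fun x hx => ?_⟩
  obtain ⟨y, hy⟩ := h2 x hx
  rw [h1.app hy]
  exact (h3 x y hy).2

theorem Ground.ideal : SIdeal W (fun A => ∃ h ∈ W, Bdd A h) := by
  refine ⟨fun A B h ⟨g, h1, h2, h3⟩ => ⟨g, h1, h2, fun x hx => h3 x (h hx)⟩,
    ⟨∅, Trans.empty, fun n _ => ?_, fun _ h => (notMem_empty _ h).elim⟩, fun A hA Z hZ h1 h2 => ?_⟩
  · convert omega_zero
    simp [app]
  have := InM.mk hA
  have := InM.mk hZ
  obtain ⟨C, hC, h3⟩ := G.choice (fun h k => Bdd (A.sep fun x => pair k x ∈ Z) h) omega_mem h2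
  have := InM.mk hC
  refine ⟨img (fun n => pair n (⋃₀ img (fun k => app (app C k) n) (insert n n))) omega,
    Tm.mem' (t := fun _ => _) inferInstance, fun n hn => ?_, fun x hx => ?_⟩
  · rw [app_graph hn]
    refine sUnion_mem_omega (coe_img _ _ ▸ (finite_of_mem_omega (omega_succ hn)).image _)
      fun y hy => ?_
    obtain ⟨k, hk, rfl⟩ := mem_img.1 hy
    exact (h3 k (isOrdinal_omega'.mem_trans hk (omega_succ hn))).1 n hn
  · obtain ⟨k, hk, h4⟩ := h1 x hx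
    obtain ⟨m, hm, h5⟩ := (h3 k hk).2 x (mem_sep.2 ⟨hx, h4⟩)
    refine ⟨m ∪ k, union_mem_omega hm hk, fun n hn h6 z hz => ?_⟩
    rw [app_graph hn]
    refine mem_sUnion.2 ⟨_, mem_img.2 ⟨k, ?_, rfl⟩, h5 n hn ((subset_union_left' _ _).trans h6) hz⟩
    exact mem_insert_iff.2 (((isOrdinal_omega'.mem hk).subset_iff_eq_or_mem
      (isOrdinal_omega'.mem hn)).1 ((subset_union_right' _ _).trans h6))

theorem Ground.exists_undominated {S p : ZFSet.{u}} (hS : S ∈ W) (hp : p ∈ PP V κ)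
    (tot : ∀ r, pair r p ∈ LE V κ → ∀ n ∈ omega, ∃ r', pair r' r ∈ LE V κ ∧
      ∃ j ∈ omega, DT (LE V κ) r' S (pair n j)) :
    ∃ g ∈ W, IsFunc omega omega g ∧ ∀ q, pair q p ∈ LE V κ → ∀ m ∈ omega,
      ¬ Dom (LE V κ) S q g m := by
  by_contra hc
  push Not at hc
  have hE : Tr (LE V κ) := G.tr G.ord subset_rfl
  have := InM.mk hS
  have := InM.mk (G.p0_mem (PP.p0 hp))
  have := InM.mk (G.LE_mem G.mem)
  have I := G.ideal
  obtain ⟨Pw, hPw, HPw⟩ := G.model.powerSet _ (prod_mem omega_mem omega_mem)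
  obtain ⟨𝒬, h𝒬, h1, H⟩ := exists_pairSep (M := W) (fun q g => IsFunc omega omega g ∧
    pair q p ∈ LE V κ ∧ ∃ m ∈ omega, Dom (LE V κ) S q g m) (G.PP_mem G.mem) hPw
  have h2 : ∀ x ∈ 𝒬, IsFunc omega omega (snd x) ∧ pair (fst x) p ∈ LE V κ ∧
      ∃ m ∈ omega, Dom (LE V κ) S (fst x) (snd x) m := fun x hx => by
    obtain ⟨q, -, α, -, rfl⟩ := mem_prod.1 (h1 hx)
    simpa only [fst_pair, snd_pair] using ((H _ _).1 hx).2.2
  obtain ⟨m, hm, h3⟩ := I.sigma' (fun m x => Dom (LE V κ) S (fst x) (snd x) m) h𝒬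
    (fun x hx => (h2 x hx).2.2) (by
      rintro ⟨h, hh, h3, h4⟩
      have := InM.mk hh
      have h5 : img (fun n => pair n (insert (app h n) (app h n))) omega ∈ W :=
        Tm.mem' (t := fun _ => _) inferInstance
      have h6 := isFunc_graph fun n hn => omega_succ (h3 n hn)
      obtain ⟨q, h7, h8⟩ := hc _ h5 h6
      obtain ⟨m, hm, h9⟩ := h4 _ ((H _ _).2 ⟨LE.left h7, HPw _ h5 h6.1, h6, h7, h8⟩)
      have h10 := h9 m hm subset_rfl
      rw [snd_pair, app_graph hm] at h10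
      exact mem_irrefl _ (h10 (mem_insert _ _)))
  have := InM.mk (mem_of_mem omega_mem hm : m ∈ W)
  obtain ⟨𝒬', h4, h5, R, h6, h7, h8, h9⟩ := exists_root I (sep_mem _ h𝒬)
    (fun x hx => LE.left (h2 x (mem_sep.1 hx).1).2.1) h3
  have := InM.mk h4
  have := InM.mk h6
  have h10 : ∀ x ∈ 𝒬', ∀ n ∈ omega, (app (snd x) n).IsOrdinal := fun x hx n hn =>
    isOrdinal_omega'.mem (app_mem_of_isFunc (h2 x (mem_sep.1 (h5 hx)).1).1 hn).2
  obtain ⟨n, hn, h11, h12⟩ : ∃ n ∈ omega, m ⊆ n ∧ ∀ E ∈ W, (E : Set ZFSet.{u}).Finite →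
      ∀ j ∈ omega, ∃ x ∈ 𝒬', Av R E x ∧ j ∈ app (snd x) n := by
    by_contra h11
    push Not at h11
    obtain ⟨C, hC, h12⟩ := G.choice (fun y n => FinLe (fst y) omega ∧ snd y ∈ omega ∧
      (m ⊆ n → ∀ x ∈ 𝒬', Av R (fst y) x → ¬ snd y ∈ app (snd x) n)) omega_mem fun n hn => by
        by_cases h : m ⊆ n
        · obtain ⟨E, e1, e2, j, e3, e4⟩ := h11 n hn h
          exact ⟨_, pair_mem e1 (mem_of_mem omega_mem e3), by
            simpa only [fst_pair, snd_pair, finLe_omega] using ⟨e2, e3, fun _ => e4⟩⟩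
        · exact ⟨_, pair_mem Trans.empty Trans.empty, by simp [finLe_omega, h]⟩
    have := InM.mk hC
    refine h9 (fun n => fst (app C n)) inferInstance (fun n hn => (h12 n hn).1.1)
      ⟨img (fun n => pair n (snd (app C n))) omega, Tm.mem' (t := fun _ => _) inferInstance,
        fun n hn => app_graph hn ▸ (h12 n hn).2.1, fun x hx => ⟨m, hm, fun n hn h => ?_⟩⟩
    rw [app_graph hn]
    obtain ⟨e1, e2⟩ := mem_sep.1 hx
    exact ((isOrdinal_omega'.mem (h12 n hn).2.1).notMem_iff_subset (h10 x e1 n hn)).1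
      ((h12 n hn).2.2 h x e1 (e2 n hn))
  have := InM.mk (mem_of_mem omega_mem hn : n ∈ W)
  obtain ⟨q, hq, h13⟩ := G.limit h4 (fun x hx => LE.left (h2 x (mem_sep.1 (h5 hx)).1).2.1) h6 h7 h8
    omega_mem isOrdinal_omega' omega_zero (fun x => app (snd x) n) inferInstance
    (fun x hx => h10 x hx n hn) h12
  obtain ⟨x, hx, -, y, e1, e2⟩ := h13 q (PP.refl hq) _ omega_zero
  obtain ⟨r, e3, j, e4, e5⟩ := tot y (hE _ _ _ e2 (h2 x (mem_sep.1 (h5 hx)).1).2.1) n hn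
  obtain ⟨x', hx', e6, y', e7, e8⟩ := h13 r (hE _ _ _ e3 e1) j e4
  exact (mem_sep.1 (h5 hx')).2 n hn h11 j e6 y' e8 (e5.mono hE e7)

/-- No real of the extension dominates the ground model reals. -/
theorem Ground.not_dominating {H d : ZFSet.{u}} (hH : IsGeneric W (PP V κ) (LE V κ) H)
    (hd : d ∈ genericExt W H) (hf : IsFunc omega omega d) :
    ∃ g ∈ W, IsFunc omega omega g ∧ ∀ m ∈ omega, ∃ n ∈ omega, m ⊆ n ∧
      ∃ i j, pair n i ∈ g ∧ pair n j ∈ d ∧ j ∈ i := by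
  have hF := G.isForcing G.ord subset_rfl
  have hP := G.PP_mem G.mem
  have hE := G.LE_mem G.mem
  obtain ⟨S, hS, -, -, h1⟩ := exists_nice hF hP hE hH hd (prod_mem omega_mem omega_mem)
  have := InM.mk hS
  have := InM.mk hE
  obtain ⟨p0, hp0⟩ := hH.nonempty hF hP
  obtain ⟨p, hp, h2⟩ := hH.below hF hP hE (fun p =>
    (∃ n ∈ omega, ∀ j ∈ omega, DF (LE V κ) p S (pair n j)) ∨
    ∃ g ∈ W, IsFunc omega omega g ∧ ∀ q, pair q p ∈ LE V κ → ∀ m ∈ omega,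
      ¬ Dom (LE V κ) S q g m) hp0 fun p hp => by
    by_cases h : ∀ r, pair r p ∈ LE V κ → ∀ n ∈ omega, ∃ r', pair r' r ∈ LE V κ ∧
      ∃ j ∈ omega, DT (LE V κ) r' S (pair n j)
    · exact ⟨p, hF.rfl' hp, Or.inr (G.exists_undominated hS (LE.left hp) h)⟩
    · push Not at h
      obtain ⟨r, e1, n, e2, e3⟩ := h
      exact ⟨r, e1, Or.inl ⟨n, e2, fun j hj r' h => e3 r' h j hj⟩⟩
  rcases h2 with ⟨n, hn, h2⟩ | ⟨g, hg, h2, h3⟩
  · obtain ⟨e1, e2⟩ := app_mem_of_isFunc hf hn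
    exact (DF.val hH hp (h2 _ e2) ((h1 _ (hf.1 e1)).1 e1)).elim
  refine ⟨g, hg, h2, fun m hm => ?_⟩
  have := InM.mk hg
  have := InM.mk (mem_of_mem omega_mem hm : m ∈ W)
  obtain ⟨q, hq, n, hn, e1, j, e2, e3⟩ := hH.below hF hP hE (fun q => ∃ n ∈ omega, m ⊆ n ∧
    ∃ j ∈ app g n, DT (LE V κ) q S (pair n j)) hp fun q hq => by
      have h4 := h3 q hq m hm
      simp only [Dom, DF] at h4
      push Not at h4
      obtain ⟨n, hn, e1, j, e2, r, e3, e4⟩ := h4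
      exact ⟨r, e3, n, hn, e1, j, e2, e4⟩
  obtain ⟨e4, e5⟩ := app_mem_of_isFunc h2 hn
  exact ⟨n, hn, e1, _, j, e4, (h1 _ (pair_mem_prod.2 ⟨hn, isOrdinal_omega'.mem_trans e2 e5⟩)).2
    (DT.val hH hq e3), e2⟩

end Pool.Agent.P.MP_0d94a4_lc
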