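import Pool.Agent.P.MP_0d94a4_lc.Dom

/-!
The generic predictor added at one coordinate.
-/

universe u

set_option synthInstance.maxSize 16384

namespace Pool.Agent.P.MP_0d94a4_lc

open ZFSet Pool.Agent.Lib.Forcing

variable {W : Set ZFSet.{u}} [ZFm W] {κ V γ ζ ξ : ZFSet.{u}} (G : Ground W κ V)
  (hγ : γ ∈ κ) (hl : Lim γ) (hζ : ζ ∈ W) (hζ' : ζ ⊆ omega.prod (PP V γ))
include G hγ hl hζ hζ'

theorem Ground.dense_coord (hξ : ξ ∈ W) (hξ' : ξ ⊆ omega.prod (PP V γ)) {m p : ZFSet.{u}}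
    (hm : m ∈ omega) (hp : p ∈ PP V κ) :
    ∃ q, pair q p ∈ LE V κ ∧ ∃ w, pair (pair γ ζ) w ∈ q ∧ (∃ i, pair i ξ ∈ snd w) ∧
      ∃ k ∈ omega, m ⊆ k ∧ fst (fst w) = insert k k ∧ Dec (LE V γ) (res q γ) ξ (insert k k) ∧
        ∀ n ∈ omega, (pair k (pair {∅} n) ∈ th (fst w) ↔
          n ∈ MP_0d94a4_lc.tr (LE V γ) (res q γ) ξ (insert k k)) := by
  have ho := G.ord.mem hγ
  have hs := G.ord.subset_of_mem hγ
  have hF := G.isForcing ho hs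
  have hE : Tr (LE V γ) := hF.trans
  have hv := G.res_PP ho hs hp
  obtain ⟨s, F, h1, h2, h3, h4⟩ : ∃ s F, OKw γ (pair s F) ∧ F ∈ W ∧ Zreq (LE V γ) (res p γ) ζ s ∧
      ∀ w, pair (pair γ ζ) w ∈ p → w = pair s F := by
    by_cases h : ∃ w, pair (pair γ ζ) w ∈ p
    · obtain ⟨w, hw⟩ := h
      have h1 := P0.okw (PP.p0 hp) hw
      have h2 := PP.valid hp _ _ hw
      obtain ⟨s, F, rfl, -⟩ := id h1
      simp only [fst_pair, snd_pair] at h1 h2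
      exact ⟨s, F, h1, snd_mem_of_pair_mem (snd_mem (G.p0_mem (PP.p0 hp)) hw), h2,
        fun w h => P0.fn (PP.p0 hp) _ _ h _ hw⟩
    · refine ⟨pair ∅ (pair ∅ ∅), ∅, ⟨_, _, rfl, hf_pair hf_empty (hf_pair hf_empty hf_empty),
        by simp, fun _ _ h => (notMem_empty _ h).elim, fun _ h => (notMem_empty _ h).elim⟩,
        Trans.empty, Or.inr ?_, fun w hw => (h ⟨w, hw⟩).elim⟩
      have h1 : aset (pair ∅ (pair ∅ ∅)) ∪ (cap (pair ∅ (pair ∅ ∅))).prod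
          (cap (pair ∅ (pair ∅ ∅))) = (∅ : ZFSet.{u}) := by
        ext z; simp [aset, cap, mem_prod]
      rw [h1]
      simp [Dec, FinLe]
  have h5 := h1.finite
  obtain ⟨_, _, h6, h7, h8, h9, h10⟩ := h1
  obtain ⟨rfl, rfl⟩ := pair_inj.1 h6
  rw [snd_pair] at h5
  have hc := hf_fst (hf_snd h7)
  have h11 : ∀ i τ, pair i τ ∈ F → i ∈ cap s := fun i τ h => by
    obtain ⟨i', τ', e1, e2, -⟩ := h10 _ h
    rwa [(pair_inj.1 e1).1]
  obtain ⟨v, a1, s', a2, a3, a4, a5, a6, k, a7, a8, a9, a10, a11⟩ :=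
    locExt hF hv h7 h8 h9 h5 h11 h3 (hf_insert hc hc) (ξ := ξ) hm
  have a12 : fst s' ∈ omega := a9 ▸ omega_succ a7
  obtain ⟨y, -, b1, b2, b3⟩ := G.glue G.ord subset_rfl ho hs (LE.left a1) (S := {p})
    (D := insert (pair γ ζ) {c | (∃ w, pair c w ∈ p) ∧ fst c ∉ γ}) (by rintro _ rfl; exact ⟨hp, a1⟩)
    (((finite_dom (PP.p0 hp)).subset fun _ h => h.1).insert _)
    (by rintro _ rfl c w h h'; exact Or.inr ⟨⟨w, h⟩, h'⟩)
    (by
      rintro c (rfl | h)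
      exacts [by simpa using mem_irrefl γ, h.2])
    (fun c w => c = pair γ ζ → w = pair s' (insert (pair (cap s) ξ) F)) (by
      intro c hc'
      by_cases e : c = pair γ ζ
      · subst e
        refine ⟨_, fun _ => rfl, pair_mem (pair_mem (mem_of_mem G.mem hγ) hζ) (pair_mem
          (hf_mem_model a2) (insert_mem (pair_mem (hf_mem_model hc) hξ) h2)),
          ⟨_, _, rfl, ⟨γ, ζ, rfl, hγ, hl, rk_name ho hl hζ'⟩, s', _, rfl, a2, a12,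
            fun i τ e1 τ' e2 => ?_, fun y hy => ?_⟩, fun x hx _ => ?_⟩
        · rcases mem_insert_iff.1 e1 with e1 | e1 <;> rcases mem_insert_iff.1 e2 with e2 | e2
          · exact (pair_inj.1 e1).2.trans (pair_inj.1 e2).2.symm
          · exact (mem_irrefl _ ((pair_inj.1 e1).1 ▸ h11 _ _ e2)).elim
          · exact (mem_irrefl _ ((pair_inj.1 e2).1 ▸ h11 _ _ e1)).elim
          · exact h9 _ _ e1 _ e2
        · rw [a3, fst_pair]
          rcases mem_insert_iff.1 hy with rfl | hy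
          · exact ⟨_, _, rfl, mem_insert _ _, rk_name ho hl hξ'⟩
          · obtain ⟨i, τ, e1, e2, e3⟩ := h10 y hy
            exact ⟨i, τ, e1, mem_insert_of_mem _ e2, e3⟩
        · simp only [fst_pair, snd_pair] at hx ⊢
          refine ⟨a5.mono hE a12 hx, ?_⟩
          rintro _ rfl w0 h0
          rw [h4 w0 h0]
          simp only [EExt, fst_pair, snd_pair]
          exact ⟨a4, fun i τ h => ⟨⟨i, mem_insert_of_mem _ h⟩, (a6 i τ h).mono hE hx⟩⟩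
      · obtain ⟨⟨w, h⟩, -⟩ := hc'.resolve_left e
        refine ⟨w, fun h => (e h).elim, mem_of_mem (G.p0_mem (PP.p0 hp)) h,
          (mem_sep.1 (PP.p0 hp)).2.2.2 _ h, fun x _ hx => ⟨G.zreq G.ord subset_rfl hp h (hx p rfl), ?_⟩⟩
        rintro _ rfl w0 h0
        exact G.eext G.ord subset_rfl hp h (hx _ rfl) (Ext.of_subset subset_rfl) h0)
  obtain ⟨w, b4, b5⟩ := b3 _ (Set.mem_insert _ _)
  obtain rfl := b5 rfl
  have b6 := G.res_le ho hs b1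
  rw [res_eq (PP.p0 (LE.left a1))] at b6
  refine ⟨y, b2 p rfl, _, b4, ⟨cap s, by simp⟩, k, a7, a8, by simpa using a9, a10.mono hE b6,
    fun n _ => ?_⟩
  rw [a10.tr_eq hE b6, fst_pair]
  exact a11 n

/-- The relation coded by the stems at the coordinate `c`. -/
def Code (H c d x : ZFSet.{u}) : Prop :=
  ∃ p ∈ H, ∃ w, pair c w ∈ p ∧ d ∈ fst (fst w) ∧ pair d x ∈ th (fst w)

theorem Ground.predictor {H z : ZFSet.{u}} (hH : IsGeneric W (PP V κ) (LE V κ) H)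
    (hz : ∀ n ∈ omega, (n ∈ z ↔ ∃ p ∈ H, pair n p ∈ ζ)) (hz' : ∀ m ∈ omega, ∃ n ∈ omega, n ∉ m ∧ n ∈ z) :
    (∀ k ∈ omega, {d | d ∈ k ∧ Code H (pair γ ζ) d ∅}.encard ≤ ((z ∩ k : ZFSet.{u}) : Set ZFSet.{u}).encard) ∧
    ∀ ξ ∈ W, ξ ⊆ omega.prod (PP V γ) → ∀ x, (∀ n ∈ omega, (n ∈ x ↔ ∃ p ∈ H, pair n p ∈ ξ)) →
      ∃ k ∈ omega, (∀ n ∈ omega, (Code H (pair γ ζ) k (pair {∅} n) ↔ n ∈ x ∩ insert k k)) ∧
        ∀ d ∈ omega, k ∈ d → ¬ Code H (pair γ ζ) d ∅ →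
          (d ∈ x ↔ Code H (pair γ ζ) d (pair ∅ (x ∩ d))) := by
  have ho := G.ord.mem hγ
  have hs := G.ord.subset_of_mem hγ
  have hF := G.isForcing G.ord subset_rfl
  have hP := G.PP_mem G.mem
  have hE := G.LE_mem G.mem
  have hH' := G.generic_res hγ hH
  have hres : ∀ p ∈ H, res p γ ∈ H ∩ PP V γ := fun p hp => mem_inter.2
    ⟨hH.upward _ _ hp (G.le_res ho subset_rfl hs (hH.subset hp)), G.res_PP ho hs (hH.subset hp)⟩
  have hname : ∀ ξ, ξ ⊆ omega.prod (PP V γ) → ∀ n,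
      (∃ p ∈ H ∩ PP V γ, pair n p ∈ ξ) ↔ ∃ p ∈ H, pair n p ∈ ξ := fun ξ h n =>
    ⟨fun ⟨p, h1, h2⟩ => ⟨p, (mem_inter.1 h1).1, h2⟩,
      fun ⟨p, h1, h2⟩ => ⟨p, mem_inter.2 ⟨h1, (pair_mem_prod.1 (h h2)).2⟩, h2⟩⟩
  have common : ∀ p ∈ H, ∀ w, pair (pair γ ζ) w ∈ p → ∀ p' ∈ H, ∀ w', pair (pair γ ζ) w' ∈ p' →
      ∃ r ∈ H, ∃ w'', pair (pair γ ζ) w'' ∈ r ∧ EExt (LE V γ) (res r γ) w'' w ∧
        SExt (fst w'') (fst w') := by
    intro p hp w h1 p' hp' w' h2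
    obtain ⟨r, hr, h3, h4⟩ := hH.directed p hp p' hp'
    obtain ⟨w1, h5, h6⟩ := LE.ext h3 _ _ h1
    obtain ⟨w2, h7, h8⟩ := LE.ext h4 _ _ h2
    obtain rfl := P0.fn (PP.p0 (LE.left h3)) _ _ h5 _ h7
    rw [fst_pair] at h6
    exact ⟨r, hr, w1, h5, h6, h8.1⟩
  have coh : ∀ p ∈ H, ∀ w, pair (pair γ ζ) w ∈ p → ∀ d ∈ fst (fst w), ∀ x,
      (Code H (pair γ ζ) d x ↔ pair d x ∈ th (fst w)) := by
    refine fun p hp w h1 d hd x => ⟨?_, fun h => ⟨p, hp, w, h1, hd, h⟩⟩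
    rintro ⟨p', hp', w', h2, h3, h4⟩
    obtain ⟨r, -, w'', -, h5, h6⟩ := common p hp w h1 p' hp' w' h2
    exact (h5.1.iff hd x).1 ((h6.iff h3 x).2 h4)
  have dens : ∀ ξ ∈ W, ξ ⊆ omega.prod (PP V γ) → ∀ m ∈ omega, ∃ q ∈ H, ∃ w,
      pair (pair γ ζ) w ∈ q ∧ (∃ i, pair i ξ ∈ snd w) ∧
      ∃ k ∈ omega, m ⊆ k ∧ fst (fst w) = insert k k ∧ Dec (LE V γ) (res q γ) ξ (insert k k) ∧
        ∀ n ∈ omega, (pair k (pair {∅} n) ∈ th (fst w) ↔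
          n ∈ MP_0d94a4_lc.tr (LE V γ) (res q γ) ξ (insert k k)) := by
    intro ξ hξ hξ' m hm
    have := InM.mk hξ
    have := InM.mk hζ
    have := InM.mk (mem_of_mem G.mem hγ)
    have := InM.mk (mem_of_mem omega_mem hm : m ∈ W)
    have := InM.mk G.memV
    obtain ⟨p0, hp0⟩ := hH.nonempty hF hP
    exact hH.below hF hP hE _ hp0 fun p hp => G.dense_coord hγ hl hζ hζ' hξ hξ' hm (LE.left hp)
  have htr : ∀ ξ, ξ ⊆ omega.prod (PP V γ) → ∀ x, (∀ n ∈ omega, (n ∈ x ↔ ∃ p ∈ H, pair n p ∈ ξ)) →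
      ∀ v ∈ H ∩ PP V γ, ∀ m ∈ omega, Dec (LE V γ) v ξ m → MP_0d94a4_lc.tr (LE V γ) v ξ m = x ∩ m := by
    intro ξ h1 x h2 v hv m hm h3
    ext n
    rw [MP_0d94a4_lc.tr, mem_sep, mem_inter, and_comm]
    exact and_congr_left fun hn => by
      rw [h3.val hH' hv hn, hname ξ h1, h2 n (isOrdinal_omega'.mem_trans hn hm)]
  refine ⟨fun k hk => ?_, fun ξ hξ hξ' x hx => ?_⟩
  · obtain ⟨q, hq, w, h1, -, j, hj, h2, h3, -⟩ := dens ζ hζ hζ' k hk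
    have h4 : k ∈ fst (fst w) := h3 ▸ mem_insert_iff.2 (((isOrdinal_omega'.mem hk).subset_iff_eq_or_mem
      (isOrdinal_omega'.mem hj)).1 h2)
    have h5 : k ⊆ fst (fst w) := h3 ▸ fun _ h => mem_insert_of_mem _ (h2 h)
    have h6 := PP.valid (hH.subset hq) _ _ h1
    simp only [fst_pair, snd_pair] at h6
    rcases h6 with ⟨m, hm, h6⟩ | ⟨h6, -, h7⟩
    · obtain ⟨n, hn, h7, h8⟩ := hz' m hm
      exact (DF.val hH' (hres q hq) (h6 n hn h7) ((hname _ hζ' n).2 ((hz n hn).1 h8))).elim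
    · rw [← htr ζ hζ' z hz _ (hres q hq) k hk (h6.subset h5)]
      exact le_trans (Set.encard_le_encard fun d hd => mem_inter.2
        ⟨mem_sep.2 ⟨h5 hd.1, (coh q hq w h1 d (h5 hd.1) ∅).1 hd.2⟩, hd.1⟩) (h7 k h4).2
  · obtain ⟨q, hq, w, h1, ⟨i, h2⟩, k, hk, -, h3, h4, h5⟩ := dens ξ hξ hξ' _ omega_zero
    refine ⟨k, hk, fun n hn => ?_, fun d hd h6 h7 => ?_⟩
    · rw [coh q hq w h1 k (h3 ▸ mem_insert _ _), h5 n hn,
        htr ξ hξ' x hx _ (hres q hq) _ (omega_succ hk) h4]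
    · obtain ⟨q', hq', w', h8, -, j, hj, h9, h10, -⟩ := dens ξ hξ hξ' d hd
      obtain ⟨r, hr, w'', h11, h12, h13⟩ := common q hq w h1 q' hq' w' h8
      have h14 : d ∈ fst (fst w'') := h13.1 (h10 ▸ mem_insert_iff.2
        (((isOrdinal_omega'.mem hd).subset_iff_eq_or_mem (isOrdinal_omega'.mem hj)).1 h9))
      obtain ⟨h15, h16⟩ := (h12.2 i ξ h2).2 d h14 (h3 ▸ fun h => (mem_insert_iff.1 h).elim
        (fun h => mem_irrefl _ (h ▸ h6)) (mem_asymm h6)) (mt (coh r hr _ h11 d h14 _).2 h7)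
      rw [coh r hr _ h11 d h14, ← htr ξ hξ' x hx _ (hres r hr) d hd
        (h15.subset fun _ h => mem_insert_of_mem _ h), ← h16, h15.val hH' (hres r hr) (mem_insert _ _),
        hname ξ hξ', hx d hd]

end Pool.Agent.P.MP_0d94a4_lc
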