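import Mathlib.SetTheory.Cardinal.Regular
import Mathlib.SetTheory.Cardinal.Ordinal
import Pool.Agent.P.MP_0d94a4_lc.Rapid
import Pool.Agent.P.MP_0d94a4_lc.Defs

/-!
The ground model and the final argument.
-/

universe u

set_option synthInstance.maxSize 16384

namespace Pool.Agent.P.MP_0d94a4_lc

open ZFSet Pool.Agent.Lib.Forcing
open Ordinal hiding omega

def Good (M : Set ZFSet.{u}) : Prop :=
  ∃ w ∈ M, ∃ κ ∈ M, IsOmega w ∧ κ.IsOrdinal ∧ w ∈ κ ∧ (∀ δ ∈ κ, insert δ δ ∈ κ) ∧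
    (∀ α ∈ κ, ∃ γ ∈ κ, α ⊆ γ ∧ w ∈ γ ∧ ∀ δ ∈ γ, insert δ δ ∈ γ) ∧
    (∀ Z ∈ M, (∀ k ∈ w, ∃ α ∈ κ, pair k α ∈ Z) → ∃ β ∈ κ, ∀ k ∈ w, ∃ α ∈ β, pair k α ∈ Z) ∧
    ∀ Z ∈ M, (∀ i ∈ w, ∀ j ∈ w, ∃ α ∈ κ, pair (pair i j) α ∈ Z) →
      ∃ β ∈ κ, ∀ i ∈ w, ∀ j ∈ w, ∃ α ∈ β, pair (pair i j) α ∈ Z

instance : UDf.{u} (fun M _ => Good M) := by unfold Good; infer_instance

theorem succCl_toZFSet {a : Ordinal.{u}} (h : Order.IsSuccLimit a) : SuccCl (toZFSet a) := by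
  intro δ hδ
  obtain ⟨b, hb, rfl⟩ := mem_toZFSet_iff.1 hδ
  rw [← toZFSet_add_one, toZFSet_mem_toZFSet_iff]
  exact h.add_one_lt hb

theorem exists_bound {ι : Type} [Countable ι] (f : ι → ZFSet.{u}) (h : ∀ i, f i ∈ toZFSet ω₁) :
    ∃ β ∈ toZFSet ω₁, ∀ i, f i ∈ β := by
  refine ⟨toZFSet (⨆ i, ((f i).rank + 1)), toZFSet_mem_toZFSet_iff.2
    (iSup_lt_omega_one fun i => ?_), fun i => ?_⟩
  · obtain ⟨a, ha, h1⟩ := mem_toZFSet_iff.1 (h i)
    rw [← h1, rank_toZFSet]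
    exact (Cardinal.isSuccLimit_omega 1).add_one_lt ha
  · obtain ⟨a, ha, h1⟩ := mem_toZFSet_iff.1 (h i)
    rw [← h1, toZFSet_mem_toZFSet_iff]
    refine lt_of_lt_of_le ?_ (Ordinal.le_iSup (fun i => (f i).rank + 1) i)
    simp [← h1]

theorem good_univ : Good (Set.univ : Set ZFSet.{u}) := by
  have ho := isOrdinal_toZFSet.{u} ω₁
  have hs := succCl_toZFSet (Cardinal.isSuccLimit_omega.{u} 1)
  have h1 : ∀ n, nat.{u} n ∈ toZFSet ω₁ := fun n => by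
    induction n with
    | zero => rw [nat, ← toZFSet_zero, toZFSet_mem_toZFSet_iff]; exact omega_pos 1
    | succ n ih => exact hs _ ih
  have h2 : omega.{u} ∈ toZFSet ω₁ := by
    obtain ⟨β, hβ, h⟩ := exists_bound nat h1
    exact isOrdinal_omega'.mem_of_subset_of_mem ho (fun x hx => by
      obtain ⟨n, rfl⟩ := mem_omega_iff.1 hx
      exact h n) hβ
  refine ⟨omega, trivial, toZFSet ω₁, trivial, isOmega_iff.2 rfl, ho, h2, hs, fun α hα => ?_,
    fun Z _ h => ?_, fun Z _ h => ?_⟩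
  · obtain ⟨β, hβ, h⟩ := exists_bound (fun b : Bool => if b then α else omega) fun b => by
      cases b <;> simpa
    obtain ⟨b, hb, rfl⟩ := mem_toZFSet_iff.1 hβ
    have h3 : toZFSet b ⊆ toZFSet (b + ω) := toZFSet_subset_toZFSet_iff.2 le_self_add
    exact ⟨_, toZFSet_mem_toZFSet_iff.2 (isPrincipal_add_omega 1 hb omega0_lt_omega_one),
      (isOrdinal_toZFSet _).subset_of_mem (h3 (h true)), h3 (h false),
      succCl_toZFSet (isSuccLimit_add _ isSuccLimit_omega0)⟩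
  · choose f h3 h4 using fun n => h _ (nat_mem_omega n)
    obtain ⟨β, hβ, h5⟩ := exists_bound f h3
    refine ⟨β, hβ, fun k hk => ?_⟩
    obtain ⟨n, rfl⟩ := mem_omega_iff.1 hk
    exact ⟨_, h5 n, h4 n⟩
  · choose f h3 h4 using fun n : ℕ × ℕ => h _ (nat_mem_omega n.1) _ (nat_mem_omega n.2)
    obtain ⟨β, hβ, h5⟩ := exists_bound f h3
    refine ⟨β, hβ, fun i hi j hj => ?_⟩
    obtain ⟨m, rfl⟩ := mem_omega_iff.1 hi
    obtain ⟨n, rfl⟩ := mem_omega_iff.1 hj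
    exact ⟨_, h5 (m, n), h4 (m, n)⟩

theorem mem_base {a x : ZFSet.{u}} : x ∈ base a ↔ x = a ∨ x ∈ a ∨ (∃ z ∈ a, x ∈ z) ∨ x ∈ omega := by
  simp only [base, mem_insert_iff, mem_union, mem_sUnion, or_assoc]

theorem trans_base {a : ZFSet.{u}} (ha : a ⊆ omega.prod omega) :
    Trans (base a : Set ZFSet.{u}) := by
  refine ⟨fun x hx y hy => mem_base.2 (Or.inr ?_), mem_base.2 (by simp)⟩
  rcases mem_base.1 hx with rfl | hx | ⟨z, hz, hx⟩ | hx
  · exact Or.inl hy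
  · exact Or.inr (Or.inl ⟨x, hx, hy⟩)
  · obtain ⟨m, hm, n, hn, rfl⟩ := mem_prod.1 (ha hz)
    rcases mem_pair.1 hx with rfl | rfl
    · exact Or.inr (Or.inr (mem_singleton.1 hy ▸ hm))
    · rcases mem_pair.1 hy with rfl | rfl
      exacts [Or.inr (Or.inr hm), Or.inr (Or.inr hn)]
  · exact Or.inr (Or.inr (isOrdinal_omega'.mem_trans hy hx))

theorem base_mem {N : Set ZFSet.{u}} [ZFm N] {a : ZFSet.{u}} (ha : a ∈ N) : base a ∈ N :=
  insert_mem ha (union_mem (union_mem ha (sUnion_mem ha)) omega_mem)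

theorem exists_ground : ∃ (W : Set ZFSet.{u}) (κ V a : ZFSet.{u}), Ground W κ V ∧ a ∈ W ∧
    IsFunc omega omega a ∧ W ⊆ Lrel W a := by
  obtain ⟨M, j, hc, hj⟩ := exists_countable_isElem.{u}
  have hM := hj.isZFModel
  have := hM.zfm
  obtain ⟨w, -, κ, hκ, h1, h2, h3, h4, h5, h6, h7⟩ := hj.sentence Good good_univ
  obtain rfl := isOmega_iff.1 h1
  have ha : IsFunc omega omega (img (fun n => pair n (∅ : ZFSet.{u})) omega) :=
    isFunc_graph fun _ _ => omega_zero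
  have haM : img (fun n => pair n (∅ : ZFSet.{u})) omega ∈ M :=
    Tm.mem' (t := fun _ => _) inferInstance
  generalize img (fun n => pair n (∅ : ZFSet.{u})) omega = a at ha haM
  have := trans_base ha.1
  have hb := base_mem haM
  have hW := isZFModel_constr hM.powerSet hb
  have hs := constr_subset hM.powerSet hb
  have hbW : base a ∈ constr M (base a) := base_mem_constr
  have hV : constr M (base a) ⊆ constr (constr M (base a)) (base a) :=
    (constr_congr fun α hα => ⟨fun h => ordinal_mem_constr hM.powerSet hb h hα, fun h => hs h⟩).le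
  have hκW := ordinal_mem_constr hM.powerSet hb hκ h2
  generalize constr M (base a) = W at *
  have := hW.zfm
  have haW : a ∈ W := mem_of_mem hbW (mem_insert _ _)
  obtain ⟨V, hV1, hV2⟩ := exists_rank_le hW.powerSet κ hκW h2
  refine ⟨W, κ, V, a, ⟨hW, enum_of_constr hW.powerSet haW hbW hV fun C e1 e2 e3 x hx => ?_,
    hc.mono hs, hκW, h2, hV1, hV2, ⟨h3, h4⟩, h5, fun Z hZ => h6 Z (hs hZ), fun Z hZ h => ?_⟩,
    haW, ha, hV⟩
  · have e4 : ∀ n ∈ omega, n ∈ C := fun n hn =>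
      e1 n (mem_of_mem omega_mem hn) (isOrdinal_omega'.mem hn)
    have e5 : ∀ n ∈ omega, {n} ∈ C := fun n hn => by simpa using e3 n (e4 n hn) n (e4 n hn)
    rcases mem_base.1 hx with rfl | hx | ⟨z, hz, hx⟩ | hx
    · exact e2
    · obtain ⟨m, hm, n, hn, rfl⟩ := mem_prod.1 (ha.1 hx)
      exact e3 _ (e5 m hm) _ (e3 m (e4 m hm) n (e4 n hn))
    · obtain ⟨m, hm, n, hn, rfl⟩ := mem_prod.1 (ha.1 hz)
      rcases mem_pair.1 hx with rfl | rfl
      exacts [e5 m hm, e3 m (e4 m hm) n (e4 n hn)]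
    · exact e4 x hx
  · obtain ⟨β, hβ, H⟩ := h7 Z (hs hZ) fun i hi j hj => h _ (pair_mem_prod.2 ⟨hi, hj⟩)
    refine ⟨β, hβ, fun k hk => ?_⟩
    obtain ⟨i, hi, j, hj, rfl⟩ := mem_prod.1 hk
    exact H i hi j hj

variable {W : Set ZFSet.{u}} [ZFm W] {κ V H : ZFSet.{u}} (G : Ground W κ V)
  (hH : IsGeneric W (PP V κ) (LE V κ) H)
include G hH

theorem Ground.choice_ext : Choice (genericExt W H) := by
  have hF := G.isForcing G.ord subset_rfl
  have hP := G.PP_mem G.mem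
  have hN := G.model.genericExt hF hP (G.LE_mem G.mem) hH
  have := hN.zfm
  have hWN := subset_genericExt hF hP hH
  have cover := fun x => exists_cover (x := x) hF hP hH
  generalize genericExt W H = N at *
  intro x hx h0
  obtain ⟨f, hf, h1, h2, h3⟩ := exists_choice hN.powerSet (fun x hx => by
    obtain ⟨T, hT, v, hv, h2, h3⟩ := cover x hx
    obtain ⟨α, hα, ho, r, hr, h4, h5⟩ := G.enum T hT
    have := InM.mk hv
    have := InM.mk (hWN hr)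
    obtain ⟨t, ht, -, Ht⟩ := exists_pairSep (M := N)
      (fun ξ y => ∃ σ, pair ξ σ ∈ r ∧ pair σ y ∈ v) (hWN hα) hx
    refine ⟨α, hWN hα, ho, t, ht, fun ξ y h y' h' => ?_, fun y hy => ?_⟩
    · obtain ⟨-, -, σ, e1, e2⟩ := (Ht _ _).1 h
      obtain ⟨-, -, σ', e3, e4⟩ := (Ht _ _).1 h'
      obtain rfl := h4 _ _ e1 _ e3
      exact h2 _ _ _ e2 e4
    · obtain ⟨σ, e1, e2⟩ := h3 y hy
      obtain ⟨ξ, e3, e4⟩ := h5 σ e1
      exact ⟨ξ, e3, (Ht _ _).2 ⟨e3, hy, σ, e4, e2⟩⟩) (fun z y => z ∈ y) hx fun y hy => by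
    obtain ⟨z, hz⟩ := (eq_empty_or_nonempty y).resolve_left fun h => h0 (h ▸ hy)
    exact ⟨z, mem_of_mem (mem_of_mem hx hy) hz, hz⟩
  refine ⟨f ∩ x.prod (⋃₀ x), inter_mem hf (prod_mem hx (sUnion_mem hx)),
    ⟨fun _ h => (mem_inter.1 h).2, fun y hy => ?_⟩, fun y z h => (h3 y z (mem_inter.1 h).1).2⟩
  obtain ⟨z, hz⟩ := h2 y hy
  exact ⟨z, mem_inter.2 ⟨hz, pair_mem_prod.2 ⟨hy, mem_sUnion.2 ⟨y, hy, (h3 y z hz).2⟩⟩⟩,
    fun z' h => h1 _ _ (mem_inter.1 h).1 _ hz⟩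

theorem Ground.propR : PropR (genericExt W H) := by
  have hF := G.isForcing G.ord subset_rfl
  have hP := G.PP_mem G.mem
  have hN := G.model.genericExt hF hP (G.LE_mem G.mem) hH
  have := hN.zfm
  have hWN := subset_genericExt hF hP hH
  have hHN := generic_mem hF hP hH
  intro a ha haf f hf hff mono
  have := InM.mk hf
  have hz := sep_mem (M := genericExt W H) (fun k => ∃ n j, pair n j ∈ f ∧ k = j ∪ n) omega_mem
  obtain ⟨β1, h1, ζ, hζ, h2, h3⟩ := G.name_res hH omega_mem G.cof1 hz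
  obtain ⟨β2, h4, S, hS, h5, h6⟩ := G.name_res hH (prod_mem omega_mem omega_mem) G.cof2 ha
  obtain ⟨γ, hγ, h7, h8, hl⟩ : ∃ γ ∈ κ, β1 ⊆ γ ∧ β2 ⊆ γ ∧ Lim γ := by
    rcases (G.ord.mem h1).subset_total (G.ord.mem h4) with h | h
    · obtain ⟨γ, e1, e2, e3⟩ := G.lims _ h4
      exact ⟨γ, e1, h.trans e2, e2, e3⟩
    · obtain ⟨γ, e1, e2, e3⟩ := G.lims _ h1
      exact ⟨γ, e1, e2, h.trans e2, e3⟩
  have hζ' : ζ ⊆ omega.prod (PP V γ) := fun z hz => by
    obtain ⟨n, hn, p, hp, rfl⟩ := mem_prod.1 (h2 hz)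
    exact pair_mem_prod.2 ⟨hn, PP_mono h7 hp⟩
  obtain ⟨P1, P2⟩ := G.predictor hγ hl hζ hζ' hH h3 fun m hm => by
    obtain ⟨e1, e2⟩ := app_mem_of_isFunc hff hm
    have e3 := union_mem_omega e2 hm
    exact ⟨_, e3, fun h => mem_irrefl _ (subset_union_right' (app f m) m h),
      mem_sep.2 ⟨e3, _, _, e1, rfl⟩⟩
  have key : ∀ x ∈ Lrel (genericExt W H) a, ∃ ξ ∈ W, ξ ⊆ omega.prod (PP V γ) ∧
      ∀ n ∈ omega, (n ∈ x ↔ ∃ p ∈ H, pair n p ∈ ξ) := by
    have hγW := mem_of_mem G.mem hγ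
    have hF' := G.isForcing (G.ord.mem hγ) (G.ord.subset_of_mem hγ)
    have hH' := G.generic_res hγ hH
    have hN' := G.model.genericExt hF' (G.PP_mem hγW) (G.LE_mem hγW) hH'
    have := hN'.zfm
    have hWN' := subset_genericExt hF' (G.PP_mem hγW) hH'
    have := InM.mk (generic_mem hF' (G.PP_mem hγW) hH')
    have := InM.mk (hWN' hS)
    have ha' : a ∈ genericExt W (H ∩ PP V γ) := by
      convert sep_mem (M := genericExt W (H ∩ PP V γ)) (fun k => ∃ p ∈ H ∩ PP V γ, pair k p ∈ S)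
        (prod_mem omega_mem omega_mem)
      ext k
      rw [mem_sep]
      constructor
      · intro hk
        obtain ⟨p, e1, e2⟩ := (h6 k (haf.1 hk)).1 hk
        exact ⟨haf.1 hk, p, mem_inter.2 ⟨e1, PP_mono h8 (pair_mem_prod.1 (h5 e2)).2⟩, e2⟩
      · rintro ⟨e1, p, e2, e3⟩
        exact (h6 k e1).2 ⟨p, (mem_inter.1 e2).1, e3⟩
    intro x hx
    rw [Lrel, constr_congr (N' := genericExt W (H ∩ PP V γ)) fun α hα =>
      ⟨fun h => hWN' (ordinal_mem_of_genericExt h hα),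
        fun h => hWN (ordinal_mem_of_genericExt h hα)⟩] at hx
    obtain ⟨ξ, e1, e2, -, e3⟩ := exists_nice hF' (G.PP_mem hγW) (G.LE_mem hγW) hH'
      (constr_subset hN'.powerSet (base_mem ha') hx) omega_mem
    exact ⟨ξ, e1, e2, fun n hn => (e3 n hn).trans ⟨fun ⟨p, h1, h2⟩ => ⟨p, (mem_inter.1 h1).1, h2⟩,
      fun ⟨p, h1, h2⟩ => ⟨p, mem_inter.2 ⟨h1, (pair_mem_prod.1 (e2 h2)).2⟩, h2⟩⟩⟩
  have hc : pair γ ζ ∈ genericExt W H := hWN (pair_mem (mem_of_mem G.mem hγ) hζ)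
  generalize pair γ ζ = c at *
  generalize genericExt W H = N at *
  have := InM.mk hHN
  have := InM.mk hc
  have hC : ∀ (s t : Env.{u} → ZFSet.{u}) [Tm N s] [Tm N t], Df N (fun e => Code H c (s e) (t e)) :=
    fun s t _ _ => Df.subst2 (R := Code H c) (by unfold Code; infer_instance) s t
  have hL := df_constr hN.powerSet (base_mem ha) (fun e => e 0)
  obtain ⟨Pw, hPw, HPw⟩ := hN.powerSet _ omega_mem
  have hX := sep_mem (M := N) (fun x => x ⊆ omega ∧ x ∈ constr N (base a)) hPw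
  have hX' : ∀ x, x ∈ Pw.sep (fun x => x ⊆ omega ∧ x ∈ constr N (base a)) ↔
      x ⊆ omega ∧ x ∈ Lrel N a := fun x => mem_sep.trans (and_iff_right_of_imp fun h =>
        HPw x (constr_subset hN.powerSet (base_mem ha) h.2) h.1)
  generalize Pw.sep (fun x => x ⊆ omega ∧ x ∈ constr N (base a)) = X at hX hX'
  have := InM.mk hX
  let Y : ZFSet.{u} → ZFSet.{u} := fun k => X.sep fun x =>
    (∀ n ∈ omega, (Code H c k (pair {∅} n) ↔ n ∈ x ∩ insert k k)) ∧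
      ∀ d ∈ omega, k ∈ d → ¬ Code H c d ∅ → (d ∈ x ↔ Code H c d (pair ∅ (x ∩ d)))
  refine ⟨omega.sep fun d => Code H c d ∅, sep_mem _ omega_mem, ⟨sep_subset,
    img (fun k => pair k (Y k)) omega, Tm.mem' (t := fun _ => _) (by unfold Y; infer_instance),
    ⟨powerset X, isFunc_graph fun k _ => mem_powerset.2 sep_subset⟩, fun x => ⟨fun hx => ?_, ?_⟩,
    fun k y h d hd => ?_⟩, fun n j h => ?_⟩
  · obtain ⟨ξ, e1, e2, e3⟩ := key x hx.2
    obtain ⟨k, e4, e5⟩ := P2 ξ e1 e2 x e3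
    exact ⟨k, _, mem_graph.2 ⟨e4, rfl⟩, mem_sep.2 ⟨(hX' x).2 hx, e5⟩⟩
  · rintro ⟨k, y, e1, e2⟩
    obtain ⟨-, rfl⟩ := mem_graph.1 e1
    exact (hX' x).1 (mem_sep.1 e2).1
  · obtain ⟨hk, rfl⟩ := mem_graph.1 h
    obtain ⟨e1, x, hx, y, hy, e2, e3⟩ := mem_sep.1 hd
    obtain ⟨-, e4, e5⟩ := mem_sep.1 hx
    obtain ⟨-, e6, e7⟩ := mem_sep.1 hy
    refine mem_sep.2 ⟨e1, by_contra fun e8 => e3 ?_⟩
    by_cases e9 : k ∈ d
    · rw [e5 d e1 e9 e8, e7 d e1 e9 e8, e2]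
    · have e10 : d ∈ insert k k := mem_insert_iff.2 (((isOrdinal_omega'.mem e1).subset_iff_eq_or_mem
        (isOrdinal_omega'.mem hk)).1 (((isOrdinal_omega'.mem hk).notMem_iff_subset
          (isOrdinal_omega'.mem e1)).1 e9))
      simpa only [mem_inter, e10, and_true] using (e4 d e1).symm.trans (e6 d e1)
  · obtain ⟨hn, hj⟩ := pair_mem_prod.1 (hff.1 h)
    refine le_trans (Set.encard_le_encard fun d hd => ?_) ((P1 j hj).trans (le_trans
      (Set.encard_le_encard (t := (fun m => app f m ∪ m) '' n) fun k hk => ?_)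
      (Set.encard_image_le _ _)))
    · exact ⟨(mem_inter.1 hd).2, (mem_sep.1 (mem_inter.1 hd).1).2⟩
    · obtain ⟨e1, e2⟩ := mem_inter.1 hk
      obtain ⟨-, m, i, e3, rfl⟩ := mem_sep.1 e1
      obtain ⟨hm, hi⟩ := pair_mem_prod.1 (hff.1 e3)
      refine ⟨m, by_contra fun e4 => mem_irrefl _ (subset_union_left' i m (mono n j m i h e3
        (((isOrdinal_omega'.mem hm).notMem_iff_subset (isOrdinal_omega'.mem hn)).1 e4) e2)), ?_⟩
      rw [← (fn_of_isFunc hff).app e3]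

omit G hH in
theorem exists_model : ∃ N : Set ZFSet.{u}, IsZFModel N ∧ Choice N ∧ PropR N ∧ ¬ PropD N := by
  obtain ⟨W, κ, V, a, G, ha, h1, h2⟩ := exists_ground.{u}
  have := G.model.zfm
  have hF := G.isForcing G.ord subset_rfl
  have hP := G.PP_mem G.mem
  obtain ⟨H, -, hH⟩ := exists_generic G.ctble hF (G.empty_mem subset_rfl)
  have hWN := subset_genericExt hF hP hH
  refine ⟨_, G.model.genericExt hF hP (G.LE_mem G.mem) hH, G.choice_ext hH, G.propR hH, fun h => ?_⟩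
  obtain ⟨d, hd, h3, h4⟩ := h a (hWN ha) h1
  obtain ⟨g, hg, h5, h6⟩ := G.not_dominating hH hd h3
  obtain ⟨m, hm, h7⟩ := h4 g (by
    rw [Lrel, constr_congr (N' := W) fun α hα =>
      ⟨fun h => ordinal_mem_of_genericExt h hα, fun h => hWN h⟩]
    exact h2 hg) h5
  obtain ⟨n, -, h8, i, j, h9, h10, h11⟩ := h6 m hm
  exact mem_irrefl _ (h7 n i j h8 h9 h10 h11)

end Pool.Agent.P.MP_0d94a4_lc
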