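import Pool.Agent.P.MP_0d94a4_lc.Basic

/-!
The finite support iteration of predictor forcing, with explicit names.
A condition is a finite function from coordinates `(γ, ζ)` to pairs `(s, F)`; the stem is
`s = (m, l, Θ)` and `F` is a function from a subset of `l` to names.
-/

universe u

set_option synthInstance.maxSize 16384

namespace Pool.Agent.P.MP_0d94a4_lc

open ZFSet Pool.Agent.Lib.Forcing

variable {M : Set ZFSet.{u}}

def DT (E v τ n : ZFSet.{u}) : Prop := ∃ r, pair n r ∈ τ ∧ pair v r ∈ E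
def DF (E v τ n : ZFSet.{u}) : Prop := ∀ v', pair v' v ∈ E → ¬ DT E v' τ n
def Dec (E v τ m : ZFSet.{u}) : Prop := ∀ n ∈ m, DT E v τ n ∨ DF E v τ n
def tr (E v τ m : ZFSet.{u}) : ZFSet.{u} := m.sep fun n => DT E v τ n
abbrev cap (s : ZFSet.{u}) : ZFSet.{u} := fst (snd s)
abbrev th (s : ZFSet.{u}) : ZFSet.{u} := snd (snd s)
def aset (s : ZFSet.{u}) : ZFSet.{u} := (fst s).sep fun d => pair d ∅ ∈ th s

def Junk (E v ζ : ZFSet.{u}) : Prop := ∃ m ∈ omega, ∀ n ∈ omega, ¬ n ∈ m → DF E v ζ n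

def Zreq (E v ζ s : ZFSet.{u}) : Prop :=
  Junk E v ζ ∨ (Dec E v ζ (fst s) ∧ FinLe (aset s ∪ (cap s).prod (cap s)) (tr E v ζ (fst s)) ∧
    ∀ k ∈ fst s, FinLe (aset s ∩ k) (tr E v ζ k))

def Pred (E v τ m s : ZFSet.{u}) : Prop :=
  ∀ d ∈ fst s, ¬ d ∈ m → ¬ pair d ∅ ∈ th s → Dec E v τ (insert d d) ∧
    (DT E v τ d ↔ pair d (pair ∅ (tr E v τ d)) ∈ th s)

def SExt (s' s : ZFSet.{u}) : Prop :=
  fst s ⊆ fst s' ∧ ∀ d ∈ fst s, (∀ x, pair d x ∈ th s' → pair d x ∈ th s) ∧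
    ∀ x, pair d x ∈ th s → pair d x ∈ th s'

def EExt (E v w' w : ZFSet.{u}) : Prop :=
  SExt (fst w') (fst w) ∧ ∀ i τ, pair i τ ∈ snd w →
    (∃ j, pair j τ ∈ snd w') ∧ Pred E v τ (fst (fst w)) (fst w')

def Lim (γ : ZFSet.{u}) : Prop := omega ∈ γ ∧ SuccCl γ

def OKc (β c : ZFSet.{u}) : Prop := ∃ γ ζ, c = pair γ ζ ∧ γ ∈ β ∧ Lim γ ∧ rk ζ ⊆ γ

def OKw (γ w : ZFSet.{u}) : Prop :=
  ∃ s F, w = pair s F ∧ rk s ∈ omega ∧ fst s ∈ omega ∧ Fn F ∧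
    ∀ y ∈ F, ∃ i τ, y = pair i τ ∧ i ∈ cap s ∧ rk τ ⊆ γ

def OKE (β z : ZFSet.{u}) : Prop := ∃ c w, z = pair c w ∧ OKc β c ∧ OKw (fst c) w

def P0 (V β : ZFSet.{u}) : ZFSet.{u} := V.sep fun p => FinLe p omega ∧ Fn p ∧ ∀ z ∈ p, OKE β z

def res (p γ : ZFSet.{u}) : ZFSet.{u} := p.sep fun z => fst (fst z) ∈ γ

def Valid (E : ZFSet.{u} → ZFSet.{u}) (q : ZFSet.{u}) : Prop :=
  ∀ c w, pair c w ∈ q → Zreq (E (fst c)) (res q (fst c)) (snd c) (fst w)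

def Ext (E : ZFSet.{u} → ZFSet.{u}) (q p : ZFSet.{u}) : Prop :=
  ∀ c w, pair c w ∈ p → ∃ w', pair c w' ∈ q ∧ EExt (E (fst c)) (res q (fst c)) w' w

theorem OKc.fst_mem {β c : ZFSet.{u}} (h : OKc β c) : fst c ∈ β := by
  obtain ⟨γ, ζ, rfl, h, -⟩ := h
  rwa [fst_pair]

theorem OKE.pair {β c w : ZFSet.{u}} (h : OKE β (pair c w)) : OKc β c ∧ OKw (fst c) w := by
  obtain ⟨c', w', h, h'⟩ := h
  obtain ⟨rfl, rfl⟩ := pair_inj.1 h
  exact h'

theorem lev_mem {V β p c w : ZFSet.{u}} (hp : p ∈ P0 V β) (h : pair c w ∈ p) : fst c ∈ β :=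
  ((mem_sep.1 hp).2.2.2 _ h).pair.1.fst_mem

theorem step_congr {V β q p : ZFSet.{u}} {E E' : ZFSet.{u} → ZFSet.{u}} (h : ∀ γ ∈ β, E γ = E' γ)
    (hq : q ∈ P0 V β) (hp : p ∈ P0 V β) (H : Valid E q ∧ Valid E p ∧ Ext E q p) :
    Valid E' q ∧ Valid E' p ∧ Ext E' q p :=
  ⟨fun c w h1 => h _ (lev_mem hq h1) ▸ H.1 c w h1, fun c w h1 => h _ (lev_mem hp h1) ▸ H.2.1 c w h1,
    fun c w h1 => h _ (lev_mem hp h1) ▸ H.2.2 c w h1⟩

theorem exists_LE (V : ZFSet.{u}) : ∃ L : ZFSet.{u} → ZFSet.{u}, ∀ β, L β =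
    ((P0 V β).prod (P0 V β)).sep fun z => ∃ q p, z = pair q p ∧ Valid L q ∧ Valid L p ∧ Ext L q p := by
  classical
  let L : ZFSet.{u} → ZFSet.{u} := mem_wf.fix fun β IH =>
    ((P0 V β).prod (P0 V β)).sep fun z => ∃ q p, z = pair q p ∧
      Valid (fun γ => if h : γ ∈ β then IH γ h else ∅) q ∧
      Valid (fun γ => if h : γ ∈ β then IH γ h else ∅) p ∧
      Ext (fun γ => if h : γ ∈ β then IH γ h else ∅) q p
  refine ⟨L, fun β => ?_⟩
  have : L β = ((P0 V β).prod (P0 V β)).sep fun z => ∃ q p, z = pair q p ∧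
      Valid (fun γ => if h : γ ∈ β then L γ else ∅) q ∧
      Valid (fun γ => if h : γ ∈ β then L γ else ∅) p ∧
      Ext (fun γ => if h : γ ∈ β then L γ else ∅) q p := by
    simp only [L]; rw [WellFounded.fix_eq]
  rw [this]
  ext z
  simp only [mem_sep]
  refine and_congr_right fun hz => exists_congr fun q => exists_congr fun p =>
    and_congr_right fun h => ?_
  rw [h, pair_mem_prod] at hz
  exact ⟨step_congr (fun γ hγ => dif_pos hγ) hz.1 hz.2,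
    step_congr (fun γ hγ => by rw [dif_pos hγ]) hz.1 hz.2⟩

/-- The order of the iteration below `β`. -/
noncomputable def LE (V : ZFSet.{u}) : ZFSet.{u} → ZFSet.{u} := (exists_LE V).choose

theorem LE_eq (V β : ZFSet.{u}) : LE V β = ((P0 V β).prod (P0 V β)).sep fun z =>
    ∃ q p, z = pair q p ∧ Valid (LE V) q ∧ Valid (LE V) p ∧ Ext (LE V) q p :=
  (exists_LE V).choose_spec β

theorem mem_LE {V β q p : ZFSet.{u}} : pair q p ∈ LE V β ↔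
    q ∈ P0 V β ∧ p ∈ P0 V β ∧ Valid (LE V) q ∧ Valid (LE V) p ∧ Ext (LE V) q p := by
  rw [LE_eq, mem_sep, pair_mem_prod, and_assoc]
  refine and_congr_right fun _ => and_congr_right fun _ => ⟨?_, fun h => ⟨q, p, rfl, h⟩⟩
  rintro ⟨q', p', h, h'⟩
  obtain ⟨rfl, rfl⟩ := pair_inj.1 h
  exact h'

/-- The conditions of the iteration below `β`. -/
def PP (V β : ZFSet.{u}) : ZFSet.{u} := (P0 V β).sep fun p => pair p p ∈ LE V β

theorem Df.subst5 {R : ZFSet.{u} → ZFSet.{u} → ZFSet.{u} → ZFSet.{u} → ZFSet.{u} → Prop}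
    (h : Df M (fun e => R (e 0) (e 1) (e 2) (e 3) (e 4)))
    (s t w v x : Env.{u} → ZFSet.{u}) [hs : Tm M s] [ht : Tm M t] [hw : Tm M w] [hv : Tm M v]
    [hx : Tm M x] : Df M (fun e => R (s e) (t e) (w e) (v e) (x e)) :=
  ((((h.consTm hs.shift.shift.shift.shift).consTm ht.shift.shift.shift).consTm
    hw.shift.shift).consTm hv.shift).consTm hx

section
variable [hM : ZFm M] {s t w v x : Env.{u} → ZFSet.{u}}

instance [Tm M s] [Tm M t] [Tm M w] [Tm M v] : Df M (fun e => DT (s e) (t e) (w e) (v e)) :=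
  Df.subst4 (R := DT) (by unfold DT; infer_instance) s t w v
instance [Tm M s] [Tm M t] [Tm M w] [Tm M v] : Df M (fun e => DF (s e) (t e) (w e) (v e)) :=
  Df.subst4 (R := DF) (by unfold DF; infer_instance) s t w v
instance [Tm M s] [Tm M t] [Tm M w] [Tm M v] : Df M (fun e => Dec (s e) (t e) (w e) (v e)) :=
  Df.subst4 (R := Dec) (by unfold Dec; infer_instance) s t w v
instance [hs : Tm M s] [ht : Tm M t] [hw : Tm M w] [Tm M v] :
    Tm M (fun e => tr (s e) (t e) (w e) (v e)) := by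
  have := hs.shift
  have := ht.shift
  have := hw.shift
  unfold tr; infer_instance
instance [Tm M s] : Tm M (fun e => aset (s e)) :=
  Tm.apply1 (F := aset) (by unfold aset; infer_instance) s
instance [Tm M s] [Tm M t] [Tm M w] : Df M (fun e => Junk (s e) (t e) (w e)) :=
  Df.subst3 (R := Junk) (by unfold Junk; infer_instance) s t w
instance [Tm M s] [Tm M t] [Tm M w] [Tm M v] : Df M (fun e => Zreq (s e) (t e) (w e) (v e)) :=
  Df.subst4 (R := Zreq) (by unfold Zreq; infer_instance) s t w v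
instance [Tm M s] [Tm M t] [Tm M w] [Tm M v] [Tm M x] :
    Df M (fun e => Pred (s e) (t e) (w e) (v e) (x e)) :=
  Df.subst5 (R := Pred) (by unfold Pred; infer_instance) s t w v x
instance [Tm M s] [Tm M t] : Df M (fun e => SExt (s e) (t e)) :=
  Df.subst2 (R := SExt) (by unfold SExt; infer_instance) s t
instance [Tm M s] [Tm M t] [Tm M w] [Tm M v] : Df M (fun e => EExt (s e) (t e) (w e) (v e)) :=
  Df.subst4 (R := EExt) (by unfold EExt; infer_instance) s t w v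
instance [Tm M s] : Df M (fun e => Lim (s e)) :=
  Df.subst1 (R := Lim) (by unfold Lim; infer_instance) s
instance [Tm M s] [Tm M t] : Df M (fun e => OKc (s e) (t e)) :=
  Df.subst2 (R := OKc) (by unfold OKc; infer_instance) s t
instance [Tm M s] [Tm M t] : Df M (fun e => OKw (s e) (t e)) :=
  Df.subst2 (R := OKw) (by unfold OKw; infer_instance) s t
instance [Tm M s] [Tm M t] : Df M (fun e => OKE (s e) (t e)) :=
  Df.subst2 (R := OKE) (by unfold OKE; infer_instance) s t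
instance [Tm M s] [ht : Tm M t] : Tm M (fun e => P0 (s e) (t e)) := by
  have := ht.shift.shift
  unfold P0; infer_instance
instance [Tm M s] [ht : Tm M t] : Tm M (fun e => res (s e) (t e)) := by
  have := ht.shift
  unfold res; infer_instance

theorem tm_LE {V : ZFSet.{u}} (hV : V ∈ M) : Tm M (fun e => LE V (e 0)) := by
  have := InM.mk hV
  refine @mem_recursion M _ (LE V) (fun β f z => z = ((P0 V β).prod (P0 V β)).sep fun z =>
    ∃ q p, z = pair q p ∧ Valid (app f) q ∧ Valid (app f) p ∧ Ext (app f) q p)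
    (by unfold Valid Ext; infer_instance) ?_
  intro β hβ f hf H
  have h1 : LE V β = ((P0 V β).prod (P0 V β)).sep fun z =>
      ∃ q p, z = pair q p ∧ Valid (app f) q ∧ Valid (app f) p ∧ Ext (app f) q p := by
    rw [LE_eq]
    ext z
    simp only [mem_sep]
    refine and_congr_right fun hz => exists_congr fun q => exists_congr fun p =>
      and_congr_right fun h => ?_
    rw [h, pair_mem_prod] at hz
    exact ⟨step_congr (fun γ hγ => (app_eq (H γ hγ)).symm) hz.1 hz.2,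
      step_congr (fun γ hγ => app_eq (H γ hγ)) hz.1 hz.2⟩
  have := InM.mk hβ
  have := InM.mk hf
  refine ⟨h1 ▸ Tm.mem' (t := fun _ => ((P0 V β).prod (P0 V β)).sep fun z =>
    ∃ q p, z = pair q p ∧ Valid (app f) q ∧ Valid (app f) p ∧ Ext (app f) q p)
    (by unfold Valid Ext; infer_instance), fun z _ => by rw [h1]⟩

instance {V : ZFSet.{u}} [hV : InM M V] [Tm M s] : Tm M (fun e => LE V (s e)) :=
  (tm_LE hV.out).apply1 s

instance {V : ZFSet.{u}} [InM M V] [hs : Tm M s] : Tm M (fun e => PP V (s e)) := by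
  have := hs.shift
  unfold PP; infer_instance

end

/-! Persistence of the forced statements. -/

/-- `E` is a transitive relation. -/
def Tr (E : ZFSet.{u}) : Prop := ∀ p q r, pair r q ∈ E → pair q p ∈ E → pair r p ∈ E

section
variable {E v v' τ n m ζ s s' w w' : ZFSet.{u}}

theorem DT.mono (hE : Tr E) (h : DT E v τ n) (hv : pair v' v ∈ E) : DT E v' τ n :=
  h.imp fun _ h => ⟨h.1, hE _ _ _ hv h.2⟩

theorem DF.mono (hE : Tr E) (h : DF E v τ n) (hv : pair v' v ∈ E) : DF E v' τ n :=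
  fun x hx => h x (hE _ _ _ hx hv)

theorem Dec.mono (hE : Tr E) (h : Dec E v τ m) (hv : pair v' v ∈ E) : Dec E v' τ m :=
  fun n hn => (h n hn).imp (·.mono hE hv) (·.mono hE hv)

theorem Dec.subset (h : Dec E v τ m) (hn : n ⊆ m) : Dec E v τ n := fun k hk => h k (hn hk)

theorem Dec.dt_iff (hE : Tr E) (h : Dec E v τ m) (hv : pair v' v ∈ E) (hn : n ∈ m) :
    DT E v' τ n ↔ DT E v τ n :=
  ⟨fun h' => (h n hn).resolve_right fun h'' => h'' v' hv h', fun h' => h'.mono hE hv⟩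

theorem Dec.tr_eq (hE : Tr E) (h : Dec E v τ m) (hv : pair v' v ∈ E) :
    tr E v' τ m = tr E v τ m := by
  ext n
  simp only [tr, mem_sep]
  exact and_congr_right fun hn => h.dt_iff hE hv hn

theorem Junk.mono (hE : Tr E) (h : Junk E v ζ) (hv : pair v' v ∈ E) : Junk E v' ζ :=
  h.imp fun _ h => ⟨h.1, fun n h1 h2 => (h.2 n h1 h2).mono hE hv⟩

theorem Zreq.mono (hE : Tr E) (hs : fst s ∈ omega) (h : Zreq E v ζ s) (hv : pair v' v ∈ E) :
    Zreq E v' ζ s := by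
  refine h.imp (·.mono hE hv) fun ⟨h1, h2, h3⟩ => ⟨h1.mono hE hv, h1.tr_eq hE hv ▸ h2, fun k hk => ?_⟩
  rw [(h1.subset ((isOrdinal_omega'.mem hs).subset_of_mem hk)).tr_eq hE hv]
  exact h3 k hk

theorem Pred.mono (hE : Tr E) (h : Pred E v τ m s) (hv : pair v' v ∈ E) : Pred E v' τ m s := by
  intro d h1 h2 h3
  obtain ⟨h4, h5⟩ := h d h1 h2 h3
  refine ⟨h4.mono hE hv, ?_⟩
  rw [h4.dt_iff hE hv (mem_insert _ _),
    (h4.subset fun _ h => mem_insert_of_mem _ h).tr_eq hE hv, h5]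

theorem EExt.mono (hE : Tr E) (h : EExt E v w' w) (hv : pair v' v ∈ E) : EExt E v' w' w :=
  ⟨h.1, fun i τ h1 => ⟨(h.2 i τ h1).1, (h.2 i τ h1).2.mono hE hv⟩⟩

theorem SExt.refl (s : ZFSet.{u}) : SExt s s := ⟨subset_rfl, fun _ _ => ⟨fun _ h => h, fun _ h => h⟩⟩

theorem SExt.trans {s'' : ZFSet.{u}} (h : SExt s'' s') (h' : SExt s' s) : SExt s'' s :=
  ⟨h'.1.trans h.1, fun d hd => ⟨fun x hx => (h'.2 d hd).1 x ((h.2 d (h'.1 hd)).1 x hx),
    fun x hx => (h.2 d (h'.1 hd)).2 x ((h'.2 d hd).2 x hx)⟩⟩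

theorem SExt.iff (h : SExt s' s) {d : ZFSet.{u}} (hd : d ∈ fst s) (x : ZFSet.{u}) :
    pair d x ∈ th s' ↔ pair d x ∈ th s := ⟨(h.2 d hd).1 x, (h.2 d hd).2 x⟩

theorem EExt.refl (E v w : ZFSet.{u}) : EExt E v w w :=
  ⟨SExt.refl _, fun i _ h => ⟨⟨i, h⟩, fun _ h1 h2 => (h2 h1).elim⟩⟩

theorem Pred.trans (h : SExt s' s) (h1 : Pred E v τ (fst s) s') (h2 : Pred E v τ m s) :
    Pred E v τ m s' := by
  intro d h3 h4 h5
  by_cases hd : d ∈ fst s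
  · rw [h.iff hd] at h5 ⊢
    exact h2 d hd h4 h5
  · exact h1 d h3 hd h5

theorem EExt.trans {w'' : ZFSet.{u}} (h : EExt E v w'' w') (h' : EExt E v w' w) :
    EExt E v w'' w := by
  refine ⟨h.1.trans h'.1, fun i τ h1 => ?_⟩
  obtain ⟨⟨j, h2⟩, h3⟩ := h'.2 i τ h1
  exact ⟨(h.2 j τ h2).1, Pred.trans h.1 (h.2 j τ h2).2 h3⟩

end

section
variable {V β γ δ p q r c w : ZFSet.{u}}

theorem mem_res : pair c w ∈ res p γ ↔ pair c w ∈ p ∧ fst c ∈ γ := by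
  simp [res]

theorem res_res (h : δ ⊆ γ) : res (res p γ) δ = res p δ := by
  ext z
  simp only [res, mem_sep]
  exact ⟨fun h' => ⟨h'.1.1, h'.2⟩, fun h' => ⟨⟨h'.1, h h'.2⟩, h'.2⟩⟩

theorem OKE.mono {z : ZFSet.{u}} (h : OKE β z) (h' : fst (fst z) ∈ γ) : OKE γ z := by
  obtain ⟨c, w, rfl, ⟨δ, ζ, rfl, -, h1⟩, h2⟩ := h
  simp only [fst_pair] at h'
  exact ⟨_, w, rfl, ⟨δ, ζ, rfl, h', h1⟩, h2⟩

theorem OKE.lev {z : ZFSet.{u}} (h : OKE β z) : fst (fst z) ∈ β := by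
  obtain ⟨c, w, rfl, h1, -⟩ := h
  rw [fst_pair]; exact h1.fst_mem

theorem P0_mono (h : γ ⊆ β) (hp : p ∈ P0 V γ) : p ∈ P0 V β := by
  obtain ⟨h1, h2, h3, h4⟩ := mem_sep.1 hp
  exact mem_sep.2 ⟨h1, h2, h3, fun z hz => (h4 z hz).mono (h (h4 z hz).lev)⟩

theorem res_eq (hp : p ∈ P0 V β) : res p β = p := by
  ext z
  simp only [res, mem_sep]
  exact ⟨fun h => h.1, fun h => ⟨h, ((mem_sep.1 hp).2.2.2 z h).lev⟩⟩

theorem P0.finite (hp : p ∈ P0 V β) : (p : Set ZFSet.{u}).Finite := (mem_sep.1 hp).2.1.1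
theorem P0.fn (hp : p ∈ P0 V β) : Fn p := (mem_sep.1 hp).2.2.1
theorem P0.okc (hp : p ∈ P0 V β) (h : pair c w ∈ p) : OKc β c :=
  ((mem_sep.1 hp).2.2.2 _ h).pair.1
theorem P0.okw (hp : p ∈ P0 V β) (h : pair c w ∈ p) : OKw (fst c) w :=
  ((mem_sep.1 hp).2.2.2 _ h).pair.2

theorem OKw.top {γ w : ZFSet.{u}} (h : OKw γ w) : fst (fst w) ∈ omega := by
  obtain ⟨s, F, rfl, -, h, -⟩ := h
  rwa [fst_pair]

theorem OKw.hf {γ w : ZFSet.{u}} (h : OKw γ w) : rk (fst w) ∈ omega := by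
  obtain ⟨s, F, rfl, h, -⟩ := h
  rwa [fst_pair]

theorem OKw.finite {γ w : ZFSet.{u}} (h : OKw γ w) : (snd w : Set ZFSet.{u}).Finite := by
  obtain ⟨s, F, rfl, h1, -, h2, h3⟩ := h
  rw [snd_pair]
  refine Set.Finite.of_finite_image (f := fst) ((finite_of_hf (hf_fst (hf_snd h1))).subset ?_) ?_
  · rintro _ ⟨y, hy, rfl⟩
    obtain ⟨i, τ, rfl, h, -⟩ := h3 y hy
    rwa [fst_pair]
  · intro y hy y' hy' h
    obtain ⟨i, τ, rfl, -⟩ := h3 y hy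
    obtain ⟨i', τ', rfl, -⟩ := h3 y' hy'
    simp only [fst_pair] at h
    subst h
    rw [h2 _ _ hy _ hy']

theorem OKE.rk_mem {z : ZFSet.{u}} (ho : β.IsOrdinal) (hl : Lim β) (h : OKE β z) : rk z ∈ β := by
  obtain ⟨c, w, rfl, ⟨γ, ζ, rfl, h1, -, h2⟩, h3⟩ := h
  have h4 := h3.finite
  obtain ⟨s, F, rfl, h5, -, -, h6⟩ := h3
  simp only [fst_pair, snd_pair] at h4 h6
  have h7 : ∀ x, rk x ⊆ γ → rk x ∈ β := fun x hx => (isOrdinal_rk x).mem_of_subset_of_mem ho hx h1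
  have h8 : ∀ x, rk x ∈ omega → rk x ∈ β := fun x hx => ho.mem_trans hx hl.1
  refine rk_pair_mem ho hl.2 (rk_pair_mem ho hl.2 (by rwa [rk_of_isOrdinal (ho.mem h1)]) (h7 _ h2))
    (rk_pair_mem ho hl.2 (h8 _ h5) (rk_mem_of_finite ho hl.2 (ho.mem_trans omega_zero hl.1) h4
      fun y hy => ?_))
  obtain ⟨i, τ, rfl, h9, h10⟩ := h6 y hy
  exact rk_pair_mem ho hl.2 (h8 _ (hf_mem (hf_fst (hf_snd h5)) h9)) (h7 _ h10)

theorem rk_mem_of_P0 (ho : β.IsOrdinal) (hl : Lim β) (hp : p ∈ P0 V β) : rk p ∈ β :=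
  rk_mem_of_finite ho hl.2 (ho.mem_trans omega_zero hl.1) (P0.finite hp)
    fun z hz => ((mem_sep.1 hp).2.2.2 z hz).rk_mem ho hl

theorem Valid.res (ho : γ.IsOrdinal) (h : Valid (LE V) q) : Valid (LE V) (res q γ) := by
  intro c w h1
  rw [mem_res] at h1
  rw [res_res (ho.subset_of_mem h1.2)]
  exact h c w h1.1

theorem Ext.res (ho : γ.IsOrdinal) (h : Ext (LE V) q p) : Ext (LE V) (res q γ) (res p γ) := by
  intro c w h1
  rw [mem_res] at h1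
  rw [res_res (ho.subset_of_mem h1.2)]
  obtain ⟨w', h2, h3⟩ := h c w h1.1
  exact ⟨w', mem_res.2 ⟨h2, h1.2⟩, h3⟩

theorem Ext.of_subset (h : p ⊆ q) : Ext (LE V) q p :=
  fun _ w h1 => ⟨w, h h1, EExt.refl _ _ _⟩

theorem mem_PP : p ∈ PP V β ↔ p ∈ P0 V β ∧ Valid (LE V) p := by
  rw [PP, mem_sep, mem_LE]
  exact ⟨fun h => ⟨h.1, h.2.2.2.1⟩, fun h => ⟨h.1, h.1, h.1, h.2, h.2, Ext.of_subset subset_rfl⟩⟩

theorem LE.left (h : pair q p ∈ LE V β) : q ∈ PP V β :=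
  mem_PP.2 ⟨(mem_LE.1 h).1, (mem_LE.1 h).2.2.1⟩

theorem LE.right (h : pair q p ∈ LE V β) : p ∈ PP V β :=
  mem_PP.2 ⟨(mem_LE.1 h).2.1, (mem_LE.1 h).2.2.2.1⟩

theorem LE.ext (h : pair q p ∈ LE V β) : Ext (LE V) q p := (mem_LE.1 h).2.2.2.2

theorem PP.p0 (h : p ∈ PP V β) : p ∈ P0 V β := (mem_PP.1 h).1

theorem PP.valid (h : p ∈ PP V β) : Valid (LE V) p := (mem_PP.1 h).2

theorem PP.refl (h : p ∈ PP V β) : pair p p ∈ LE V β := (mem_sep.1 h).2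

theorem mem_LE' (hq : q ∈ PP V β) (hp : p ∈ PP V β) (h : Ext (LE V) q p) : pair q p ∈ LE V β :=
  mem_LE.2 ⟨PP.p0 hq, PP.p0 hp, PP.valid hq, PP.valid hp, h⟩

theorem PP_mono (h : γ ⊆ β) (hp : p ∈ PP V γ) : p ∈ PP V β :=
  mem_PP.2 ⟨P0_mono h (PP.p0 hp), PP.valid hp⟩

theorem LE_mono (h : γ ⊆ β) (hp : pair q p ∈ LE V γ) : pair q p ∈ LE V β :=
  mem_LE' (PP_mono h (LE.left hp)) (PP_mono h (LE.right hp)) (LE.ext hp)

end

/-- The ground model and the length of the iteration. -/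
structure Ground (W : Set ZFSet.{u}) (κ V : ZFSet.{u}) : Prop where
  model : IsZFModel W
  enum : ∀ x ∈ W, ∃ α ∈ W, α.IsOrdinal ∧ ∃ r ∈ W, Fn r ∧ ∀ y ∈ x, ∃ ξ ∈ α, pair ξ y ∈ r
  ctble : W.Countable
  mem : κ ∈ W
  ord : κ.IsOrdinal
  memV : V ∈ W
  inV : ∀ x ∈ W, (x ∈ V ↔ rk x ⊆ κ)
  lim : Lim κ
  lims : ∀ α ∈ κ, ∃ γ ∈ κ, α ⊆ γ ∧ Lim γ
  cof1 : ∀ Z ∈ W, (∀ k ∈ omega, ∃ α ∈ κ, pair k α ∈ Z) →
    ∃ β ∈ κ, ∀ k ∈ omega, ∃ α ∈ β, pair k α ∈ Z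
  cof2 : ∀ Z ∈ W, (∀ k ∈ omega.prod omega, ∃ α ∈ κ, pair k α ∈ Z) →
    ∃ β ∈ κ, ∀ k ∈ omega.prod omega, ∃ α ∈ β, pair k α ∈ Z

section
variable {W : Set ZFSet.{u}} {κ V β γ δ p q r c w : ZFSet.{u}} [ZFm W] (G : Ground W κ V)
include G

theorem Ground.p0_mem (hp : p ∈ P0 V β) : p ∈ W := mem_of_mem G.memV (mem_sep.1 hp).1

theorem Ground.mem_P0 (hβ : β ⊆ κ) (h0 : ∀ z ∈ p, z ∈ W) (h1 : (p : Set ZFSet.{u}).Finite)
    (h2 : Fn p) (h3 : ∀ z ∈ p, OKE β z) : p ∈ P0 V β := by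
  refine mem_sep.2 ⟨(G.inV _ (mem_of_finite h1 h0)).2 ?_, finLe_omega.2 h1, h2, h3⟩
  exact (rk_subset_iff' G.ord).2 fun z hz => ((h3 z hz).mono (hβ (h3 z hz).lev)).rk_mem G.ord G.lim

theorem Ground.res_mem (hγ : γ ⊆ κ) (hp : p ∈ P0 V β) : res p γ ∈ P0 V γ :=
  G.mem_P0 hγ (fun _ hz => mem_of_mem (G.p0_mem hp) (sep_subset hz))
    ((P0.finite hp).subset sep_subset)
    (fun a b h c h' => P0.fn hp a b (sep_subset h) c (sep_subset h'))
    fun z hz => ((mem_sep.1 hp).2.2.2 z (sep_subset hz)).mono (mem_sep.1 hz).2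

theorem Ground.res_PP (ho : γ.IsOrdinal) (hγ : γ ⊆ κ) (hp : p ∈ PP V β) : res p γ ∈ PP V γ :=
  mem_PP.2 ⟨G.res_mem hγ (PP.p0 hp), (PP.valid hp).res ho⟩

theorem Ground.res_le (ho : γ.IsOrdinal) (hγ : γ ⊆ κ) (h : pair q p ∈ LE V β) :
    pair (res q γ) (res p γ) ∈ LE V γ :=
  mem_LE' (G.res_PP ho hγ (LE.left h)) (G.res_PP ho hγ (LE.right h)) ((LE.ext h).res ho)

theorem Ground.le_res (ho : γ.IsOrdinal) (hβ : β ⊆ κ) (hγ : γ ⊆ β) (hp : p ∈ PP V β) :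
    pair p (res p γ) ∈ LE V β :=
  mem_LE' hp (PP_mono hγ (G.res_PP ho (hγ.trans hβ) hp)) (Ext.of_subset sep_subset)

theorem Ground.tr (ho : β.IsOrdinal) (hβ : β ⊆ κ) : Tr (LE V β) := by
  induction β using ZFSet.inductionOn with
  | h β ih =>
    intro p q r h1 h2
    refine mem_LE' (LE.left h1) (LE.right h2) fun c w h3 => ?_
    obtain ⟨w', h4, h5⟩ := LE.ext h2 c w h3
    obtain ⟨w'', h6, h7⟩ := LE.ext h1 c w' h4
    have h8 := lev_mem (PP.p0 (LE.right h2)) h3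
    have h9 := (ho.subset_of_mem h8).trans hβ
    exact ⟨w'', h6, h7.trans (h5.mono (ih _ h8 (ho.mem h8) h9) (G.res_le (ho.mem h8) h9 h1))⟩

theorem Ground.isForcing (ho : β.IsOrdinal) (hβ : β ⊆ κ) : IsForcing (PP V β) (LE V β) := by
  refine ⟨fun z hz => ?_, fun _ => PP.refl, G.tr ho hβ⟩
  have h1 := hz
  rw [LE_eq] at h1
  obtain ⟨q, p, rfl, -⟩ := (mem_sep.1 h1).2
  exact pair_mem_prod.2 ⟨LE.left hz, LE.right hz⟩

theorem Ground.PP_mem (hβ : β ∈ W) : PP V β ∈ W :=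
  have := InM.mk G.memV
  have := InM.mk hβ
  (inferInstance : Tm W (fun _ => PP V β)).mem'

theorem Ground.LE_mem (hβ : β ∈ W) : LE V β ∈ W := (tm_LE G.memV).mem1 hβ

theorem Ground.empty_mem (hβ : β ⊆ κ) : ∅ ∈ PP V β :=
  mem_PP.2 ⟨G.mem_P0 hβ (fun _ h => (notMem_empty _ h).elim) (by simp)
    (fun _ _ h => (notMem_empty _ h).elim) fun _ h => (notMem_empty _ h).elim,
    fun _ _ h => (notMem_empty _ h).elim⟩

/-- Amalgamation of conditions, coordinate by coordinate. -/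
theorem Ground.amalg (ho : β.IsOrdinal) (hβ : β ⊆ κ) {S D : Set ZFSet.{u}}
    (hS : ∀ p ∈ S, p ∈ PP V β) (hD : D.Finite) (hDS : ∀ p ∈ S, ∀ c w, pair c w ∈ p → c ∈ D)
    (Q : ZFSet.{u} → ZFSet.{u} → Prop)
    (H : ∀ c ∈ D, ∃ w, Q c w ∧ pair c w ∈ W ∧ OKE β (pair c w) ∧
      ∀ v, (∀ p ∈ S, pair v (res p (fst c)) ∈ LE V (fst c)) →
        Zreq (LE V (fst c)) v (snd c) (fst w) ∧
          ∀ p ∈ S, ∀ w0, pair c w0 ∈ p → EExt (LE V (fst c)) v w w0) :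
    ∃ y ∈ PP V β, (∀ p ∈ S, pair y p ∈ LE V β) ∧ ∀ c ∈ D, ∃ w, pair c w ∈ y ∧ Q c w := by
  choose! g h1 h2 h3 h4 using H
  obtain ⟨D', rfl⟩ := exists_coe_of_finite hD
  let y := img (fun c => pair c (g c)) D'
  have hy : ∀ c w, pair c w ∈ y ↔ c ∈ D' ∧ w = g c := by
    intro c w
    rw [mem_img]
    constructor
    · rintro ⟨c', h5, h6⟩
      obtain ⟨rfl, rfl⟩ := pair_inj.1 h6
      exact ⟨h5, rfl⟩
    · rintro ⟨h5, rfl⟩; exact ⟨c, h5, rfl⟩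
  have hy0 : y ∈ P0 V β := G.mem_P0 hβ
    (fun z hz => by obtain ⟨c, hc, rfl⟩ := mem_img.1 hz; exact h2 c hc)
    (coe_img _ _ ▸ hD.image _) (fun a b h c h' => ((hy _ _).1 h).2.trans ((hy _ _).1 h').2.symm)
    fun z hz => by obtain ⟨c, hc, rfl⟩ := mem_img.1 hz; exact h3 c hc
  have key : ∀ δ : ZFSet.{u}, δ.IsOrdinal → δ ⊆ β → res y δ ∈ PP V δ ∧
      ∀ p ∈ S, pair (res y δ) (res p δ) ∈ LE V δ := by
    intro δ
    induction δ using ZFSet.inductionOn with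
    | h δ ih =>
      intro hδo hδ
      have h5 : ∀ c ∈ D', fst c ∈ δ → _ := fun c hc h => h4 c hc (res y (fst c))
        (ih _ h (hδo.mem h) ((hδo.subset_of_mem h).trans hδ)).2
      have h6 : res y δ ∈ PP V δ := by
        refine mem_PP.2 ⟨G.res_mem (hδ.trans hβ) hy0, fun c w h => ?_⟩
        rw [mem_res, hy] at h
        obtain ⟨⟨h7, rfl⟩, h8⟩ := h
        rw [res_res (hδo.subset_of_mem h8)]
        exact (h5 c h7 h8).1
      refine ⟨h6, fun p hp => mem_LE' h6 (G.res_PP hδo (hδ.trans hβ) (hS p hp)) fun c w h => ?_⟩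
      rw [mem_res] at h
      have h7 := hDS p hp c w h.1
      rw [res_res (hδo.subset_of_mem h.2)]
      exact ⟨g c, mem_res.2 ⟨(hy _ _).2 ⟨h7, rfl⟩, h.2⟩, (h5 c h7 h.2).2 p hp w h.1⟩
  obtain ⟨h5, h6⟩ := key β ho subset_rfl
  rw [res_eq hy0] at h5 h6
  exact ⟨y, h5, fun p hp => res_eq (PP.p0 (hS p hp)) ▸ h6 p hp,
    fun c hc => ⟨g c, (hy _ _).2 ⟨hc, rfl⟩, h1 c hc⟩⟩

end

end Pool.Agent.P.MP_0d94a4_lc
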